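import Mathlib

/-!
# MP_598ba0_lc: the cardinals
-/

namespace Pool.MP_598ba0_lc

open Set Cardinal Ordinal Order

/-- `κ₀ = ℵ₀`, `κ_{n+1} = (2^{κ_n})⁺`. -/
noncomputable def kap : ℕ → Cardinal.{0}
  | 0 => ℵ₀
  | n + 1 => succ (2 ^ kap n)

/-- `κ_ω = sup κ_n` -/
noncomputable def kapW : Cardinal.{0} := ⨆ n, kap n

/-- the top level: `κ_ω⁺` -/
noncomputable def kapT : Cardinal.{0} := succ kapW

/-- the cardinal of a level -/
noncomputable def lv : Option ℕ → Cardinal.{0}
  | some n => kap n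
  | none => kapT

@[simp] lemma lv_some (n : ℕ) : lv (some n) = kap n := rfl
@[simp] lemma lv_none : lv none = kapT := rfl

lemma kap_zero : kap 0 = ℵ₀ := rfl
lemma kap_succ (n : ℕ) : kap (n + 1) = succ (2 ^ kap n) := rfl

lemma two_lt (n : ℕ) : (2 : Cardinal.{0}) ^ kap n < kap (n + 1) := lt_succ _

lemma kap_lt (n : ℕ) : kap n < kap (n + 1) := (cantor _).trans (two_lt n)

lemma kap_mono : Monotone kap := monotone_nat_of_le_succ fun n => (kap_lt n).le

lemma kap_strictMono : StrictMono kap := strictMono_nat_of_lt_succ kap_lt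

lemma al_kap (n : ℕ) : ℵ₀ ≤ kap n := by
  rw [← kap_zero]
  exact kap_mono (Nat.zero_le n)

lemma bdd_kap : BddAbove (range kap) := bddAbove_of_small

lemma kap_le_W (n : ℕ) : kap n ≤ kapW := le_ciSup bdd_kap n

lemma kap_lt_W (n : ℕ) : kap n < kapW := (kap_lt n).trans_le (kap_le_W _)

lemma al_W : ℵ₀ ≤ kapW := (al_kap 0).trans (kap_le_W 0)

lemma W_lt_T : kapW < kapT := lt_succ _

lemma al_T : ℵ₀ ≤ kapT := al_W.trans W_lt_T.le

lemma kap_lt_T (n : ℕ) : kap n < kapT := (kap_lt_W n).trans W_lt_T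

lemma exists_lt_kap {c : Cardinal.{0}} (h : c < kapW) : ∃ n, c < kap n :=
  exists_lt_of_lt_ciSup h

lemma exists_le_two {c : Cardinal.{0}} (h : c < kapW) : ∃ n, c ≤ 2 ^ kap n := by
  obtain ⟨n, hn⟩ := exists_lt_kap h
  exact ⟨n, (hn.trans (cantor _)).le⟩

lemma two_kap_lt_W (n : ℕ) : (2 : Cardinal.{0}) ^ kap n < kapW := (two_lt n).trans (kap_lt_W _)

lemma two_lt_W {c : Cardinal.{0}} (h : c < kapW) : (2 : Cardinal.{0}) ^ c < kapW := by
  obtain ⟨n, hn⟩ := exists_lt_kap h
  exact lt_of_le_of_lt (power_le_power_left two_ne_zero hn.le) (two_kap_lt_W n)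

lemma al_lv (j : Option ℕ) : ℵ₀ ≤ lv j := by
  cases j with
  | none => exact al_T
  | some n => exact al_kap n

lemma reg_kap (n : ℕ) : (kap n).IsRegular := by
  cases n with
  | zero => exact isRegular_aleph0
  | succ n => exact isRegular_succ ((al_kap n).trans (cantor _).le)

lemma reg_T : kapT.IsRegular := isRegular_succ al_W

lemma reg_lv (j : Option ℕ) : (lv j).IsRegular := by
  cases j with
  | none => exact reg_T
  | some n => exact reg_kap n

/-- levels above `m` -/
def Above (m : ℕ) : Option ℕ → Prop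
  | none => True
  | some n => m < n

@[simp] lemma above_none (m : ℕ) : Above m none := trivial
@[simp] lemma above_some (m n : ℕ) : Above m (some n) ↔ m < n := Iff.rfl

lemma two_lt_lv {m : ℕ} {j : Option ℕ} (h : Above m j) : (2 : Cardinal.{0}) ^ kap m < lv j := by
  cases j with
  | none => exact (two_kap_lt_W m).trans W_lt_T
  | some n => exact (two_lt m).trans_le (kap_mono h)

lemma lt_kap_succ {c : Cardinal.{0}} {n : ℕ} : c < kap (n + 1) ↔ c ≤ 2 ^ kap n :=
  lt_succ_iff

lemma al_two (n : ℕ) : ℵ₀ ≤ (2 : Cardinal.{0}) ^ kap n := (al_kap n).trans (cantor _).le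

lemma two_pow_self (n : ℕ) : ((2 : Cardinal.{0}) ^ kap n) ^ kap n = 2 ^ kap n := by
  rw [← power_mul, mul_eq_self (al_kap n)]

lemma lv_le_T (j : Option ℕ) : lv j ≤ kapT := by
  cases j with
  | none => exact le_rfl
  | some n => exact (kap_lt_T n).le

/-- the points of a level -/
abbrev K (j : Option ℕ) : Type := (lv j).ord.ToType

/-- the points of `κ_ω` -/
abbrev KW : Type := kapW.ord.ToType

lemma mk_K (j : Option ℕ) : #(K j) = lv j := by simp

lemma mk_KW : #KW = kapW := by simp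

/-- the least level at which a cardinal below `κ_ω` appears -/
lemma level_cases {c : Cardinal.{0}} (h0 : ℵ₀ ≤ c) (h : c < kapW) :
    ∃ n, kap n ≤ c ∧ c < kap (n + 1) := by
  classical
  have hex := exists_lt_kap h
  obtain ⟨m, hm⟩ : ∃ m, Nat.find hex = m + 1 := by
    cases hf : Nat.find hex with
    | zero =>
      have := Nat.find_spec hex
      rw [hf, kap_zero] at this
      exact absurd this (not_lt.2 h0)
    | succ m => exact ⟨m, rfl⟩
  refine ⟨m, ?_, ?_⟩
  · have := Nat.find_min hex (m := m) (by omega)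
    exact not_lt.1 this
  · have := Nat.find_spec hex
    rwa [hm] at this

end Pool.MP_598ba0_lc
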