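import Mathlib
import Pool.Agent.Lib.MP_598ba0_lc.Card

/-!
# MP_598ba0_lc: the forcing, flips, merging, closure of tails
-/

namespace Pool.MP_598ba0_lc

open Set Cardinal

/-- Conditions: for each level `j` a partial function on `K j` of size `< lv j` with values in
`Set (K j) × (ℕ → Bool)`. -/
@[ext] structure Cond : Type where
  f : (j : Option ℕ) → K j → Option (Set (K j) × (ℕ → Bool))
  sm : ∀ j, #{x // f j x ≠ none} < lv j

instance : Preorder Cond where
  le q p := ∀ j x v, p.f j x = some v → q.f j x = some v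
  le_refl p := fun _ _ _ h => h
  le_trans r q p h₁ h₂ := fun j x v h => h₁ j x v (h₂ j x v h)

namespace Cond

lemma le_def {q p : Cond} : q ≤ p ↔ ∀ j x v, p.f j x = some v → q.f j x = some v := Iff.rfl

lemma ext' {p q : Cond} (h : ∀ j x, p.f j x = q.f j x) : p = q :=
  Cond.ext (funext fun j => funext fun x => h j x)

/-- The trivial condition. -/
def triv : Cond where
  f := fun _ _ => none
  sm j := by
    have : IsEmpty {x : K j // (none : Option (Set (K j) × (ℕ → Bool))) ≠ none} :=
      ⟨fun x => x.2 rfl⟩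
    rw [mk_eq_zero]
    exact lt_of_lt_of_le aleph0_pos (al_lv j)

lemma le_triv (p : Cond) : p ≤ triv := fun _ _ _ h => by simp [triv] at h

/-- Patterns of flips. -/
abbrev Flip : Type := (j : Option ℕ) → K j → ℕ → Bool

/-- flipping bits -/
def fl (b : Flip) : Cond →o Cond where
  toFun p :=
    { f := fun j x => (p.f j x).map (fun v => (v.1, fun i => xor (b j x i) (v.2 i)))
      sm := fun j => by
        have h : #{x // (p.f j x).map
            (fun v => ((v.1, fun i => xor (b j x i) (v.2 i)) : Set (K j) × (ℕ → Bool))) ≠ none} =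
            #{x // p.f j x ≠ none} := by
          refine mk_congr (Equiv.subtypeEquivRight fun x => ?_)
          simp
        rw [h]
        exact p.sm j }
  monotone' q p h := by
    intro j x v hv
    dsimp only at hv ⊢
    obtain ⟨c, hc, hcb⟩ := Option.map_eq_some_iff.1 hv
    rw [h j x c hc]
    simp [hcb]

@[simp] lemma fl_f (b : Flip) (p : Cond) (j : Option ℕ) (x : K j) :
    (fl b p).f j x = (p.f j x).map (fun v => (v.1, fun i => xor (b j x i) (v.2 i))) := rfl

lemma fl_fl (b c : Flip) (p : Cond) : fl b (fl c p) = fl (fun j x i => xor (b j x i) (c j x i)) p := by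
  refine ext' (fun j x => ?_)
  simp only [fl_f, Option.map_map]
  congr 1
  funext d
  simp

lemma fl_self (b : Flip) (p : Cond) : fl b (fl b p) = p := by
  refine ext' (fun j x => ?_)
  simp only [fl_f, Option.map_map]
  cases p.f j x <;> simp

lemma fl_comm (b c : Flip) (p : Cond) : fl b (fl c p) = fl c (fl b p) := by
  rw [fl_fl, fl_fl]
  have : (fun j x i => xor (b j x i) (c j x i)) = (fun j x i => xor (c j x i) (b j x i)) := by
    funext j x i
    exact Bool.xor_comm _ _
  rw [this]

lemma fl_zero (p : Cond) : fl (fun _ _ _ => false) p = p := by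
  refine ext' (fun j x => ?_)
  rw [fl_f]
  cases p.f j x <;> simp

/-- a flip which is zero on the domain of a condition fixes it -/
lemma fl_fix {b : Flip} {p : Cond} (h : ∀ j x, p.f j x ≠ none → ∀ i, b j x i = false) :
    fl b p = p := by
  refine ext' (fun j x => ?_)
  rw [fl_f]
  cases hx : p.f j x with
  | none => rfl
  | some v =>
    have := h j x (by rw [hx]; simp)
    simp [this]

/-- members of `Γ_m`: flips of the bits `i ≥ m`, at the levels `n ≥ i` -/
def Gm (m : ℕ) (b : Flip) : Prop := ∀ j x i, b j x i = true → m ≤ i ∧ ∃ n, j = some n ∧ i ≤ n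

lemma Gm.mono {m n : ℕ} (h : m ≤ n) {b : Flip} (hb : Gm n b) : Gm m b :=
  fun j x i hi => ⟨h.trans (hb j x i hi).1, (hb j x i hi).2⟩

lemma Gm.xor {m : ℕ} {b c : Flip} (hb : Gm m b) (hc : Gm m c) :
    Gm m (fun j x i => Bool.xor (b j x i) (c j x i)) := by
  intro j x i h
  cases hbi : b j x i with
  | true => exact hb j x i hbi
  | false =>
    dsimp only at h
    rw [hbi, Bool.false_xor] at h
    exact hc j x i h

lemma Gm.zero (m : ℕ) : Gm m (fun _ _ _ => false) := fun _ _ _ h => by simp at h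

/-- flips in `Γ_{m+1}` do not touch the levels `≤ m` -/
lemma Gm.lev {m : ℕ} {b : Flip} (hb : Gm (m + 1) b) {j : Option ℕ} (hj : ¬ Above m j) (x : K j)
    (i : ℕ) : b j x i = false := by
  by_contra hcon
  rw [Bool.not_eq_false] at hcon
  obtain ⟨h1, n, rfl, h2⟩ := hb j x i hcon
  apply hj
  show m < n
  omega

/-! ### Tails -/

/-- tails: conditions compared only above level `m` -/
structure Tl (m : ℕ) : Type where
  c : Cond

instance (m : ℕ) : Preorder (Tl m) where
  le t t' := ∀ j, Above m j → ∀ x v, t.c.f j x = some v → t'.c.f j x = some v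
  le_refl t := fun _ _ _ _ h => h
  le_trans a b c h₁ h₂ := fun j hj x v h => h₂ j hj x v (h₁ j hj x v h)

lemma Tl.le_def {m : ℕ} {t t' : Tl m} :
    t ≤ t' ↔ ∀ j, Above m j → ∀ x v, t.c.f j x = some v → t'.c.f j x = some v := Iff.rfl

lemma tl_mono {m : ℕ} {q p : Cond} (h : q ≤ p) : (⟨p⟩ : Tl m) ≤ ⟨q⟩ :=
  fun j _ x v hv => h j x v hv

open Classical in
/-- union of a chain above level `m` -/
lemma Tl.chain {m : ℕ} {J : Type} (hJ : #J ≤ 2 ^ kap m)
    (s : J → Tl m) (hs : ∀ j j', s j ≤ s j' ∨ s j' ≤ s j) : ∃ u, ∀ j, s j ≤ u := by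
  let u : (j : Option ℕ) → K j → Option (Set (K j) × (ℕ → Bool)) := fun j x =>
    if h : Above m j ∧ ∃ a, (s a).c.f j x ≠ none then (s h.2.choose).c.f j x else none
  have hu1 : ∀ j x, u j x ≠ none → Above m j ∧ ∃ a, (s a).c.f j x ≠ none := by
    intro j x h
    by_contra hcon
    apply h
    show (if h : Above m j ∧ ∃ a, (s a).c.f j x ≠ none then (s h.2.choose).c.f j x else none) =
      none
    rw [dif_neg hcon]
  have hu2 : ∀ a j x v, Above m j → (s a).c.f j x = some v → u j x = some v := by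
    intro a j x v hj hv
    have h : Above m j ∧ ∃ a, (s a).c.f j x ≠ none := ⟨hj, a, by rw [hv]; simp⟩
    show (if h : Above m j ∧ ∃ a, (s a).c.f j x ≠ none then (s h.2.choose).c.f j x else none) =
      some v
    rw [dif_pos h]
    rcases hs a h.2.choose with h1 | h1
    · exact h1 j hj x v hv
    · obtain ⟨c, hc⟩ := Option.ne_none_iff_exists'.1 h.2.choose_spec
      have := h1 j hj x c hc
      rw [hv] at this
      rw [hc, this]
  refine ⟨⟨⟨u, fun j => ?_⟩⟩, fun a j hj x v hv => hu2 a j x v hj hv⟩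
  by_cases hj : Above m j
  · have hlt : #J < lv j := lt_of_le_of_lt hJ (two_lt_lv hj)
    have h1 : {x | u j x ≠ none} ⊆ ⋃ a, {x | (s a).c.f j x ≠ none} := by
      intro x hx
      rw [mem_iUnion]
      exact (hu1 j x hx).2
    refine lt_of_le_of_lt (mk_le_mk_of_subset h1) ?_
    rw [card_iUnion_lt_iff_forall_of_isRegular (reg_lv j) hlt]
    exact fun a => (s a).c.sm j
  · have : IsEmpty {x // u j x ≠ none} := ⟨fun x => hj (hu1 j x.1 x.2).1⟩
    rw [mk_eq_zero]
    exact lt_of_lt_of_le aleph0_pos (al_lv j)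

open Classical in
/-- merge: levels `≤ m` from `a`, levels above `m` from `t` -/
noncomputable def mrg {m : ℕ} (a : Cond) (t : Tl m) : Cond where
  f j x := if Above m j then t.c.f j x else a.f j x
  sm j := by
    by_cases h : Above m j
    · simp only [h, if_true]
      exact t.c.sm j
    · simp only [h, if_false]
      exact a.sm j

section mrg
variable {m : ℕ}

lemma mrg_hi {a : Cond} {t : Tl m} {j : Option ℕ} {x : K j} (h : Above m j) :
    (mrg a t).f j x = t.c.f j x := by simp [mrg, h]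

lemma mrg_lo {a : Cond} {t : Tl m} {j : Option ℕ} {x : K j} (h : ¬ Above m j) :
    (mrg a t).f j x = a.f j x := by simp [mrg, h]

lemma mrg_mono {a a' : Cond} {t t' : Tl m}
    (ha : ∀ j, ¬ Above m j → ∀ x v, a.f j x = some v → a'.f j x = some v) (ht : t ≤ t') :
    mrg a' t' ≤ mrg a t := by
  intro j x v hv
  by_cases h : Above m j
  · rw [mrg_hi h] at hv ⊢
    exact ht j h x v hv
  · rw [mrg_lo h] at hv ⊢
    exact ha j h x v hv

lemma mrg_mono' {a a' : Cond} {t t' : Tl m} (ha : a' ≤ a) (ht : t ≤ t') :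
    mrg a' t' ≤ mrg a t := mrg_mono (fun j _ x v h => ha j x v h) ht

lemma mrg_self (q : Cond) : mrg q (⟨q⟩ : Tl m) = q := by
  refine ext' (fun j x => ?_)
  by_cases h : Above m j
  · rw [mrg_hi h]
  · rw [mrg_lo h]

lemma le_mrg {q a : Cond} {t : Tl m} (ha : q ≤ a) (h : t ≤ ⟨q⟩) : q ≤ mrg a t := by
  have := mrg_mono' (m := m) ha h
  rwa [mrg_self] at this

lemma tl_mrg {a : Cond} {t : Tl m} : t ≤ (⟨mrg a t⟩ : Tl m) := by
  intro j hj x v hv
  show (mrg a t).f j x = some v
  rwa [mrg_hi hj]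

open Classical in
/-- the low part of a condition -/
noncomputable def low (m : ℕ) (p : Cond) : Cond where
  f j x := if Above m j then none else p.f j x
  sm j := by
    by_cases h : Above m j
    · simp only [h, if_true]
      have : IsEmpty {x : K j // (none : Option (Set (K j) × (ℕ → Bool))) ≠ none} :=
        ⟨fun x => x.2 rfl⟩
      rw [mk_eq_zero]
      exact lt_of_lt_of_le aleph0_pos (al_lv j)
    · simp only [h, if_false]
      exact p.sm j

lemma low_hi {p : Cond} {j : Option ℕ} {x : K j} (h : Above m j) : (low m p).f j x = none := by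
  simp [low, h]

lemma low_lo {p : Cond} {j : Option ℕ} {x : K j} (h : ¬ Above m j) :
    (low m p).f j x = p.f j x := by simp [low, h]

lemma le_low (p : Cond) : p ≤ low m p := by
  intro j x v hv
  by_cases h : Above m j
  · rw [low_hi h] at hv
    exact absurd hv (by simp)
  · rwa [low_lo h] at hv

lemma mrg_low (a : Cond) (t : Tl m) : mrg (low m a) t = mrg a t := by
  refine ext' (fun j x => ?_)
  by_cases h : Above m j
  · rw [mrg_hi h, mrg_hi h]
  · rw [mrg_lo h, mrg_lo h, low_lo h]

lemma low_mrg (a : Cond) (t : Tl m) : low m (mrg a t) = low m a := by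
  refine ext' (fun j x => ?_)
  by_cases h : Above m j
  · rw [low_hi h, low_hi h]
  · rw [low_lo h, low_lo h, mrg_lo h]

lemma low_low (a : Cond) : low m (low m a) = low m a := by
  refine ext' (fun j x => ?_)
  by_cases h : Above m j
  · rw [low_hi h, low_hi h]
  · rw [low_lo h]

lemma low_mono {q p : Cond} (h : q ≤ p) : low m q ≤ low m p := by
  intro j x v hv
  by_cases hj : Above m j
  · rw [low_hi hj] at hv
    exact absurd hv (by simp)
  · rw [low_lo hj] at hv ⊢
    exact h j x v hv

lemma mrg_fl {b : Flip} (hb : Gm (m + 1) b) (a : Cond) (t : Tl m) :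
    mrg (fl b a) t = mrg a t := by
  refine ext' (fun j x => ?_)
  by_cases h : Above m j
  · rw [mrg_hi h, mrg_hi h]
  · rw [mrg_lo h, mrg_lo h, fl_f]
    cases a.f j x with
    | none => rfl
    | some v => simp [hb.lev h]

lemma low_fl {b : Flip} (hb : Gm (m + 1) b) (a : Cond) : low m (fl b a) = low m a := by
  refine ext' (fun j x => ?_)
  by_cases h : Above m j
  · rw [low_hi h, low_hi h]
  · rw [low_lo h, low_lo h, fl_f]
    cases a.f j x with
    | none => rfl
    | some v => simp [hb.lev h]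

end mrg

/-- low conditions -/
abbrev Lo (m : ℕ) : Type := {a : Cond // low m a = a}

/-- the low part as an element of `Lo m` -/
noncomputable def toLo (m : ℕ) (p : Cond) : Lo m := ⟨low m p, low_low p⟩

lemma mk_val_le {j : Option ℕ} : #(Option (Set (K j) × (ℕ → Bool))) ≤ 2 ^ lv j := by
  have h1 : #(Set (K j) × (ℕ → Bool)) ≤ 2 ^ lv j := by
    rw [mk_prod, lift_id, lift_id, mk_set, mk_K]
    have h2 : #(ℕ → Bool) ≤ 2 ^ lv j := by
      simp only [mk_pi, mk_bool, prod_const, mk_nat, lift_id]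
      exact power_le_power_left two_ne_zero (al_lv j)
    refine (mul_le_mul' le_rfl h2).trans ?_
    rw [mul_eq_self ((al_lv j).trans (cantor _).le)]
  rw [mk_option]
  exact add_le_of_le ((al_lv j).trans (cantor _).le) h1
    (one_le_aleph0.trans ((al_lv j).trans (cantor _).le))

lemma mk_fun_le {j : Option ℕ} : #(K j → Option (Set (K j) × (ℕ → Bool))) ≤ 2 ^ lv j := by
  rw [← power_def, mk_K]
  refine (power_le_power_right mk_val_le).trans ?_
  rw [← power_mul, mul_eq_self (al_lv j)]

lemma mk_Lo_le (m : ℕ) : #(Lo m) ≤ 2 ^ kap m := by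
  let F : Lo m → ((j : {j : Option ℕ // ¬ Above m j}) → K j.1 → Option (Set (K j.1) × (ℕ → Bool))) :=
    fun a j x => a.1.f j.1 x
  have hF : Function.Injective F := by
    rintro ⟨a, ha⟩ ⟨b, hb⟩ h
    apply Subtype.ext
    show a = b
    rw [← ha, ← hb]
    refine ext' (fun j x => ?_)
    by_cases hj : Above m j
    · rw [low_hi hj, low_hi hj]
    · rw [low_lo hj, low_lo hj]
      exact congrFun (congrFun h ⟨j, hj⟩) x
  refine (mk_le_of_injective hF).trans ?_
  rw [mk_pi]
  refine (prod_le_prod _ (fun _ => 2 ^ kap m) (fun j => ?_)).trans ?_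
  · obtain ⟨j, hj⟩ := j
    refine mk_fun_le.trans (power_le_power_left two_ne_zero ?_)
    cases j with
    | none => exact absurd trivial hj
    | some n =>
      have : n ≤ m := not_lt.1 hj
      exact kap_mono this
  · rw [prod_const, lift_id, lift_id]
    have h1 : #{j : Option ℕ // ¬ Above m j} ≤ kap m :=
      (mk_le_aleph0 (α := {j : Option ℕ // ¬ Above m j})).trans (al_kap m)
    refine (power_le_power_left (power_ne_zero _ two_ne_zero) h1).trans ?_
    rw [two_pow_self]

lemma mk_Cond_le : #Cond ≤ 2 ^ kapT := by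
  let F : Cond → ((j : Option ℕ) → K j → Option (Set (K j) × (ℕ → Bool))) := fun a => a.f
  have hF : Function.Injective F := fun a b h => Cond.ext h
  refine (mk_le_of_injective hF).trans ?_
  rw [mk_pi]
  refine (prod_le_prod _ (fun _ => 2 ^ kapT) (fun j => ?_)).trans ?_
  · exact mk_fun_le.trans (power_le_power_left two_ne_zero (lv_le_T j))
  · rw [prod_const, lift_id, lift_id]
    have h1 : #(Option ℕ) ≤ kapT := (mk_le_aleph0 (α := Option ℕ)).trans al_T
    refine (power_le_power_left (power_ne_zero _ two_ne_zero) h1).trans ?_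
    rw [← power_mul, mul_eq_self al_T]

end Cond

/-! ### Deciding -/

/-- An abstract decision lemma. -/
lemma zorn_dec {T : Type} [Preorder T] {J : Type}
    (hub : ∀ s : J → T, (∀ j j', s j ≤ s j' ∨ s j' ≤ s j) → ∃ u, ∀ j, s j ≤ u)
    (Ψ : J → T → Prop) (mono : ∀ j t t', Ψ j t → t ≤ t' → Ψ j t') (t₀ : T) :
    ∃ t, t₀ ≤ t ∧ ∀ j t', t ≤ t' → Ψ j t' → Ψ j t := by
  classical
  by_cases hJ : IsEmpty J
  · exact ⟨t₀, le_rfl, fun j => (hJ.false j).elim⟩
  rw [not_isEmpty_iff] at hJ
  let r : {t // t₀ ≤ t} → {t // t₀ ≤ t} → Prop := fun t t' =>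
    t = t' ∨ (t.1 ≤ t'.1 ∧ ∃ j, Ψ j t'.1 ∧ ¬ Ψ j t.1)
  have rle : ∀ {t t'}, r t t' → t.1 ≤ t'.1 := by
    rintro t t' (rfl | h)
    · exact le_rfl
    · exact h.1
  have trans : ∀ {a b c}, r a b → r b c → r a c := by
    rintro a b c (rfl | ⟨h1, j, h2, h3⟩) h
    · exact h
    · rcases h with rfl | ⟨h4, _⟩
      · exact Or.inr ⟨h1, j, h2, h3⟩
      · exact Or.inr ⟨h1.trans h4, j, mono j _ _ h2 h4, h3⟩
  obtain ⟨m, hm⟩ := exists_maximal_of_chains_bounded (r := r) (fun c hc => by
    by_cases hmax : ∃ ub ∈ c, ∀ a ∈ c, r a ub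
    · obtain ⟨ub, _, h⟩ := hmax
      exact ⟨ub, h⟩
    push Not at hmax
    by_cases hne : c.Nonempty
    · obtain ⟨c₀, hc₀⟩ := hne
      have hex : ∀ j : J, ∃ t ∈ c, (∃ t' ∈ c, Ψ j t'.1) → Ψ j t.1 := by
        intro j
        by_cases h : ∃ t' ∈ c, Ψ j t'.1
        · obtain ⟨t', h1, h2⟩ := h
          exact ⟨t', h1, fun _ => h2⟩
        · exact ⟨c₀, hc₀, fun h' => absurd h' h⟩
      choose s hs1 hs2 using hex
      have hcomp : ∀ a ∈ c, ∀ b ∈ c, r a b ∨ r b a := by
        intro a ha b hb
        by_cases hab : a = b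
        · exact Or.inl (Or.inl hab)
        · exact hc ha hb hab
      obtain ⟨u, hu⟩ := hub (fun j => (s j).1) (fun j j' =>
        (hcomp _ (hs1 j) _ (hs1 j')).imp rle rle)
      have hle : t₀ ≤ u := (s hJ.some).2.trans (hu _)
      refine ⟨⟨u, hle⟩, fun t ht => ?_⟩
      obtain ⟨t', ht', hr⟩ := hmax t ht
      rcases hcomp t ht t' ht' with h | h
      · rcases h with h | ⟨_, j, h2, h3⟩
        · exact absurd (Or.inl h.symm) hr
        · have h4 : Ψ j (s j).1 := hs2 j ⟨t', ht', h2⟩
          have h5 : t.1 ≤ (s j).1 := by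
            rcases hcomp t ht _ (hs1 j) with h | h
            · exact rle h
            · exact absurd (mono j _ _ h4 (rle h)) h3
          exact Or.inr ⟨h5.trans (hu j), j, mono j _ _ h4 (hu j), h3⟩
      · exact absurd h hr
    · exact ⟨⟨t₀, le_rfl⟩, fun a ha => absurd ⟨a, ha⟩ hne⟩) trans
  refine ⟨m.1, m.2, fun j t' ht' hΨ => ?_⟩
  by_contra hcon
  rcases hm ⟨t', m.2.trans ht'⟩ (Or.inr ⟨ht', j, hΨ, hcon⟩) with h | h
  · apply hcon
    rw [← h]
    exact hΨ
  · exact hcon (mono j _ _ hΨ h.1)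

namespace Cond

/-- The reduction lemma: a tail above `m` decides `2^{κ_m}` many monotone properties. -/
lemma tail_dec {m : ℕ} {J : Type} (hJ : #J ≤ 2 ^ kap m) (Ψ : J → Tl m → Prop)
    (mono : ∀ j t t', Ψ j t → t ≤ t' → Ψ j t') (t₀ : Tl m) :
    ∃ t, t₀ ≤ t ∧ ∀ j t', t ≤ t' → Ψ j t' → Ψ j t :=
  zorn_dec (fun s hs => Tl.chain hJ s hs) Ψ mono t₀

/-- The fusion lemma. -/
lemma fusion {J : ℕ → Type} (hJ : ∀ m, #(J m) ≤ 2 ^ kap m) (Ψ : (m : ℕ) → J m → Tl m → Prop)
    (mono : ∀ m j t t', Ψ m j t → t ≤ t' → Ψ m j t') (p : Cond) :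
    ∃ q ≤ p, ∀ m j t', (⟨q⟩ : Tl m) ≤ t' → Ψ m j t' → Ψ m j ⟨q⟩ := by
  classical
  choose step hstep1 hstep2 using fun (m : ℕ) (t₀ : Tl m) => tail_dec (hJ m) (Ψ m) (mono m) t₀
  let s : ℕ → Cond := fun n => Nat.rec p (fun n q => mrg q (step n ⟨q⟩)) n
  have hs0 : s 0 = p := rfl
  have hs : ∀ n, s (n + 1) = mrg (s n) (step n ⟨s n⟩) := fun n => rfl
  have hle1 : ∀ n, s (n + 1) ≤ s n := by
    intro n
    rw [hs]
    have := mrg_mono' (m := n) (le_refl (s n)) (hstep1 n ⟨s n⟩)
    rwa [mrg_self] at this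
  have hle : ∀ {a b}, a ≤ b → s b ≤ s a := by
    intro a b hab
    induction b, hab using Nat.le_induction with
    | base => exact le_rfl
    | succ b _ ih => exact (hle1 b).trans ih
  have hcst : ∀ {a b n : ℕ}, n ≤ a → a ≤ b → ∀ x, (s b).f (some n) x = (s a).f (some n) x := by
    intro a b n hna hab x
    induction b, hab using Nat.le_induction with
    | base => rfl
    | succ b hb ih =>
      rw [hs, mrg_lo (by simp only [above_some, not_lt]; omega), ih]
  let u : (j : Option ℕ) → K j → Option (Set (K j) × (ℕ → Bool)) := fun j x =>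
    if h : ∃ a, (s a).f j x ≠ none then (s h.choose).f j x else none
  have hu1 : ∀ j x, u j x ≠ none → ∃ a, (s a).f j x ≠ none := by
    intro j x h
    by_contra hcon
    apply h
    show (if h : ∃ a, (s a).f j x ≠ none then (s h.choose).f j x else none) = none
    rw [dif_neg hcon]
  have hu2 : ∀ a j x v, (s a).f j x = some v → u j x = some v := by
    intro a j x v hv
    have h : ∃ a, (s a).f j x ≠ none := ⟨a, by rw [hv]; simp⟩
    show (if h : ∃ a, (s a).f j x ≠ none then (s h.choose).f j x else none) = some v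
    rw [dif_pos h]
    rcases le_total a h.choose with h1 | h1
    · exact hle h1 j x v hv
    · obtain ⟨c, hc⟩ := Option.ne_none_iff_exists'.1 h.choose_spec
      have := hle h1 j x c hc
      rw [hv] at this
      rw [hc, this]
  have hsm : ∀ j, #{x // u j x ≠ none} < lv j := by
    intro j
    cases j with
    | some n =>
      have h1 : {x | u (some n) x ≠ none} ⊆ {x | (s n).f (some n) x ≠ none} := by
        intro x hx
        obtain ⟨a, ha⟩ := hu1 _ x hx
        rcases le_total a n with h | h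
        · obtain ⟨c, hc⟩ := Option.ne_none_iff_exists'.1 ha
          have := hle h (some n) x c hc
          show (s n).f (some n) x ≠ none
          rw [this]
          simp
        · show (s n).f (some n) x ≠ none
          rwa [← hcst le_rfl h x]
      exact lt_of_le_of_lt (mk_le_mk_of_subset h1) ((s n).sm (some n))
    | none =>
      have h1 : {x | u none x ≠ none} ⊆ ⋃ a, {x | (s a).f none x ≠ none} := by
        intro x hx
        rw [mem_iUnion]
        exact hu1 none x hx
      refine lt_of_le_of_lt (mk_le_mk_of_subset h1) ?_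
      have hlt : #ℕ < lv none := by
        rw [mk_nat]
        exact lt_of_le_of_lt al_W W_lt_T
      rw [card_iUnion_lt_iff_forall_of_isRegular (reg_lv none) hlt]
      exact fun a => (s a).sm none
  refine ⟨⟨u, hsm⟩, fun j x v hv => hu2 0 j x v hv, fun m j t' ht' hΨ => ?_⟩
  have hq : step m ⟨s m⟩ ≤ (⟨⟨u, hsm⟩⟩ : Tl m) := by
    intro i hi x v hv
    refine hu2 (m + 1) i x v ?_
    rw [hs, mrg_hi hi]
    exact hv
  exact mono m j _ _ (hstep2 m _ j t' (hq.trans ht') hΨ) hq

end Cond

end Pool.MP_598ba0_lc
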