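import Mathlib.SetTheory.ZFC.Ordinal
import Mathlib.Data.Fin.VecNotation

/-!
# MP_598ba0_lc: the definitions used in the statement

Everything is about Mathlib's type `ZFSet.{0}` of sets.  A *transitive model* is given by a
transitive `E : Set ZFSet.{0}`, with the true membership relation.  (Formulas, satisfaction and
`ZFModel` are as in the hand-in for MP_3ade05_lc.)
-/

namespace Pool.MP_598ba0_lc

/-- First-order formulas of the language of set theory (`=`, `∈`) with free variables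
among `x₀, …, x_{n-1}`.  In `all φ` the new variable bound by the quantifier is `x₀`, the
free variables of `all φ` being shifted by one inside `φ`. -/
inductive Fml : ℕ → Type
  | bot {n : ℕ} : Fml n
  | eq {n : ℕ} (i j : Fin n) : Fml n
  | mem {n : ℕ} (i j : Fin n) : Fml n
  | imp {n : ℕ} (φ ψ : Fml n) : Fml n
  | all {n : ℕ} (φ : Fml (n + 1)) : Fml n

/-- `Sat E φ v`: the structure `(E, ∈)` satisfies `φ` at the assignment `v`
(quantifiers range over `E`). -/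
def Sat (E : Set ZFSet.{0}) : {n : ℕ} → Fml n → (Fin n → ZFSet.{0}) → Prop
  | _, .bot, _ => False
  | _, .eq i j, v => v i = v j
  | _, .mem i j, v => v i ∈ v j
  | _, .imp φ ψ, v => Sat E φ v → Sat E ψ v
  | _, .all φ, v => ∀ x ∈ E, Sat E φ (Fin.cons x v)

/-- `(E, ∈)` is a model of `ZF`: all axioms of Zermelo–Fraenkel set theory without Choice,
relativised to `E`; Separation and Replacement are the usual first-order schemata with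
parameters. -/
structure ZFModel (E : Set ZFSet.{0}) : Prop where
  nonempty : E.Nonempty
  extensionality : ∀ x ∈ E, ∀ y ∈ E, (∀ z ∈ E, z ∈ x ↔ z ∈ y) → x = y
  foundation : ∀ x ∈ E, (∃ y ∈ E, y ∈ x) → ∃ y ∈ E, y ∈ x ∧ ∀ z ∈ E, z ∈ y → z ∉ x
  pairing : ∀ x ∈ E, ∀ y ∈ E, ∃ z ∈ E, ∀ w ∈ E, w ∈ z ↔ w = x ∨ w = y
  union : ∀ x ∈ E, ∃ u ∈ E, ∀ z ∈ E, z ∈ u ↔ ∃ y ∈ E, y ∈ x ∧ z ∈ y
  power : ∀ x ∈ E, ∃ p ∈ E, ∀ z ∈ E, z ∈ p ↔ ∀ w ∈ E, w ∈ z → w ∈ x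
  infinity : ∃ x ∈ E, (∃ e ∈ E, e ∈ x ∧ ∀ z ∈ E, z ∉ e) ∧
    ∀ y ∈ E, y ∈ x → ∃ z ∈ E, z ∈ x ∧ ∀ w ∈ E, w ∈ z ↔ w ∈ y ∨ w = y
  separation : ∀ (n : ℕ) (φ : Fml (n + 1)) (v : Fin n → ZFSet.{0}), (∀ i, v i ∈ E) →
    ∀ a ∈ E, ∃ b ∈ E, ∀ x ∈ E, x ∈ b ↔ x ∈ a ∧ Sat E φ (Fin.cons x v)
  replacement : ∀ (n : ℕ) (φ : Fml (n + 2)) (v : Fin n → ZFSet.{0}), (∀ i, v i ∈ E) →
    ∀ a ∈ E, (∀ x ∈ E, x ∈ a → ∃! y, y ∈ E ∧ Sat E φ (Fin.cons x (Fin.cons y v))) →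
      ∃ b ∈ E, ∀ y ∈ E, y ∈ b ↔ ∃ x ∈ E, x ∈ a ∧ Sat E φ (Fin.cons x (Fin.cons y v))

/-- `f` is a function from `a` onto `b` (as a set of ordered pairs). -/
def IsOnto (a b f : ZFSet.{0}) : Prop :=
  ZFSet.IsFunc a b f ∧ ∀ y ∈ b, ∃ x ∈ a, ZFSet.pair x y ∈ f

/-- `κ` is a cardinal of the transitive model `E`: an ordinal of `E` such that no `f ∈ E` is a
function from some ordinal `β < κ` onto `κ`. -/
def IsCard (E : Set ZFSet.{0}) (κ : ZFSet.{0}) : Prop :=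
  κ ∈ E ∧ κ.IsOrdinal ∧ ∀ β ∈ κ, ∀ f ∈ E, ¬ IsOnto β κ f

/-- `κ` is an infinite cardinal of `E`. -/
def IsInfCard (E : Set ZFSet.{0}) (κ : ZFSet.{0}) : Prop :=
  IsCard E κ ∧ ZFSet.omega ⊆ κ

/-- `κ` is, in `E`, the successor cardinal `μ⁺` of the infinite cardinal `μ`: it is the
least cardinal of `E` which is larger than `μ`. -/
def IsSuccOf (E : Set ZFSet.{0}) (μ κ : ZFSet.{0}) : Prop :=
  IsInfCard E μ ∧ IsCard E κ ∧ μ ∈ κ ∧ ∀ ν ∈ κ, IsCard E ν → ¬ μ ∈ ν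

/-- The infinite cardinal `κ` of `E` is regular in `E`: no function `f ∈ E` from an ordinal
`β < κ` to `κ` has a range which is unbounded in `κ`. -/
def IsReg (E : Set ZFSet.{0}) (κ : ZFSet.{0}) : Prop :=
  IsInfCard E κ ∧ ∀ β ∈ κ, ∀ f ∈ E, ZFSet.IsFunc β κ f →
    ∃ γ ∈ κ, ∀ x y, ZFSet.pair x y ∈ f → y ∈ γ

/-- `D` is, in `E`, a uniform ultrafilter on the infinite cardinal `κ` of `E`: a set `D ∈ E` of
subsets of `κ` which contains `κ`, not `∅`, is closed under supersets (in `E`, inside `κ`) and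
intersections, contains `A` or `κ \ A` for every `A ∈ E` with `A ⊆ κ`, and all of whose elements
`A` have cardinality `κ` in `E` (that is, no `f ∈ E` is a function from an ordinal `β < κ`
onto `A`). -/
structure IsUniformUltrafilter (E : Set ZFSet.{0}) (κ D : ZFSet.{0}) : Prop where
  mem : D ∈ E
  sub : ∀ A ∈ D, A ⊆ κ
  whole : κ ∈ D
  empty : ∅ ∉ D
  up : ∀ A ∈ D, ∀ B ∈ E, A ⊆ B → B ⊆ κ → B ∈ D
  inter : ∀ A ∈ D, ∀ B ∈ D, A ∩ B ∈ D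
  ultra : ∀ A ∈ E, A ⊆ κ → A ∈ D ∨ κ \ A ∈ D
  uniform : ∀ A ∈ D, ∀ β ∈ κ, ∀ f ∈ E, ¬ IsOnto β A f

end Pool.MP_598ba0_lc
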