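import Mathlib
import Pool.Agent.Lib.MP_598ba0_lc.Cond
import Pool.Agent.Lib.MP_598ba0_lc.Name

/-!
# MP_598ba0_lc: hereditarily symmetric names
-/

namespace Pool.MP_598ba0_lc

open Set Name Cond

/-- Names for the concrete forcing. -/
abbrev Nm := Name Cond

/-- `τ` is supported by the bits `< m`. -/
def Sym (m : ℕ) (τ : Nm) : Prop := ∀ b, Gm m b → Eqv (act (fl b) τ) τ

/-- Hereditarily symmetric names. -/
def HS : Nm → Prop
  | Name.mk ι A c => (∃ m, Sym m (Name.mk ι A c)) ∧ ∀ k : ι, HS (A k)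

lemma HS_def (τ : Nm) : HS τ ↔ (∃ m, Sym m τ) ∧ ∀ k : τ.ι, HS (τ.A k) := by
  cases τ; rfl

/-- names for the symmetric model -/
def NN : Set Nm := {τ | HS τ}

lemma Sym.mono {m n : ℕ} (h : m ≤ n) {τ : Nm} (hτ : Sym m τ) : Sym n τ :=
  fun b hb => hτ b (hb.mono h)

lemma Sym.act {m : ℕ} {τ : Nm} (hτ : Sym m τ) (c : Flip) : Sym m (act (fl c) τ) := by
  intro b hb
  have h1 : Name.act (fl b) (Name.act (fl c) τ) = Name.act (fl c) (Name.act (fl b) τ) := by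
    rw [act_act, act_act]
    exact act_congr (fun p => (fl_comm b c p).symm) τ
  rw [h1]
  exact (hτ b hb).act (fl c)

lemma HS.act {τ : Nm} (hτ : HS τ) (c : Flip) : HS (act (fl c) τ) := by
  induction τ with
  | mk ι A d ih =>
    obtain ⟨⟨m, hm⟩, h⟩ := hτ
    exact ⟨⟨m, hm.act c⟩, fun k => ih k (h k)⟩

lemma act_mem {α : Cond →o Cond} {τ : Nm} (h : act α τ = τ) (k : τ.ι) :
    act α (τ.A k) = τ.A k ∧ pre α (τ.c k) = τ.c k := by
  cases τ with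
  | mk ι A c =>
    rw [act_mk] at h
    injection h with _ h1 h2
    exact ⟨congrFun h1 k, congrFun h2 k⟩

lemma act_mk_of {α : Cond →o Cond} {ι : Type} {A : ι → Nm} {c : ι → LowerSet Cond}
    (hA : ∀ k, act α (A k) = A k) (hc : ∀ k, pre α (c k) = c k) :
    act α (mk ι A c) = mk ι A c := by
  rw [act_mk]
  congr 1
  · exact funext hA
  · exact funext hc

lemma HS.mem {τ : Nm} (h : HS τ) (k : τ.ι) : HS (τ.A k) := ((HS_def τ).1 h).2 k

lemma NN_mem {τ : Nm} (h : τ ∈ NN) (k : τ.ι) : τ.A k ∈ NN := HS.mem h k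

lemma NN_sym {τ : Nm} (h : τ ∈ NN) : ∃ m, Sym m τ := ((HS_def τ).1 h).1

lemma NN_fl (b : Flip) {τ : Nm} (h : τ ∈ NN) : act (fl b) τ ∈ NN := HS.act h b

/-- a name whose members are in `NN` and which is fixed by `Γ_m` is in `NN` -/
lemma NN_of {m : ℕ} {τ : Nm} (h : ∀ k, τ.A k ∈ NN) (hs : Sym m τ) : τ ∈ NN :=
  (HS_def τ).2 ⟨⟨m, hs⟩, h⟩

/-! ### Invariant names -/

/-- completely invariant names -/
def Inv (τ : Nm) : Prop := ∀ α : Cond →o Cond, act α τ = τ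

lemma Inv.mem {τ : Nm} (h : Inv τ) (k : τ.ι) : Inv (τ.A k) := fun α => (act_mem (h α) k).1

lemma Inv.NN {τ : Nm} (h : Inv τ) : τ ∈ NN := by
  show HS τ
  induction τ using Name.ind with
  | h σ ih =>
    rw [HS_def]
    exact ⟨⟨0, fun b _ => Eqv.of_eq (h _)⟩, fun k => ih k (h.mem k)⟩

lemma Inv.sym {τ : Nm} (h : Inv τ) (m : ℕ) : Sym m τ := fun _ _ => Eqv.of_eq (h _)

@[simp] lemma pre_top (α : Cond →o Cond) : pre α (⊤ : LowerSet Cond) = ⊤ := by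
  ext q
  simp

/-! ### Names for ordinals -/

/-- the canonical name of the ordinal `α` -/
noncomputable def on (α : Ordinal.{0}) : Nm :=
  mk α.ToType (fun i => on (i.toOrd : Ordinal.{0})) (fun _ => ⊤)
termination_by α
decreasing_by exact i.toOrd.2

lemma on_eq (α : Ordinal.{0}) :
    on α = mk α.ToType (fun i => on (i.toOrd : Ordinal.{0})) (fun _ => ⊤) := by
  rw [on]

lemma on_idx {α β : Ordinal.{0}} (h : β < α) : ∃ k : (on α).ι, (on α).A k = on β ∧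
    (on α).c k = ⊤ := by
  rw [on_eq α]
  refine ⟨Ordinal.ToType.mk ⟨β, h⟩, ?_, rfl⟩
  show on ((Ordinal.ToType.mk (⟨β, h⟩ : Set.Iio α)).toOrd : Ordinal.{0}) = on β
  simp

lemma on_idx' {α : Ordinal.{0}} (k : (on α).ι) : (on α).c k = ⊤ ∧ ∃ β < α, (on α).A k = on β := by
  revert k
  rw [on_eq α]
  exact fun k => ⟨rfl, _, (Ordinal.ToType.toOrd k).2, rfl⟩

lemma on_Inv (α : Ordinal.{0}) : Inv (on α) := by
  intro a
  induction α using WellFoundedLT.induction with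
  | _ α ih =>
    rw [on_eq]
    exact act_mk_of (fun k => ih _ (Ordinal.ToType.toOrd k).2) (fun _ => pre_top _)

lemma on_inj {α β : Ordinal.{0}} {p : Cond} (h : feq (on α) (on β) p) : α = β := by
  induction α using WellFoundedLT.induction generalizing β p with
  | _ α ih =>
    rcases lt_trichotomy α β with hst | hst | hst
    · exfalso
      rw [feq_def] at h
      obtain ⟨k, hk, hk'⟩ := on_idx hst
      obtain ⟨r, _, l, _, hf⟩ := h.2 p le_rfl k (by rw [hk']; trivial)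
      obtain ⟨_, γ, hγ, hγ'⟩ := on_idx' l
      rw [hk, hγ'] at hf
      exact absurd (ih γ hγ hf) hγ.ne
    · exact hst
    · exfalso
      rw [feq_def] at h
      obtain ⟨k, hk, hk'⟩ := on_idx hst
      obtain ⟨r, _, l, _, hf⟩ := h.1 p le_rfl k (by rw [hk']; trivial)
      obtain ⟨_, γ, hγ, hγ'⟩ := on_idx' l
      rw [hk, hγ'] at hf
      exact absurd (ih β hst hf) hγ.ne'

/-- an upper bound for the ordinals which can be equal to `τ` -/
noncomputable def rk : Nm → Ordinal.{0}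
  | Name.mk ι A _ => (⨆ k : ι, rk (A k)) + 1

lemma rk_def (τ : Nm) : rk τ = (⨆ k : τ.ι, rk (τ.A k)) + 1 := by
  cases τ; rfl

lemma rk_spec {τ : Nm} {α : Ordinal.{0}} (h : rk τ ≤ α) (p : Cond) : ¬ feq (on α) τ p := by
  induction τ using Name.ind generalizing α p with
  | h τ ih =>
    intro hf
    rw [rk_def] at h
    have hlt : (⨆ k : τ.ι, rk (τ.A k)) < α := lt_of_lt_of_le (by
      rw [← Order.succ_eq_add_one]; exact Order.lt_succ _) h
    obtain ⟨k, hk, hk'⟩ := on_idx hlt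
    rw [feq_def] at hf
    obtain ⟨r, _, l, _, hf'⟩ := hf.1 p le_rfl k (by rw [hk']; trivial)
    rw [hk] at hf'
    exact ih l (Ordinal.le_iSup (fun k : τ.ι => rk (τ.A k)) l) r hf'

/-! ### Pairs -/

/-- unordered pair -/
def prN (σ τ : Nm) : Nm := mk Bool (fun b => cond b σ τ) (fun _ => ⊤)

/-- ordered pair -/
def opN (σ τ : Nm) : Nm := prN (prN σ σ) (prN σ τ)

lemma act_prN (α : Cond →o Cond) (σ τ : Nm) : act α (prN σ τ) = prN (act α σ) (act α τ) := by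
  unfold prN
  rw [act_mk]
  congr 1
  funext b
  cases b <;> rfl

lemma act_opN (α : Cond →o Cond) (σ τ : Nm) : act α (opN σ τ) = opN (act α σ) (act α τ) := by
  unfold opN
  rw [act_prN, act_prN, act_prN]

lemma Eqv_prN {σ σ' τ τ' : Nm} (h₁ : Eqv σ σ') (h₂ : Eqv τ τ') : Eqv (prN σ τ) (prN σ' τ') := by
  refine ⟨fun b => ⟨b, rfl, ?_⟩, fun b => ⟨b, rfl, ?_⟩⟩ <;> cases b
  · exact h₂
  · exact h₁
  · exact h₂
  · exact h₁

lemma Eqv_opN {σ σ' τ τ' : Nm} (h₁ : Eqv σ σ') (h₂ : Eqv τ τ') : Eqv (opN σ τ) (opN σ' τ') :=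
  Eqv_prN (Eqv_prN h₁ h₁) (Eqv_prN h₁ h₂)

lemma NN_prN {σ τ : Nm} (hσ : σ ∈ NN) (hτ : τ ∈ NN) : prN σ τ ∈ NN := by
  refine ⟨?_, fun b => ?_⟩
  · obtain ⟨m, hm⟩ := NN_sym hσ
    obtain ⟨n, hn⟩ := NN_sym hτ
    refine ⟨max m n, fun b hb => ?_⟩
    show Eqv (act (fl b) (prN σ τ)) (prN σ τ)
    rw [act_prN]
    exact Eqv_prN (hm b (hb.mono (le_max_left _ _))) (hn b (hb.mono (le_max_right _ _)))
  · cases b
    · exact hτ
    · exact hσ

lemma NN_opN {σ τ : Nm} (hσ : σ ∈ NN) (hτ : τ ∈ NN) : opN σ τ ∈ NN :=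
  NN_prN (NN_prN hσ hσ) (NN_prN hσ hτ)

/-! ### Full names and orbits -/

/-- the name with members `S` (all with the largest value) -/
noncomputable def full (S : Set Nm) [Small.{0} S] : Nm :=
  mk (Shrink.{0} S) (fun x => ((equivShrink S).symm x).1) (fun _ => ⊤)

lemma full_A (S : Set Nm) [Small.{0} S] (k : (full S).ι) : (full S).A k ∈ S :=
  ((equivShrink S).symm k).2

lemma full_c (S : Set Nm) [Small.{0} S] (k : (full S).ι) : (full S).c k = ⊤ := rfl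

lemma full_idx (S : Set Nm) [Small.{0} S] {σ : Nm} (h : σ ∈ S) : ∃ k : (full S).ι,
    (full S).A k = σ := by
  refine ⟨equivShrink S ⟨σ, h⟩, ?_⟩
  show ((equivShrink S).symm (equivShrink S ⟨σ, h⟩)).1 = σ
  rw [Equiv.symm_apply_apply]

lemma Eqv_act_full {S : Set Nm} [Small.{0} S] {α : Cond →o Cond} (hα : ∀ p, α (α p) = p)
    (h : ∀ σ ∈ S, act α σ ∈ S) : Eqv (act α (full S)) (full S) := by
  rw [Eqv_def]
  constructor
  · intro k
    obtain ⟨k', h1, h2⟩ := act_idx' α (full S) k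
    obtain ⟨l, hl⟩ := full_idx S (h _ (full_A S k'))
    refine ⟨l, ?_, ?_⟩
    · rw [h2, full_c, full_c, pre_top]
    · rw [h1, hl]
      exact Eqv.refl _
  · intro l
    obtain ⟨k', hk'⟩ := full_idx S (h _ (full_A S l))
    obtain ⟨k, h1, h2⟩ := act_idx α (full S) k'
    refine ⟨k, ?_, ?_⟩
    · rw [h2, full_c, full_c, pre_top]
    · rw [h1, hk', act_act_self hα]
      exact Eqv.refl _

/-- the orbit of a set of names -/
def orb (S : Set Nm) : Set Nm := {ρ | ∃ σ ∈ S, ∃ b : Flip, ρ = act (fl b) σ}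

lemma sub_orb {S : Set Nm} {σ : Nm} (h : σ ∈ S) : σ ∈ orb S :=
  ⟨σ, h, fun _ _ _ => false, (act_id (fun p => fl_zero p) σ).symm⟩

lemma orb_fl {S : Set Nm} (c : Flip) {σ : Nm} (h : σ ∈ orb S) :
    act (fl c) σ ∈ orb S := by
  obtain ⟨ρ, hρ, b, rfl⟩ := h
  refine ⟨ρ, hρ, fun j x i => Bool.xor (b j x i) (c j x i), ?_⟩
  rw [act_act]
  exact act_congr (fun p => fl_fl b c p) ρ

lemma orb_NN {S : Set Nm} (h : S ⊆ NN) : orb S ⊆ NN := by
  rintro _ ⟨ρ, hρ, b, rfl⟩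
  exact NN_fl b (h hρ)

instance small_orb {S : Set Nm} [Small.{0} S] : Small.{0} (orb S) := by
  let F : S × Flip → Nm := fun q => act (fl q.2) q.1.1
  have hsub : orb S ⊆ range F := by
    rintro _ ⟨ρ, hρ, b, rfl⟩
    exact ⟨(⟨ρ, hρ⟩, b), rfl⟩
  exact small_subset hsub

/-- the superset name of `S` -/
noncomputable def spN (S : Set Nm) [Small.{0} S] : Nm := full (orb S)

section spN
variable {S : Set Nm} [Small.{0} S] (hS : S ⊆ NN)
include hS

omit hS in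
lemma spN_idx {σ : Nm} (h : σ ∈ orb S) : ∃ k : (spN S).ι, (spN S).A k = σ ∧ (spN S).c k = ⊤ := by
  obtain ⟨k, hk⟩ := full_idx (orb S) h
  exact ⟨k, hk, rfl⟩

lemma spN_NN : spN S ∈ NN := by
  have hO := orb_NN hS
  refine NN_of (m := 0) (fun k => hO (full_A _ k)) (fun b _ => ?_)
  exact Eqv_act_full (fun p => fl_self b p) (fun σ hσ => orb_fl b hσ)

end spN

/-! ### Subnames -/

/-- the largest lower set inside `Ψ` -/
def lo (Ψ : Cond → Prop) : LowerSet Cond :=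
  ⟨{q | ∀ r ≤ q, Ψ r}, fun _ _ hba h r hr => h r (hr.trans hba)⟩

lemma mem_lo {Ψ : Cond → Prop} (h : ∀ p q, Ψ p → q ≤ p → Ψ q) {q : Cond} : q ∈ lo Ψ ↔ Ψ q :=
  ⟨fun hq => hq q le_rfl, fun hq r hr => h q r hq hr⟩

/-- subname -/
def subN (τ : Nm) (Ψ : Nm → Cond → Prop) : Nm :=
  mk τ.ι τ.A (fun k => τ.c k ⊓ lo (Ψ (τ.A k)))

lemma mem_subN {τ : Nm} {Ψ : Nm → Cond → Prop} (mono : ∀ σ p q, Ψ σ p → q ≤ p → Ψ σ q)
    {k : τ.ι} {q : Cond} : q ∈ (subN τ Ψ).c k ↔ q ∈ τ.c k ∧ Ψ (τ.A k) q := by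
  show q ∈ τ.c k ⊓ lo (Ψ (τ.A k)) ↔ _
  rw [LowerSet.mem_inf_iff, mem_lo (mono _)]

lemma subN_NN {τ : Nm} (hτ : τ ∈ NN) {Ψ : Nm → Cond → Prop}
    (mono : ∀ σ p q, Ψ σ p → q ≤ p → Ψ σ q)
    {m : ℕ} (hE : ∀ b, Gm m b → ∀ σ σ', Eqv (act (fl b) σ) σ' → ∀ q, Ψ σ (fl b q) → Ψ σ' q) :
    subN τ Ψ ∈ NN := by
  obtain ⟨n, hn⟩ := NN_sym hτ
  refine NN_of (m := max m n) (fun k => NN_mem hτ k) (fun b hb => ?_)
  have h1 := (Eqv_def _ _).1 (hn b (hb.mono (le_max_right _ _)))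
  have hbm := hb.mono (le_max_left m n)
  have hc : ∀ k l : τ.ι, pre (fl b) (τ.c k) = τ.c l → Eqv (act (fl b) (τ.A k)) (τ.A l) →
      pre (fl b) ((subN τ Ψ).c k) = (subN τ Ψ).c l := by
    intro k l h2 h3
    ext q
    show q ∈ pre (fl b) ((subN τ Ψ).c k) ↔ q ∈ (subN τ Ψ).c l
    rw [mem_pre, mem_subN mono, mem_subN mono, ← mem_pre, h2]
    refine and_congr_right fun _ => ⟨fun h => hE b hbm _ _ h3 q h, fun h => ?_⟩
    have h4 : Eqv (act (fl b) (τ.A l)) (τ.A k) := by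
      have h5 := h3.act (fl b)
      rw [act_act_self (fl_self b)] at h5
      exact h5.symm
    refine hE b hbm _ _ h4 _ ?_
    rwa [fl_self]
  rw [Eqv_def]
  constructor
  · intro k
    obtain ⟨k₀, h2, h3⟩ := act_idx' (fl b) (subN τ Ψ) k
    obtain ⟨k₁, h4, h5⟩ := act_idx (fl b) τ k₀
    obtain ⟨l, h6, h7⟩ := h1.1 k₁
    refine ⟨l, ?_, ?_⟩
    · rw [h3]
      exact hc k₀ l (by rw [← h5, h6]) (by rw [← h4]; exact h7)
    · rw [h2]
      show Eqv (act (fl b) (τ.A k₀)) (τ.A l)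
      rw [← h4]
      exact h7
  · intro l
    obtain ⟨k₁, h6, h7⟩ := h1.2 l
    obtain ⟨k₀, h4, h5⟩ := act_idx' (fl b) τ k₁
    obtain ⟨k, h2, h3⟩ := act_idx (fl b) (subN τ Ψ) k₀
    refine ⟨k, ?_, ?_⟩
    · rw [h3]
      exact hc k₀ l (by rw [← h5, h6]) (by rw [← h4]; exact h7)
    · rw [h2]
      show Eqv (act (fl b) (τ.A k₀)) (τ.A l)
      rw [← h4]
      exact h7

end Pool.MP_598ba0_lc
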