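import Mathlib
import Pool.Agent.Lib.MP_598ba0_lc.Gen
import Pool.Agent.Lib.MP_598ba0_lc.Name

/-!
# MP_598ba0_lc: evaluation of names in a generic hull, truth lemma
-/

namespace Pool.MP_598ba0_lc

open Set

/-! ### Tasks with a fixed number of parameters -/

section
variable {N : Type 1} {P : Type} [Preorder P]

/-- A task with `n` parameters and one answer. -/
def TF (n : ℕ) (R : (Fin n → N) → P → N → Prop) : Task N P := fun l q l' =>
  ∃ v : Fin n → N, l = List.ofFn v ∧ ∃ ρ, l' = [ρ] ∧ R v q ρ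

/-- A task with `n` parameters and two answers. -/
def TG (n : ℕ) (R : (Fin n → N) → P → N → N → Prop) : Task N P := fun l q l' =>
  ∃ v : Fin n → N, l = List.ofFn v ∧ ∃ ρ ρ', l' = [ρ, ρ'] ∧ R v q ρ ρ'

lemma meets_TF {U : Set N} {H : Set P} {n : ℕ} {R : (Fin n → N) → P → N → Prop}
    (h : Meets U H (TF n R)) (v : Fin n → N) (hv : ∀ i, v i ∈ U) :
    (∃ q ∈ H, ∃ ρ ∈ U, R v q ρ) ∨ (∃ p ∈ H, ∀ q ≤ p, ∀ ρ, ¬ R v q ρ) := by
  have hl : ∀ x ∈ List.ofFn v, x ∈ U := by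
    intro x hx
    rw [List.mem_ofFn] at hx
    obtain ⟨i, rfl⟩ := hx
    exact hv i
  rcases h (List.ofFn v) hl with ⟨q, hq, l', hl', v', hv', ρ, rfl, hR⟩ | ⟨p, hp, hn⟩
  · obtain rfl := List.ofFn_injective hv'
    exact Or.inl ⟨q, hq, ρ, hl' ρ (by simp), hR⟩
  · exact Or.inr ⟨p, hp, fun q hq ρ hR => hn q hq [ρ] ⟨v, rfl, ρ, rfl, hR⟩⟩

lemma meets_TG {U : Set N} {H : Set P} {n : ℕ} {R : (Fin n → N) → P → N → N → Prop}
    (h : Meets U H (TG n R)) (v : Fin n → N) (hv : ∀ i, v i ∈ U) :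
    (∃ q ∈ H, ∃ ρ ∈ U, ∃ ρ' ∈ U, R v q ρ ρ') ∨ (∃ p ∈ H, ∀ q ≤ p, ∀ ρ ρ', ¬ R v q ρ ρ') := by
  have hl : ∀ x ∈ List.ofFn v, x ∈ U := by
    intro x hx
    rw [List.mem_ofFn] at hx
    obtain ⟨i, rfl⟩ := hx
    exact hv i
  rcases h (List.ofFn v) hl with ⟨q, hq, l', hl', v', hv', ρ, ρ', rfl, hR⟩ | ⟨p, hp, hn⟩
  · obtain rfl := List.ofFn_injective hv'
    exact Or.inl ⟨q, hq, ρ, hl' ρ (by simp), ρ', hl' ρ' (by simp), hR⟩
  · exact Or.inr ⟨p, hp, fun q hq ρ ρ' hR => hn q hq [ρ, ρ'] ⟨v, rfl, ρ, ρ', rfl, hR⟩⟩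

lemma IsFilt.dir3 {H : Set P} (h : IsFilt H) {a b c : P} (ha : a ∈ H) (hb : b ∈ H) (hc : c ∈ H) :
    ∃ r ∈ H, r ≤ a ∧ r ≤ b ∧ r ≤ c := by
  obtain ⟨r, hr, h1, h2⟩ := h.dir a ha b hb
  obtain ⟨s, hs, h3, h4⟩ := h.dir r hr c hc
  exact ⟨s, hs, h3.trans h1, h3.trans h2, h4⟩

end

namespace Fml

/-- Gödel numbers. -/
def code : {n : ℕ} → Fml n → ℕ
  | _, .bot => Nat.pair 0 0
  | _, .eq i j => Nat.pair 1 (Nat.pair i j)
  | _, .mem i j => Nat.pair 2 (Nat.pair i j)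
  | _, .imp φ ψ => Nat.pair 3 (Nat.pair φ.code ψ.code)
  | _, .all φ => Nat.pair 4 φ.code

lemma code_inj {n : ℕ} {φ ψ : Fml n} (h : φ.code = ψ.code) : φ = ψ := by
  induction φ with
  | bot => cases ψ <;> simp [code, Nat.pair_eq_pair] at h ⊢
  | eq i j =>
    cases ψ <;> simp [code, Nat.pair_eq_pair] at h ⊢
    exact ⟨Fin.ext h.1, Fin.ext h.2⟩
  | mem i j =>
    cases ψ <;> simp [code, Nat.pair_eq_pair] at h ⊢
    exact ⟨Fin.ext h.1, Fin.ext h.2⟩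
  | imp φ₁ φ₂ ih₁ ih₂ =>
    cases ψ <;> simp [code, Nat.pair_eq_pair] at h ⊢
    exact ⟨ih₁ h.1, ih₂ h.2⟩
  | all φ ih =>
    cases ψ <;> simp [code, Nat.pair_eq_pair] at h ⊢
    exact ih h

instance (n : ℕ) : Countable (Fml n) :=
  Function.Injective.countable (f := code) fun _ _ h => code_inj h

end Fml

namespace Name

variable {P : Type} [Preorder P]

/-- Evaluation of names in `(U, H)`. -/
noncomputable def val (U : Set (Name P)) (H : Set P) : Name P → ZFSet.{0}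
  | mk ι A c => ZFSet.range (fun k : {k : ι // A k ∈ U ∧ ∃ q ∈ H, q ∈ c k} => val U H (A k.1))

lemma mem_val {U : Set (Name P)} {H : Set P} {τ : Name P} {x : ZFSet.{0}} :
    x ∈ val U H τ ↔ ∃ k : τ.ι, τ.A k ∈ U ∧ (∃ q ∈ H, q ∈ τ.c k) ∧ x = val U H (τ.A k) := by
  cases τ with
  | mk ι A c =>
    rw [val, ZFSet.mem_range]
    constructor
    · rintro ⟨⟨k, h1, h2⟩, rfl⟩
      exact ⟨k, h1, h2, rfl⟩
    · rintro ⟨k, h1, h2, rfl⟩
      exact ⟨⟨k, h1, h2⟩, rfl⟩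

/-- task for membership -/
def memT : Task (Name P) P := TF 2 fun v q ρ =>
  ∃ k : (v 1).ι, ρ = (v 1).A k ∧ q ∈ (v 1).c k ∧ feq (v 0) ρ q

/-- task for inequality -/
def neqT : Task (Name P) P := TF 2 fun v q ρ =>
  ∃ k : (v 0).ι, ρ = (v 0).A k ∧ q ∈ (v 0).c k ∧
    ∀ r ≤ q, ∀ l : (v 1).ι, r ∈ (v 1).c l → ¬ feq ρ ((v 1).A l) r

/-- task deciding a formula -/
def decT (N : Set (Name P)) {n : ℕ} (φ : Fml n) : Task (Name P) P :=
  TF n fun v q _ => Fc N φ v q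

/-- task for counterexamples to `∀` -/
def allT (N : Set (Name P)) {n : ℕ} (φ : Fml (n + 1)) : Task (Name P) P :=
  TF n fun v q ρ => ρ ∈ N ∧ ∀ r ≤ q, ¬ Fc N φ (Fin.cons ρ v) r

/-- atomic tasks are met -/
structure Atomic (U : Set (Name P)) (H : Set P) : Prop where
  filt : IsFilt H
  mem : Meets U H memT
  neq : Meets U H neqT

lemma forall2 {U : Set (Name P)} {σ τ : Name P} (hσ : σ ∈ U) (hτ : τ ∈ U) :
    ∀ i, (![σ, τ] : Fin 2 → Name P) i ∈ U := by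
  intro i
  fin_cases i
  · exact hσ
  · exact hτ

section
variable {U : Set (Name P)} {H : Set P} (hU : Atomic U H)
include hU

theorem val_eq_iff {σ τ : Name P} (hσ : σ ∈ U) (hτ : τ ∈ U) :
    val U H σ = val U H τ ↔ ∃ p ∈ H, feq σ τ p := by
  induction σ using ind generalizing τ with
  | h σ ih =>
    constructor
    · intro he
      rcases meets_TF hU.neq ![σ, τ] (forall2 hσ hτ) with
        ⟨q, hq, ρ, hρ, k, rfl, hk, hno⟩ | ⟨p₁, hp₁, hn₁⟩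
      · exfalso
        have h1 : val U H (σ.A k) ∈ val U H σ := mem_val.2 ⟨k, hρ, ⟨q, hq, hk⟩, rfl⟩
        rw [he] at h1
        obtain ⟨l, hl, ⟨q', hq', hc⟩, e⟩ := mem_val.1 h1
        obtain ⟨p', hp', hf⟩ := (ih k hρ hl).1 e
        obtain ⟨r, _, h2, h3, h4⟩ := hU.filt.dir3 hq hq' hp'
        exact hno r h2 l ((τ.c l).lower h3 hc) (feq_mono hf h4)
      · rcases meets_TF hU.neq ![τ, σ] (forall2 hτ hσ) with
          ⟨q, hq, ρ, hρ, k, rfl, hk, hno⟩ | ⟨p₂, hp₂, hn₂⟩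
        · exfalso
          have h1 : val U H (τ.A k) ∈ val U H τ := mem_val.2 ⟨k, hρ, ⟨q, hq, hk⟩, rfl⟩
          rw [← he] at h1
          obtain ⟨l, hl, ⟨q', hq', hc⟩, e⟩ := mem_val.1 h1
          obtain ⟨p', hp', hf⟩ := (ih l hl hρ).1 e.symm
          obtain ⟨r, _, h2, h3, h4⟩ := hU.filt.dir3 hq hq' hp'
          exact hno r h2 l ((σ.c l).lower h3 hc) (feq_symm (feq_mono hf h4))
        · obtain ⟨p, hp, h1, h2⟩ := hU.filt.dir p₁ hp₁ p₂ hp₂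
          refine ⟨p, hp, (feq_def _ _ _).2 ⟨fun q hq k hk => ?_, fun q hq l hl => ?_⟩⟩
          · by_contra hcon
            refine hn₁ q (hq.trans h1) (σ.A k) ⟨k, rfl, hk, fun r hr l hl hf => hcon ?_⟩
            exact ⟨r, hr, l, hl, hf⟩
          · by_contra hcon
            refine hn₂ q (hq.trans h2) (τ.A l) ⟨l, rfl, hl, fun r hr k hk hf => hcon ?_⟩
            exact ⟨r, hr, k, hk, feq_symm hf⟩
    · rintro ⟨p, hp, hf⟩
      rw [feq_def] at hf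
      ext x
      constructor
      · intro hx
        obtain ⟨k, hkU, ⟨q, hq, hk⟩, rfl⟩ := mem_val.1 hx
        rcases meets_TF hU.mem ![σ.A k, τ] (forall2 hkU hτ) with
          ⟨q', hq', ρ, hρ, l, rfl, hl, hf'⟩ | ⟨p', hp', hn⟩
        · exact mem_val.2 ⟨l, hρ, ⟨q', hq', hl⟩, (ih k hkU hρ).2 ⟨q', hq', hf'⟩⟩
        · exfalso
          obtain ⟨r, _, h2, h3, h4⟩ := hU.filt.dir3 hp hq hp'
          obtain ⟨s, hs, l, hl, he⟩ := hf.1 r h2 k ((σ.c k).lower h3 hk)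
          exact hn s (hs.trans h4) (τ.A l) ⟨l, rfl, hl, he⟩
      · intro hx
        obtain ⟨l, hlU, ⟨q, hq, hl⟩, rfl⟩ := mem_val.1 hx
        rcases meets_TF hU.mem ![τ.A l, σ] (forall2 hlU hσ) with
          ⟨q', hq', ρ, hρ, k, rfl, hk, hf'⟩ | ⟨p', hp', hn⟩
        · exact mem_val.2 ⟨k, hρ, ⟨q', hq', hk⟩,
            ((ih k hρ hlU).2 ⟨q', hq', feq_symm hf'⟩).symm⟩
        · exfalso
          obtain ⟨r, _, h2, h3, h4⟩ := hU.filt.dir3 hp hq hp'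
          obtain ⟨s, hs, k, hk, he⟩ := hf.2 r h2 l ((τ.c l).lower h3 hl)
          exact hn s (hs.trans h4) (σ.A k) ⟨k, rfl, hk, feq_symm he⟩

theorem val_mem_iff {σ τ : Name P} (hσ : σ ∈ U) (hτ : τ ∈ U) :
    val U H σ ∈ val U H τ ↔ ∃ p ∈ H, fmem σ τ p := by
  constructor
  · intro h
    obtain ⟨k, hk, ⟨q, hq, hc⟩, e⟩ := mem_val.1 h
    obtain ⟨p, hp, hf⟩ := (val_eq_iff hU hσ hk).1 e
    obtain ⟨r, hr, h1, h2⟩ := hU.filt.dir q hq p hp
    exact ⟨r, hr, fun s hs => ⟨s, le_rfl, k, (τ.c k).lower (hs.trans h1) hc,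
      feq_mono hf (hs.trans h2)⟩⟩
  · rintro ⟨p, hp, hf⟩
    rcases meets_TF hU.mem ![σ, τ] (forall2 hσ hτ) with
      ⟨q', hq', ρ, hρ, l, rfl, hl, hf'⟩ | ⟨p', hp', hn⟩
    · exact mem_val.2 ⟨l, hρ, ⟨q', hq', hl⟩, (val_eq_iff hU hσ hρ).2 ⟨q', hq', hf'⟩⟩
    · exfalso
      obtain ⟨r, _, h1, h2⟩ := hU.filt.dir p hp p' hp'
      obtain ⟨s, hs, l, hl, he⟩ := hf r h1
      exact hn s (hs.trans h2) (τ.A l) ⟨l, rfl, hl, he⟩

end

/-- The model of all values of names in `N` (and `U`). -/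
def Mod (U : Set (Name P)) (H : Set P) (N : Set (Name P)) : Set ZFSet.{0} :=
  {x | ∃ σ ∈ N, σ ∈ U ∧ x = val U H σ}

/-- all tasks about the forcing relation of the class `N` are met -/
structure Full (U : Set (Name P)) (H : Set P) (N : Set (Name P)) : Prop where
  at' : Atomic U H
  dec : ∀ {n : ℕ} (φ : Fml n), Meets U H (decT N φ)
  all : ∀ {n : ℕ} (φ : Fml (n + 1)), Meets U H (allT N φ)

theorem truth {U : Set (Name P)} {H : Set P} {N : Set (Name P)} (hU : Full U H N) {n : ℕ}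
    (φ : Fml n) (v : Fin n → Name P) (hv : ∀ i, v i ∈ U) :
    Sat (Mod U H N) φ (fun i => val U H (v i)) ↔ ∃ p ∈ H, Fc N φ v p := by
  have hne : Nonempty (Name P) := ⟨mk Empty Empty.elim Empty.elim⟩
  induction φ with
  | bot => simp [Sat, Fc]
  | eq i j => exact val_eq_iff hU.at' (hv i) (hv j)
  | mem i j => exact val_mem_iff hU.at' (hv i) (hv j)
  | imp φ ψ ih₁ ih₂ =>
    constructor
    · intro h
      rcases meets_TF (hU.dec ψ) v hv with ⟨q, hq, ρ, hρ, h1⟩ | ⟨p, hp, h1⟩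
      · exact ⟨q, hq, fun r hr _ => Fc_mono h1 hr⟩
      · rcases meets_TF (hU.dec φ) v hv with ⟨q, hq, ρ, hρ, h2⟩ | ⟨p', hp', h2⟩
        · exfalso
          have h3 : Sat (Mod U H N) ψ (fun i => val U H (v i)) :=
            h ((ih₁ v hv).2 ⟨q, hq, h2⟩)
          obtain ⟨q', hq', h4⟩ := (ih₂ v hv).1 h3
          obtain ⟨r, _, h5, h6⟩ := hU.at'.filt.dir p hp q' hq'
          exact h1 r h5 hne.some (Fc_mono h4 h6)
        · exact ⟨p', hp', fun r hr h3 => absurd h3 (h2 r hr hne.some)⟩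
    · rintro ⟨p, hp, h⟩ h1
      obtain ⟨q, hq, h2⟩ := (ih₁ v hv).1 h1
      obtain ⟨r, hr, h3, h4⟩ := hU.at'.filt.dir p hp q hq
      exact (ih₂ v hv).2 ⟨r, hr, h r h3 (Fc_mono h2 h4)⟩
  | all φ ih =>
    have key : ∀ σ : Name P, (fun i => val U H ((Fin.cons σ v : Fin _ → Name P) i)) =
        (Fin.cons (val U H σ) (fun i => val U H (v i)) : Fin _ → ZFSet.{0}) := by
      intro σ
      funext i
      refine Fin.cases ?_ (fun i => ?_) i <;> rfl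
    have hcons : ∀ σ ∈ U, ∀ i, (Fin.cons σ v : Fin _ → Name P) i ∈ U := by
      intro σ hσ i
      refine Fin.cases ?_ (fun i => ?_) i
      · exact hσ
      · exact hv i
    constructor
    · intro h
      rcases meets_TF (hU.all φ) v hv with ⟨q, hq, ρ, hρ, h1, h2⟩ | ⟨p, hp, h1⟩
      · exfalso
        have h3 := h (val U H ρ) ⟨ρ, h1, hρ, rfl⟩
        rw [← key] at h3
        obtain ⟨q', hq', h4⟩ := (ih _ (hcons ρ hρ)).1 h3
        obtain ⟨r, _, h5, h6⟩ := hU.at'.filt.dir q hq q' hq'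
        exact h2 r h5 (Fc_mono h4 h6)
      · refine ⟨p, hp, fun σ hσ => Fc_reg fun q hq => ?_⟩
        by_contra hcon
        push Not at hcon
        exact h1 q hq σ ⟨hσ, hcon⟩
    · rintro ⟨p, hp, h⟩ x ⟨σ, hσ, hσU, rfl⟩
      rw [← key]
      exact (ih _ (hcons σ hσU)).2 ⟨p, hp, h σ hσ⟩

end Name

end Pool.MP_598ba0_lc
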