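import Mathlib
import Pool.Agent.Lib.MP_598ba0_lc.ZF

/-!
# MP_598ba0_lc: the model satisfies ZF; the ordinals of the model
-/

namespace Pool.MP_598ba0_lc

open Set

namespace Fml

/-- negation -/
def neg {n : ℕ} (φ : Fml n) : Fml n := imp φ bot
/-- conjunction -/
def conj {n : ℕ} (φ ψ : Fml n) : Fml n := neg (imp φ (neg ψ))
/-- existential quantifier -/
def ex {n : ℕ} (φ : Fml (n + 1)) : Fml n := neg (all (neg φ))

/-- renaming of free variables -/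
def rename : {n : ℕ} → Fml n → {m : ℕ} → (Fin n → Fin m) → Fml m
  | _, .bot, _, _ => bot
  | _, .eq i j, _, f => eq (f i) (f j)
  | _, .mem i j, _, f => mem (f i) (f j)
  | _, .imp φ ψ, _, f => imp (φ.rename f) (ψ.rename f)
  | _, .all φ, _, f => all (φ.rename (Fin.cons 0 (fun j => (f j).succ)))

end Fml

variable {E : Set ZFSet.{0}}

lemma Sat_neg {n : ℕ} {φ : Fml n} {v : Fin n → ZFSet.{0}} : Sat E φ.neg v ↔ ¬ Sat E φ v := Iff.rfl

lemma Sat_conj {n : ℕ} {φ ψ : Fml n} {v : Fin n → ZFSet.{0}} :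
    Sat E (φ.conj ψ) v ↔ Sat E φ v ∧ Sat E ψ v := by
  show ¬ (Sat E φ v → ¬ Sat E ψ v) ↔ _
  push Not
  rfl

lemma Sat_ex {n : ℕ} {φ : Fml (n + 1)} {v : Fin n → ZFSet.{0}} :
    Sat E φ.ex v ↔ ∃ x ∈ E, Sat E φ (Fin.cons x v) := by
  show ¬ (∀ x ∈ E, ¬ Sat E φ (Fin.cons x v)) ↔ _
  push Not
  rfl

lemma Sat_rename {n m : ℕ} {φ : Fml n} {f : Fin n → Fin m} {v : Fin m → ZFSet.{0}} :
    Sat E (φ.rename f) v ↔ Sat E φ (fun j => v (f j)) := by
  induction φ generalizing m with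
  | bot => exact Iff.rfl
  | eq i j => exact Iff.rfl
  | mem i j => exact Iff.rfl
  | imp φ ψ ih₁ ih₂ => exact imp_congr ih₁ ih₂
  | all φ ih =>
    refine forall₂_congr fun x _ => ?_
    rw [ih]
    have : (fun j => (Fin.cons x v : Fin (m + 1) → ZFSet.{0})
        ((Fin.cons 0 (fun j => (f j).succ) : Fin _ → Fin (m + 1)) j)) =
        (Fin.cons x (fun j => v (f j)) : Fin _ → ZFSet.{0}) := by
      funext j
      refine Fin.cases ?_ (fun j => ?_) j <;> rfl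
    rw [this]

/-- A transitive class with first-order Separation, Collection, and closure properties is a
model of ZF. -/
theorem zf_of (htr : ∀ x ∈ E, ∀ y ∈ x, y ∈ E)
    (hsep : ∀ (n : ℕ) (φ : Fml (n + 1)) (v : Fin n → ZFSet.{0}), (∀ i, v i ∈ E) →
      ∀ a ∈ E, ∃ b ∈ E, ∀ x, x ∈ b ↔ x ∈ a ∧ Sat E φ (Fin.cons x v))
    (hcol : ∀ (n : ℕ) (φ : Fml (n + 2)) (v : Fin n → ZFSet.{0}), (∀ i, v i ∈ E) →
      ∀ a ∈ E, ∃ b ∈ E, ∀ x ∈ a, (∃ y ∈ E, Sat E φ (Fin.cons x (Fin.cons y v))) →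
        ∃ y ∈ b, Sat E φ (Fin.cons x (Fin.cons y v)))
    (hpair : ∀ x ∈ E, ∀ y ∈ E, ({x, y} : ZFSet.{0}) ∈ E)
    (hun : ∀ x ∈ E, ∃ b ∈ E, ∀ y ∈ x, ∀ z ∈ y, z ∈ b)
    (hpow : ∀ x ∈ E, ∃ b ∈ E, ∀ z ∈ E, z ⊆ x → z ∈ b)
    (hinf : ∃ x ∈ E, ∅ ∈ x ∧ ∀ y ∈ x, insert y y ∈ x) : ZFModel E where
  nonempty := hinf.imp fun _ h => h.1
  extensionality x hx y hy h := by
    ext z
    constructor
    · intro hz
      exact (h z (htr x hx z hz)).1 hz
    · intro hz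
      exact (h z (htr y hy z hz)).2 hz
  foundation x hx h := by
    obtain ⟨y, hy, hyx⟩ := h
    have hne : x ≠ ∅ := by
      rintro rfl
      exact ZFSet.notMem_empty y hyx
    obtain ⟨z, hz, hzx⟩ := ZFSet.regularity x hne
    refine ⟨z, htr x hx z hz, hz, fun w _ hw hwx => ?_⟩
    have : w ∈ x ∩ z := ZFSet.mem_inter.2 ⟨hwx, hw⟩
    rw [hzx] at this
    exact ZFSet.notMem_empty w this
  pairing x hx y hy := ⟨{x, y}, hpair x hx y hy, fun w _ => ZFSet.mem_pair⟩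
  union x hx := by
    obtain ⟨b, hb, h⟩ := hun x hx
    obtain ⟨u, hu, h'⟩ := hsep 1 (Fml.ex ((Fml.mem 0 2).conj (Fml.mem 1 0))) ![x]
      (fun i => by fin_cases i; exact hx) b hb
    refine ⟨u, hu, fun z hz => ?_⟩
    rw [h' z, Sat_ex]
    constructor
    · rintro ⟨_, y, hy, hs⟩
      have := Sat_conj.1 hs
      exact ⟨y, hy, this.1, this.2⟩
    · rintro ⟨y, hy, h1, h2⟩
      exact ⟨h y h1 z h2, y, hy, Sat_conj.2 ⟨h1, h2⟩⟩
  power x hx := by
    obtain ⟨b, hb, h⟩ := hpow x hx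
    obtain ⟨u, hu, h'⟩ := hsep 1 (Fml.all ((Fml.mem 0 1).imp (Fml.mem 0 2))) ![x]
      (fun i => by fin_cases i; exact hx) b hb
    refine ⟨u, hu, fun z hz => ?_⟩
    rw [h' z]
    constructor
    · rintro ⟨_, hs⟩ w hw hwz
      exact hs w hw hwz
    · intro hs
      exact ⟨h z hz (fun w hw => hs w (htr z hz w hw) hw), fun w hw hwz => hs w hw hwz⟩
  infinity := by
    obtain ⟨x, hx, h1, h2⟩ := hinf
    refine ⟨x, hx, ⟨∅, htr x hx _ h1, h1, fun z _ => ZFSet.notMem_empty z⟩, fun y _ hyx => ?_⟩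
    refine ⟨insert y y, htr x hx _ (h2 y hyx), h2 y hyx, fun w _ => ?_⟩
    rw [ZFSet.mem_insert_iff]
    exact or_comm
  separation n φ v hv a ha := by
    obtain ⟨b, hb, h⟩ := hsep n φ v hv a ha
    exact ⟨b, hb, fun x _ => h x⟩
  replacement n φ v hv a ha hfun := by
    obtain ⟨b, hb, h⟩ := hcol n φ v hv a ha
    let f : Fin (n + 2) → Fin (n + 3) := Fin.cons 0 (Fin.cons 1 (fun j => j.succ.succ.succ))
    obtain ⟨u, hu, h'⟩ := hsep (n + 1) (Fml.ex ((Fml.mem 0 2).conj (φ.rename f)))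
      (Fin.cons a v) (fun i => by
        refine Fin.cases ?_ (fun i => ?_) i
        · exact ha
        · exact hv i) b hb
    have key : ∀ x y, (fun j => (Fin.cons x (Fin.cons y (Fin.cons a v)) : Fin (n + 3) → ZFSet.{0})
        (f j)) = (Fin.cons x (Fin.cons y v) : Fin (n + 2) → ZFSet.{0}) := by
      intro x y
      funext j
      refine Fin.cases ?_ (fun j => ?_) j
      · rfl
      · refine Fin.cases ?_ (fun j => ?_) j
        · rfl
        · rfl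
    have hmem : ∀ x y, Sat E (Fml.mem 0 2)
        (Fin.cons x (Fin.cons y (Fin.cons a v)) : Fin (n + 3) → ZFSet.{0}) ↔ x ∈ a :=
      fun x y => Iff.rfl
    refine ⟨u, hu, fun y hy => ?_⟩
    rw [h' y, Sat_ex]
    constructor
    · rintro ⟨_, x, hx, hs⟩
      have h1 := Sat_conj.1 hs
      rw [hmem, Sat_rename, key] at h1
      exact ⟨x, hx, h1.1, h1.2⟩
    · rintro ⟨x, hx, hxa, hs⟩
      refine ⟨?_, x, hx, ?_⟩
      · obtain ⟨y', hy', hs'⟩ := h x hxa ⟨y, hy, hs⟩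
        have := (hfun x hx hxa).unique ⟨hy, hs⟩ ⟨htr b hb y' hy', hs'⟩
        rw [this]
        exact hy'
      · refine Sat_conj.2 ?_
        rw [hmem, Sat_rename, key]
        exact ⟨hxa, hs⟩

open Name Cond

/-! ### General tasks -/

/-- A task with `n` parameters and a list of answers. -/
def TL (n : ℕ) (R : (Fin n → Nm) → Cond → List Nm → Prop) : Task Nm Cond := fun l q l' =>
  ∃ v : Fin n → Nm, l = List.ofFn v ∧ R v q l'

lemma meets_TL {U : Set Nm} {H : Set Cond} {n : ℕ} {R : (Fin n → Nm) → Cond → List Nm → Prop}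
    (h : Meets U H (TL n R)) (v : Fin n → Nm) (hv : ∀ i, v i ∈ U) :
    (∃ q ∈ H, ∃ l, (∀ x ∈ l, x ∈ U) ∧ R v q l) ∨ (∃ p ∈ H, ∀ q ≤ p, ∀ l, ¬ R v q l) := by
  have hl : ∀ x ∈ List.ofFn v, x ∈ U := by
    intro x hx
    rw [List.mem_ofFn] at hx
    obtain ⟨i, rfl⟩ := hx
    exact hv i
  rcases h (List.ofFn v) hl with ⟨q, hq, l', hl', v', hv', hR⟩ | ⟨p, hp, hn⟩
  · obtain rfl := List.ofFn_injective hv'
    exact Or.inl ⟨q, hq, l', hl', hR⟩
  · exact Or.inr ⟨p, hp, fun q hq l hR => hn q hq l ⟨v, rfl, hR⟩⟩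

/-- a constant name is in `U` -/
def seedT (σ : Nm) : Task Nm Cond := TF 0 fun _ _ ρ => ρ = σ

lemma seed_U {U : Set Nm} {H : Set Cond} {σ : Nm} (h : Meets U H (seedT σ)) : σ ∈ U :=
  closed_of (F := fun _ => σ) h (v := Fin.elim0) (fun j => j.elim0)

/-- bounds for ordinals -/
def rkT : Task Nm Cond := TF 1 fun v _ ρ => ρ = on (rk (v 0))

/-- components of pairs -/
def unprT : Task Nm Cond := TL 1 fun v _ l => ∃ σ τ, v 0 = prN σ τ ∧ l = [σ, τ]

/-- The basic tasks. -/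
structure Good0 (U : Set Nm) (H : Set Cond) : Prop where
  full : Full U H NN
  sep : ∀ {n : ℕ} (φ : Fml (n + 1)), Meets U H (sepT φ)
  col : ∀ {n : ℕ} (φ : Fml (n + 2)), Meets U H (colT φ)
  cw : ∀ {n : ℕ} (φ : Fml (n + 2)), Meets U H (cwT φ)
  uni : Meets U H uniT
  pr : Meets U H prT
  pow : Meets U H powT
  cap : Meets U H capT
  rk : Meets U H rkT
  unpr : Meets U H unprT
  om : Meets U H (seedT (on Ordinal.omega0))
  nat : ∀ n : ℕ, Meets U H (seedT (on n))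

section
variable {U : Set Nm} {H : Set Cond}

lemma mem_val_on (hH : H.Nonempty) {α : Ordinal.{0}} {x : ZFSet.{0}} :
    x ∈ val U H (on α) ↔ ∃ β < α, on β ∈ U ∧ x = val U H (on β) := by
  rw [mem_val]
  constructor
  · rintro ⟨k, h1, _, rfl⟩
    obtain ⟨_, β, hβ, h⟩ := on_idx' k
    rw [h] at h1 ⊢
    exact ⟨β, hβ, h1, rfl⟩
  · rintro ⟨β, hβ, h1, rfl⟩
    obtain ⟨k, hk, hk'⟩ := on_idx hβ
    obtain ⟨q, hq⟩ := hH
    exact ⟨k, hk ▸ h1, ⟨q, hq, by rw [hk']; trivial⟩, by rw [hk]⟩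

lemma val_on_inj (hU : Atomic U H) {α β : Ordinal.{0}} (hα : on α ∈ U) (hβ : on β ∈ U) :
    val U H (on α) = val U H (on β) ↔ α = β := by
  refine ⟨fun h => ?_, fun h => by rw [h]⟩
  obtain ⟨p, _, hp⟩ := (val_eq_iff hU hα hβ).1 h
  exact on_inj hp

lemma val_on_mem (hU : Atomic U H) {α β : Ordinal.{0}} (hα : on α ∈ U) :
    val U H (on α) ∈ val U H (on β) ↔ α < β := by
  rw [mem_val_on hU.filt.ne]
  constructor
  · rintro ⟨γ, h1, h2, h3⟩
    rw [val_on_inj hU hα h2] at h3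
    rwa [h3]
  · intro h
    exact ⟨α, h, hα, rfl⟩

lemma isTransitive_val_on (hH : H.Nonempty) (α : Ordinal.{0}) :
    (val U H (on α)).IsTransitive := by
  intro y hy z hz
  obtain ⟨β, hβ, hβU, rfl⟩ := (mem_val_on hH).1 hy
  obtain ⟨γ, hγ, hγU, rfl⟩ := (mem_val_on hH).1 hz
  exact (mem_val_on hH).2 ⟨γ, hγ.trans hβ, hγU, rfl⟩

lemma isOrdinal_val_on (hH : H.Nonempty) (α : Ordinal.{0}) : (val U H (on α)).IsOrdinal := by
  refine ⟨isTransitive_val_on hH α, fun {y z w} hyz hzw hw => ?_⟩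
  obtain ⟨β, hβ, hβU, rfl⟩ := (mem_val_on hH).1 hw
  exact isTransitive_val_on hH β z hzw hyz

lemma ord_eq (hU : Atomic U H) (hrk : Meets U H rkT) {x : ZFSet.{0}} (hx : x ∈ Mod U H NN)
    (ho : x.IsOrdinal) : ∃ α, on α ∈ U ∧ x = val U H (on α) := by
  obtain ⟨σ, _, hσ, rfl⟩ := hx
  have h1 : on (rk σ) ∈ U := closed_of (F := fun v => on (rk (v 0))) hrk (v := fun _ => σ)
    (fun _ => hσ)
  rcases ho.mem_trichotomous (isOrdinal_val_on hU.filt.ne (rk σ)) with h | h | h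
  · obtain ⟨β, _, h2, h3⟩ := (mem_val_on hU.filt.ne).1 h
    exact ⟨β, h2, h3⟩
  · exact ⟨rk σ, h1, h⟩
  · exfalso
    obtain ⟨k, hk, _, he⟩ := mem_val.1 h
    obtain ⟨p, _, hp⟩ := (val_eq_iff hU h1 hk).1 he
    refine rk_spec (α := rk σ) (τ := σ.A k) ?_ p hp
    rw [rk_def σ]
    exact (Ordinal.le_iSup (fun k : σ.ι => rk (σ.A k)) k).trans (Order.le_succ _)

lemma on_Mod {α : Ordinal.{0}} (h : on α ∈ U) : val U H (on α) ∈ Mod U H NN :=
  ⟨on α, (on_Inv α).NN, h, rfl⟩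

lemma prN_inj {σ τ σ' τ' : Nm} (h : prN σ τ = prN σ' τ') : σ = σ' ∧ τ = τ' := by
  unfold prN at h
  injection h with _ h1 _
  exact ⟨congrFun h1 true, congrFun h1 false⟩

lemma unpr_U (h : Meets U H unprT) {σ τ : Nm} (hU : prN σ τ ∈ U) : σ ∈ U ∧ τ ∈ U := by
  rcases meets_TL h (fun _ => prN σ τ) (fun _ => hU) with ⟨q, _, l, hl, σ', τ', h1, rfl⟩ | ⟨p, _, hn⟩
  · obtain ⟨rfl, rfl⟩ := prN_inj h1
    exact ⟨hl _ (by simp), hl _ (by simp)⟩
  · exact absurd ⟨σ, τ, rfl, rfl⟩ (hn p le_rfl [σ, τ])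

lemma unop_U (h : Meets U H unprT) {σ τ : Nm} (hU : opN σ τ ∈ U) : σ ∈ U ∧ τ ∈ U :=
  unpr_U h (unpr_U h hU).2

lemma infinity_Mod (hH : H.Nonempty) (hen : ∀ n : ℕ, on n ∈ U) (hom : on Ordinal.omega0 ∈ U) :
    ∃ x ∈ Mod U H NN, ∅ ∈ x ∧ ∀ y ∈ x, insert y y ∈ x := by
  refine ⟨val U H (on Ordinal.omega0), on_Mod hom, ?_, ?_⟩
  · rw [mem_val_on hH]
    refine ⟨0, Ordinal.omega0_pos, by simpa using hen 0, ?_⟩
    symm
    rw [ZFSet.eq_empty]
    intro y hy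
    rw [mem_val_on hH] at hy
    obtain ⟨s, hs, _⟩ := hy
    simp at hs
  · intro y hy
    rw [mem_val_on hH] at hy ⊢
    obtain ⟨β, hβ, hβU, rfl⟩ := hy
    obtain ⟨n, rfl⟩ := Ordinal.lt_omega0.1 hβ
    refine ⟨((n + 1 : ℕ) : Ordinal.{0}), Ordinal.natCast_lt_omega0 _, hen _, ?_⟩
    ext x
    rw [ZFSet.mem_insert_iff, mem_val_on hH, mem_val_on hH]
    constructor
    · rintro (rfl | ⟨s, hs, h1, rfl⟩)
      · exact ⟨n, by exact_mod_cast Nat.lt_succ_self n, hβU, rfl⟩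
      · exact ⟨s, hs.trans (by exact_mod_cast Nat.lt_succ_self n), h1, rfl⟩
    · rintro ⟨s, hs, h1, rfl⟩
      have hs' : s < Order.succ (n : Ordinal.{0}) := by
        rw [Order.succ_eq_add_one]
        exact_mod_cast hs
      rcases (Order.lt_succ_iff.1 hs').lt_or_eq with h | h
      · exact Or.inr ⟨s, h, h1, rfl⟩
      · left
        rw [h]

theorem ZF_Mod (h : Good0 U H) : ZFModel (Mod U H NN) :=
  zf_of (fun _ hx _ hy => Mod_trans hx hy)
    (fun _ φ v hv a ha => separation h.full h.sep φ v hv a ha)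
    (fun _ φ v hv a ha => collection h.full h.col h.cw φ v hv a ha)
    (fun _ hx _ hy => pairing h.full.at'.filt.ne h.pr hx hy)
    (fun _ hx => union_superset h.full.at'.filt.ne h.uni hx)
    (fun _ hx => power_superset h.full.at' h.pow h.cap hx)
    (infinity_Mod h.full.at'.filt.ne (fun n => seed_U (h.nat n)) (seed_U h.om))

end

end Pool.MP_598ba0_lc
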