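import Mathlib
import Pool.Agent.Lib.MP_598ba0_lc.Model

/-!
# MP_598ba0_lc: names of sets of ordinals, interface for the two ultrafilter modules
-/

namespace Pool.MP_598ba0_lc

open Set Cardinal Name Cond

/-- the element `x` of `α.ToType` as an ordinal -/
noncomputable abbrev od {α : Ordinal.{0}} (x : α.ToType) : Ordinal.{0} := (Ordinal.ToType.toOrd x : Ordinal.{0})

lemma od_lt {α : Ordinal.{0}} (x : α.ToType) : od x < α := (Ordinal.ToType.toOrd x).2

lemma od_inj {α : Ordinal.{0}} {x y : α.ToType} : od x = od y ↔ x = y := by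
  constructor
  · intro h
    exact Ordinal.ToType.mk.symm.injective (Subtype.ext h)
  · rintro rfl
    rfl

lemma od_surj {α β : Ordinal.{0}} (h : β < α) : ∃ x : α.ToType, od x = β :=
  ⟨Ordinal.ToType.mk ⟨β, h⟩, by simp [od]⟩

/-- name of a subset of `α` -/
noncomputable def sbN (α : Ordinal.{0}) (b : α.ToType → LowerSet Cond) : Nm :=
  mk α.ToType (fun x => on (od x)) b

/-- the complement of a lower set in the sense of forcing -/
def cpl (c : LowerSet Cond) : LowerSet Cond :=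
  ⟨{q | ∀ r ≤ q, r ∉ c}, fun _ _ hba h r hr => h r (hr.trans hba)⟩

lemma mem_cpl {c : LowerSet Cond} {q : Cond} : q ∈ cpl c ↔ ∀ r ≤ q, r ∉ c := Iff.rfl

open Classical in
/-- the canonical values of a ground model set -/
noncomputable def ck {α : Ordinal.{0}} (X : Set α.ToType) : α.ToType → LowerSet Cond :=
  fun x => if x ∈ X then ⊤ else ⊥

lemma mem_ck {α : Ordinal.{0}} {X : Set α.ToType} {x : α.ToType} {q : Cond} :
    q ∈ ck X x ↔ x ∈ X := by
  unfold ck
  split_ifs with h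
  · simp [h]
  · simp only [h, iff_false]
    exact fun hq => hq

/-- `sbN α b` is fixed by the flips which do not change `b` -/
lemma act_sbN {α : Ordinal.{0}} (b : α.ToType → LowerSet Cond) (a : Cond →o Cond) :
    act a (sbN α b) = sbN α (fun x => pre a (b x)) := by
  unfold sbN
  rw [act_mk]
  congr 1
  funext x
  exact on_Inv _ _

lemma sbN_NN {α : Ordinal.{0}} {b : α.ToType → LowerSet Cond} {m : ℕ}
    (h : ∀ c, Gm m c → ∀ x q, fl c q ∈ b x → q ∈ b x) : sbN α b ∈ NN := by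
  refine NN_of (m := m) (fun k => (on_Inv _).NN) (fun c hc => Eqv.of_eq ?_)
  rw [act_sbN]
  congr 1
  funext x
  ext q
  show fl c q ∈ b x ↔ q ∈ b x
  refine ⟨h c hc x q, fun hq => h c hc x _ ?_⟩
  rwa [fl_self]

/-! ### Interface for `κ_ω`: no uniform ultrafilter -/

/-- What is used of the statement that `p` forces that `D` is a uniform ultrafilter on `κ_ω`. -/
structure UltW (p : Cond) (D : Nm) : Prop where
  small : ∀ q ≤ p, ∀ X : Set KW, #X < kapW → ¬ fmem (sbN kapW.ord (ck X)) D q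
  inter : ∀ q ≤ p, ∀ b₁ b₂ : KW → LowerSet Cond, sbN kapW.ord b₁ ∈ NN → sbN kapW.ord b₂ ∈ NN →
    ∀ X : Set KW, fmem (sbN kapW.ord b₁) D q → fmem (sbN kapW.ord b₂) D q →
      (∀ x ∉ X, ∀ r ≤ q, r ∈ b₁ x → r ∉ b₂ x) → ∃ r ≤ q, fmem (sbN kapW.ord (ck X)) D r
  ultra : ∀ b : KW → LowerSet Cond, sbN kapW.ord b ∈ NN → ∀ q ≤ p, ∃ r ≤ q,
    fmem (sbN kapW.ord b) D r ∨ fmem (sbN kapW.ord (fun x => cpl (b x))) D r

/-! ### Interface for `κ_n` -/

/-- membership depends only on the levels `≤ n` -/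
def IsLow (n : ℕ) (c : LowerSet Cond) : Prop := ∀ q, q ∈ c ↔ low n q ∈ c

end Pool.MP_598ba0_lc
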