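import Mathlib
import Pool.Agent.Lib.MP_598ba0_lc.SubN

/-!
# MP_598ba0_lc: bounding names of functions
-/

namespace Pool.MP_598ba0_lc

open Set Cardinal Name Cond

/-- `(ξ, η) ∈ τ` is forced by `q` -/
def vl (τ : Nm) (ξ η : Ordinal.{0}) (q : Cond) : Prop := fmem (opN (on ξ) (on η)) τ q

lemma vl_mono {τ : Nm} {ξ η : Ordinal.{0}} {q r : Cond} (h : vl τ ξ η q) (hr : r ≤ q) :
    vl τ ξ η r := fmem_mono h hr

/-- below `p` the name `τ` is forced to be functional on `μ` with values in `lam` -/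
def FunV (μ lam : Ordinal.{0}) (τ : Nm) (p : Cond) : Prop :=
  ∀ q ≤ p, ∀ ξ < μ, ∀ η < lam, ∀ η' < lam, vl τ ξ η q → vl τ ξ η' q → η = η'

/-- every name of a function from `μ` to `lam` is bounded -/
def BddV (μ lam : Ordinal.{0}) : Prop :=
  ∀ (τ : Nm) (p : Cond), FunV μ lam τ p →
    ∃ q ≤ p, ∃ γ < lam, ∀ r ≤ q, ∀ ξ < μ, ∀ η < lam, vl τ ξ η r → η < γ

lemma exists_bound {c : Cardinal.{0}} (hc : c.IsRegular) {J : Type} (hJ : #J < c)
    (g : J → Ordinal.{0}) (hg : ∀ j, g j < c.ord) : ∃ γ < c.ord, ∀ j, g j < γ := by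
  refine ⟨⨆ j, Order.succ (g j), ?_, fun j => (Order.lt_succ _).trans_le
    (Ordinal.le_iSup (fun j => Order.succ (g j)) j)⟩
  refine Ordinal.iSup_lt_of_lt_cof (by rwa [hc.cof_ord]) (fun j => ?_)
  exact (isSuccLimit_ord hc.aleph0_le).succ_lt (hg j)

lemma bdd_of {c : Cardinal.{0}} (hc : c.IsRegular) {μ : Ordinal.{0}} {τ : Nm} {p q : Cond}
    (hf : FunV μ c.ord τ p) (hq : q ≤ p) {J : Type} (hJ : #J < c) (d : J → Cond)
    (x : J → Ordinal.{0}) (h : ∀ r ≤ q, ∀ ξ < μ, ∀ η < c.ord, vl τ ξ η r →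
      ∃ j, x j = ξ ∧ r ≤ d j ∧ ∃ η' < c.ord, vl τ ξ η' (d j)) :
    ∃ γ < c.ord, ∀ r ≤ q, ∀ ξ < μ, ∀ η < c.ord, vl τ ξ η r → η < γ := by
  classical
  have h0 : (0 : Ordinal.{0}) < c.ord := by
    rw [ord_pos]
    exact aleph0_pos.trans_le hc.aleph0_le
  let g : J → Ordinal.{0} := fun j =>
    if h : ∃ η' < c.ord, vl τ (x j) η' (d j) then h.choose else 0
  have hg : ∀ j, g j < c.ord := by
    intro j
    show (if h : ∃ η' < c.ord, vl τ (x j) η' (d j) then h.choose else 0) < c.ord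
    split_ifs with h
    · exact h.choose_spec.1
    · exact h0
  obtain ⟨γ, hγ, hγ'⟩ := exists_bound hc hJ g hg
  refine ⟨γ, hγ, fun r hr ξ hξ η hη hv => ?_⟩
  obtain ⟨j, rfl, hrd, hex⟩ := h r hr ξ hξ η hη hv
  have hgj : g j = hex.choose := dif_pos hex
  have h1 : vl τ (x j) (g j) r := by
    rw [hgj]
    exact vl_mono hex.choose_spec.2 hrd
  rw [hf r (hr.trans hq) (x j) hξ η hη (g j) (hg j) hv h1]
  exact hγ' j

lemma card_toType (μ : Ordinal.{0}) : #μ.ToType = μ.card := by simp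

/-- regularity of `κ_{m+1}` -/
theorem bddV_kap {m : ℕ} {μ : Ordinal.{0}} (hμ : μ < (kap (m + 1)).ord) :
    BddV μ (kap (m + 1)).ord := by
  intro τ p hf
  have hμc : μ.card ≤ 2 ^ kap m := lt_kap_succ.1 (lt_ord.1 hμ)
  have hJ : #(Lo m × μ.ToType) ≤ 2 ^ kap m := by
    rw [mk_prod, lift_id, lift_id, card_toType]
    exact (mul_le_mul' (mk_Lo_le m) hμc).trans (mul_eq_self (al_two m)).le
  obtain ⟨t, ht0, ht⟩ := tail_dec hJ
    (fun z t => ∃ η < (kap (m + 1)).ord, vl τ (od z.2) η (mrg z.1.1 t))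
    (fun z t t' h htt => by
      obtain ⟨η, h1, h2⟩ := h
      exact ⟨η, h1, vl_mono h2 (mrg_mono' le_rfl htt)⟩) ⟨p⟩
  have hq : mrg p t ≤ p := by
    have := mrg_mono' (m := m) (le_refl p) ht0
    rwa [mrg_self] at this
  refine ⟨mrg p t, hq, bdd_of (reg_kap _) hf hq (J := Lo m × μ.ToType)
    (lt_of_le_of_lt hJ (two_lt m)) (fun z => mrg z.1.1 t) (fun z => od z.2) ?_⟩
  intro r hr ξ hξ η hη hv
  obtain ⟨x, rfl⟩ := od_surj hξ
  have htr : t ≤ (⟨r⟩ : Tl m) := le_trans tl_mrg (tl_mono hr)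
  have hmr : mrg (toLo m r).1 (⟨r⟩ : Tl m) = r := by
    show mrg (low m r) _ = r
    rw [mrg_low, mrg_self]
  refine ⟨(toLo m r, x), rfl, le_mrg (le_low r) htr, ?_⟩
  exact ht (toLo m r, x) ⟨r⟩ htr ⟨η, hη, by rw [hmr]; exact hv⟩

/-- regularity of `κ_ω⁺` -/
theorem bddV_T {μ : Ordinal.{0}} (hμ : μ < kapT.ord) : BddV μ kapT.ord := by
  intro τ p hf
  have hμc : #μ.ToType ≤ #KW := by
    rw [card_toType, mk_KW]
    exact Order.lt_succ_iff.1 (lt_ord.1 hμ)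
  obtain ⟨e⟩ := (Cardinal.le_def _ _).1 hμc
  let J : ℕ → Type := fun m => Lo m × {x : μ.ToType // od (e x) < (kap m).ord}
  have hJ : ∀ m, #(J m) ≤ 2 ^ kap m := by
    intro m
    have h1 : #{x : μ.ToType // od (e x) < (kap m).ord} ≤ kap m := by
      choose g hg using fun x : {x : μ.ToType // od (e x) < (kap m).ord} => od_surj x.2
      have hinj : Function.Injective g := by
        intro x y hxy
        have : od (e x.1) = od (e y.1) := by rw [← hg x, ← hg y, hxy]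
        exact Subtype.ext (e.injective (od_inj.1 this))
      have := mk_le_of_injective hinj
      rwa [card_toType, card_ord] at this
    show #(Lo m × _) ≤ _
    rw [mk_prod, lift_id, lift_id]
    exact (mul_le_mul' (mk_Lo_le m) (h1.trans (cantor _).le)).trans (mul_eq_self (al_two m)).le
  obtain ⟨q, hq, hdec⟩ := fusion hJ
    (fun m z t => ∃ η < kapT.ord, vl τ (od z.2.1) η (mrg z.1.1 t))
    (fun m z t t' h htt => by
      obtain ⟨η, h1, h2⟩ := h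
      exact ⟨η, h1, vl_mono h2 (mrg_mono' le_rfl htt)⟩) p
  have hJT : #(Σ m, J m) < kapT := by
    rw [mk_sigma]
    refine lt_of_le_of_lt (sum_le_sum _ (fun _ => kapW) (fun m => (hJ m).trans
      (two_kap_lt_W m).le)) ?_
    rw [sum_const, lift_id, lift_id, mk_nat]
    exact lt_of_le_of_lt (mul_le_of_le al_W al_W le_rfl) W_lt_T
  refine ⟨q, hq, bdd_of reg_T hf hq (J := Σ m, J m) hJT (fun z => mrg z.2.1.1 (⟨q⟩ : Tl z.1))
    (fun z => od z.2.2.1) ?_⟩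
  intro r hr ξ hξ η hη hv
  obtain ⟨x, rfl⟩ := od_surj hξ
  obtain ⟨m, hm⟩ := exists_lt_kap (lt_ord.1 (od_lt (e x)))
  have hxm : od (e x) < (kap m).ord := lt_ord.2 hm
  have htr : (⟨q⟩ : Tl m) ≤ ⟨r⟩ := tl_mono hr
  have hmr : mrg (toLo m r).1 (⟨r⟩ : Tl m) = r := by
    show mrg (low m r) _ = r
    rw [mrg_low, mrg_self]
  refine ⟨⟨m, toLo m r, ⟨x, hxm⟩⟩, rfl, le_mrg (le_low r) htr, ?_⟩
  exact hdec m (toLo m r, ⟨x, hxm⟩) ⟨r⟩ htr ⟨η, hη, by rw [hmr]; exact hv⟩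

/-- regularity of the regular cardinals above `2^{κ_ω⁺}` -/
theorem bddV_big {c : Cardinal.{0}} (hc : c.IsRegular) (hlt : 2 ^ kapT < c) {μ : Ordinal.{0}}
    (hμ : μ < c.ord) : BddV μ c.ord := by
  intro τ p hf
  have hJ : #(Cond × μ.ToType) < c := by
    rw [mk_prod, lift_id, lift_id, card_toType]
    exact mul_lt_of_lt hc.aleph0_le (lt_of_le_of_lt mk_Cond_le hlt) (lt_ord.1 hμ)
  refine ⟨p, le_rfl, bdd_of hc hf le_rfl (J := Cond × μ.ToType) hJ (fun z => z.1)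
    (fun z => od z.2) ?_⟩
  intro r hr ξ hξ η hη hv
  obtain ⟨x, rfl⟩ := od_surj hξ
  exact ⟨(r, x), rfl, le_rfl, η, hη, hv⟩

/-- the cardinals which stay regular -/
def RegC (c : Cardinal.{0}) : Prop :=
  (∃ m, c = kap (m + 1)) ∨ c = kapT ∨ (c.IsRegular ∧ 2 ^ kapT < c)

theorem RegC.bdd {c : Cardinal.{0}} (h : RegC c) {μ : Ordinal.{0}} (hμ : μ < c.ord) :
    BddV μ c.ord := by
  rcases h with ⟨m, rfl⟩ | rfl | ⟨h1, h2⟩
  · exact bddV_kap hμ
  · exact bddV_T hμ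
  · exact bddV_big h1 h2 hμ

end Pool.MP_598ba0_lc
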