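import Mathlib
import Pool.Agent.Lib.MP_598ba0_lc.Reg

/-!
# MP_598ba0_lc: collapsed ordinals
-/

namespace Pool.MP_598ba0_lc

open Set Cardinal Name Cond

/-- name of a relation between `μ` and `α` -/
noncomputable def relN (μ α : Ordinal.{0}) (c : Ordinal.{0} → Ordinal.{0} → LowerSet Cond) : Nm :=
  mk (μ.ToType × α.ToType) (fun z => opN (on (od z.1)) (on (od z.2))) (fun z => c (od z.1) (od z.2))

lemma Inv.prN {σ τ : Nm} (hσ : Inv σ) (hτ : Inv τ) : Inv (prN σ τ) := fun a => by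
  rw [act_prN, hσ a, hτ a]

lemma Inv.opN {σ τ : Nm} (hσ : Inv σ) (hτ : Inv τ) : Inv (opN σ τ) :=
  (hσ.prN hσ).prN (hσ.prN hτ)

lemma relN_NN {μ α : Ordinal.{0}} {c : Ordinal.{0} → Ordinal.{0} → LowerSet Cond} {m : ℕ}
    (h : ∀ b, Gm m b → ∀ ξ η q, fl b q ∈ c ξ η → q ∈ c ξ η) : relN μ α c ∈ NN := by
  refine NN_of (m := m) (fun k => ((on_Inv _).opN (on_Inv _)).NN) (fun b hb => Eqv.of_eq ?_)
  refine act_mk_of (fun z => (on_Inv _).opN (on_Inv _) _) (fun z => ?_)
  ext q
  show fl b q ∈ c _ _ ↔ q ∈ c _ _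
  refine ⟨h b hb _ _ q, fun hq => h b hb _ _ _ ?_⟩
  rwa [fl_self]

/-- `c` is (forced to be) a function from `μ` onto `α` -/
structure OntoV (μ α : Ordinal.{0}) (c : Ordinal.{0} → Ordinal.{0} → LowerSet Cond) : Prop where
  func : ∀ ξ < μ, ∀ η < α, ∀ η' < α, ∀ q, q ∈ c ξ η → q ∈ c ξ η' → η = η'
  total : ∀ ξ < μ, ∀ p, ∃ q ≤ p, ∃ η < α, q ∈ c ξ η
  onto : ∀ η < α, ∀ p, ∃ q ≤ p, ∃ ξ < μ, q ∈ c ξ η
  sym : relN μ α c ∈ NN

/-- `α` is collapsed -/
def Bad (α : Ordinal.{0}) : Prop := ∃ μ < α, ∃ c, OntoV μ α c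

/-! ### Ground model functions -/

open Classical in
/-- the values of the graph of a ground model function -/
noncomputable def ckR (R : Ordinal.{0} → Ordinal.{0} → Prop) :
    Ordinal.{0} → Ordinal.{0} → LowerSet Cond := fun ξ η => if R ξ η then ⊤ else ⊥

lemma mem_ckR {R : Ordinal.{0} → Ordinal.{0} → Prop} {ξ η : Ordinal.{0}} {q : Cond} :
    q ∈ ckR R ξ η ↔ R ξ η := by
  unfold ckR
  split_ifs with h
  · simp [h]
  · simp only [h, iff_false]
    exact fun hq => hq

lemma ckR_NN (R : Ordinal.{0} → Ordinal.{0} → Prop) (μ α : Ordinal.{0}) :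
    relN μ α (ckR R) ∈ NN :=
  relN_NN (m := 0) (fun b _ ξ η q h => by rw [mem_ckR] at h ⊢; exact h)

lemma bad_of_card {α : Ordinal.{0}} (h : α.card.ord < α) : Bad α := by
  have hc : #α.card.ord.ToType = #α.ToType := by rw [card_toType, card_toType, card_ord]
  obtain ⟨e⟩ := Cardinal.eq.1 hc
  refine ⟨α.card.ord, h, ckR (fun ξ η => ∃ x y, od x = ξ ∧ od y = η ∧ e x = y),
    ⟨?_, ?_, ?_, ckR_NN _ _ _⟩⟩
  · intro ξ _ η _ η' _ q h1 h2
    rw [mem_ckR] at h1 h2
    obtain ⟨x, y, hx, hy, rfl⟩ := h1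
    obtain ⟨x', y', hx', hy', rfl⟩ := h2
    have : x = x' := od_inj.1 (hx.trans hx'.symm)
    rw [← hy, ← hy', this]
  · intro ξ hξ p
    obtain ⟨x, rfl⟩ := od_surj hξ
    exact ⟨p, le_rfl, od (e x), od_lt _, mem_ckR.2 ⟨x, e x, rfl, rfl, rfl⟩⟩
  · intro η hη p
    obtain ⟨y, rfl⟩ := od_surj hη
    exact ⟨p, le_rfl, od (e.symm y), od_lt _, mem_ckR.2 ⟨_, y, rfl, rfl, e.apply_symm_apply y⟩⟩

/-! ### Adding a value -/

open Classical in
/-- change the value at `x` (level `j`) to `v` -/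
noncomputable def Cond.upd (p : Cond) (j : Option ℕ) (x : K j) (v : Set (K j) × (ℕ → Bool)) :
    Cond where
  f := Function.update p.f j (Function.update (p.f j) x (some v))
  sm i := by
    by_cases h : i = j
    · subst h
      rw [Function.update_self]
      have hsub : {y | Function.update (p.f i) x (some v) y ≠ none} ⊆
          insert x {y | p.f i y ≠ none} := by
        intro y hy
        by_cases hyx : y = x
        · exact Or.inl hyx
        · right
          rw [mem_ofPred_eq, Function.update_of_ne hyx] at hy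
          exact hy
      refine lt_of_le_of_lt (mk_le_mk_of_subset hsub) ?_
      refine lt_of_le_of_lt mk_insert_le ?_
      exact add_lt_of_lt (al_lv i) (p.sm i) (one_lt_aleph0.trans_le (al_lv i))
    · rw [Function.update_of_ne h]
      exact p.sm i

lemma Cond.upd_self (p : Cond) (j : Option ℕ) (x : K j) (v : Set (K j) × (ℕ → Bool)) :
    (p.upd j x v).f j x = some v := by
  simp [Cond.upd]

lemma Cond.upd_le (p : Cond) {j : Option ℕ} {x : K j} (v : Set (K j) × (ℕ → Bool))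
    (h : p.f j x = none) : p.upd j x v ≤ p := by
  classical
  intro i y w hw
  by_cases hi : i = j
  · subst hi
    have hyx : y ≠ x := by
      rintro rfl
      rw [h] at hw
      exact absurd hw (by simp)
    show Function.update p.f i (Function.update (p.f i) x (some v)) i y = some w
    rw [Function.update_self, Function.update_of_ne hyx]
    exact hw
  · show Function.update p.f j (Function.update (p.f j) x (some v)) i y = some w
    rw [Function.update_of_ne hi]
    exact hw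

/-- some point is not in the domain -/
lemma Cond.exists_fresh (p : Cond) (j : Option ℕ) : ∃ x : K j, p.f j x = none := by
  by_contra hcon
  push Not at hcon
  have h1 : #{x // p.f j x ≠ none} = #(K j) :=
    mk_congr (Equiv.subtypeUnivEquiv (p := fun x => p.f j x ≠ none) (fun x => hcon x))
  have := p.sm j
  rw [h1, mk_K] at this
  exact lt_irrefl _ this

/-- a value can be added -/
lemma Cond.exists_dom (p : Cond) (j : Option ℕ) (x : K j) :
    ∃ q ≤ p, ∃ v, q.f j x = some v := by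
  cases h : p.f j x with
  | none => exact ⟨p.upd j x (∅, fun _ => false), p.upd_le _ h, _, p.upd_self _ _ _⟩
  | some v => exact ⟨p, le_rfl, v, h⟩

/-! ### The generic collapses -/

lemma bad_of_collapse {α : Ordinal.{0}} {j : Option ℕ} (h1 : (lv j).ord < α)
    (h2 : α.card ≤ 2 ^ lv j) : Bad α := by
  have hα : (0 : Ordinal.{0}) < α := lt_of_le_of_lt zero_le h1
  obtain ⟨y₀, hy₀⟩ := od_surj hα
  have hc : #α.ToType ≤ #(Set (K j)) := by rwa [card_toType, mk_set, mk_K]
  obtain ⟨g⟩ := (Cardinal.le_def _ _).1 hc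
  have : Nonempty α.ToType := ⟨y₀⟩
  let e : Set (K j) → α.ToType := Function.invFun g
  have he : ∀ y, e (g y) = y := Function.leftInverse_invFun g.injective
  let c : Ordinal.{0} → Ordinal.{0} → LowerSet Cond := fun ξ η =>
    ⟨{q | ∃ x : K j, od x = ξ ∧ ∃ v, q.f j x = some v ∧ od (e v.1) = η}, by
      rintro q r hrq ⟨x, hx, v, hv, he⟩
      exact ⟨x, hx, v, hrq j x v hv, he⟩⟩
  have hcm : ∀ ξ η q, q ∈ c ξ η ↔ ∃ x : K j, od x = ξ ∧ ∃ v, q.f j x = some v ∧ od (e v.1) = η :=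
    fun _ _ _ => Iff.rfl
  refine ⟨(lv j).ord, h1, c, ⟨?_, ?_, ?_, relN_NN (m := 0) ?_⟩⟩
  · intro ξ _ η _ η' _ q hq hq'
    obtain ⟨x, hx, v, hv, rfl⟩ := (hcm _ _ _).1 hq
    obtain ⟨x', hx', v', hv', rfl⟩ := (hcm _ _ _).1 hq'
    obtain rfl : x = x' := od_inj.1 (hx.trans hx'.symm)
    rw [hv] at hv'
    rw [Option.some.inj hv']
  · intro ξ hξ p
    obtain ⟨x, rfl⟩ := od_surj hξ
    obtain ⟨q, hq, v, hv⟩ := p.exists_dom j x
    exact ⟨q, hq, od (e v.1), od_lt _, (hcm _ _ _).2 ⟨x, rfl, v, hv, rfl⟩⟩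
  · intro η hη p
    obtain ⟨y, rfl⟩ := od_surj hη
    obtain ⟨x, hx⟩ := p.exists_fresh j
    refine ⟨p.upd j x (g y, fun _ => false), p.upd_le _ hx, od x, od_lt _,
      (hcm _ _ _).2 ⟨x, rfl, _, p.upd_self _ _ _, ?_⟩⟩
    show od (e (g y)) = od y
    rw [he]
  · intro b _ ξ η q hq
    obtain ⟨x, hx, v, hv, rfl⟩ := (hcm _ _ _).1 hq
    rw [fl_f] at hv
    obtain ⟨w, hw, rfl⟩ := Option.map_eq_some_iff.1 hv
    exact (hcm _ _ _).2 ⟨x, hx, w, hw, rfl⟩

/-- classification of the infinite ordinals which are not collapsed -/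
lemma not_bad_cases {α : Ordinal.{0}} (hω : Ordinal.omega0 ≤ α) (h : ¬ Bad α) :
    (∃ n, α = (kap n).ord) ∨ α = kapW.ord ∨ α = kapT.ord ∨
      (∃ c : Cardinal.{0}, α = c.ord ∧ 2 ^ kapT < c) := by
  have hα : α = α.card.ord := by
    rcases (ord_card_le α).lt_or_eq with h1 | h1
    · exact absurd (bad_of_card h1) h
    · exact h1.symm
  set c := α.card with hc
  have hc0 : ℵ₀ ≤ c := by
    rw [← omega0_le_ord, ← hα]
    exact hω
  have hcc : α.card ≤ c := le_rfl
  rcases lt_trichotomy c kapW with h1 | h1 | h1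
  · obtain ⟨n, h2, h3⟩ := level_cases hc0 h1
    rcases h2.lt_or_eq with h4 | h4
    · exfalso
      refine h (bad_of_collapse (j := some n) ?_ (lt_kap_succ.1 h3))
      rw [hα]
      exact ord_lt_ord.2 h4
    · exact Or.inl ⟨n, by rw [h4]; exact hα⟩
  · exact Or.inr (Or.inl (by rw [← h1]; exact hα))
  · have h2 : kapT ≤ c := Order.succ_le_of_lt h1
    rcases h2.lt_or_eq with h3 | h3
    · right; right; right
      refine ⟨c, hα, ?_⟩
      by_contra hcon
      refine h (bad_of_collapse (j := none) ?_ (not_lt.1 hcon))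
      rw [hα]
      exact ord_lt_ord.2 h3
    · exact Or.inr (Or.inr (Or.inl (by rw [h3]; exact hα)))

end Pool.MP_598ba0_lc
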