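import Mathlib
import Pool.Agent.Lib.MP_598ba0_lc.Coll

/-!
# MP_598ba0_lc: the cardinals of the model
-/

namespace Pool.MP_598ba0_lc

open Set Cardinal Name Cond

lemma on_name_inj {α β : Ordinal.{0}} (h : on α = on β) : α = β :=
  on_inj (p := triv) (by rw [h]; exact feq_refl _ _)

lemma vl_relN {μ α : Ordinal.{0}} {c : Ordinal.{0} → Ordinal.{0} → LowerSet Cond}
    {ξ η : Ordinal.{0}} (hξ : ξ < μ) (hη : η < α) {q : Cond} (h : q ∈ c ξ η) :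
    vl (relN μ α c) ξ η q := by
  obtain ⟨x, rfl⟩ := od_surj hξ
  obtain ⟨y, rfl⟩ := od_surj hη
  exact fmem_of (σ := relN μ α c) (k := (x, y)) h

/-! ### Tasks -/

/-- names for collapsing functions -/
def surT : Task Nm Cond := TL 1 fun v _ l => ∃ α μ c, v 0 = on α ∧ μ < α ∧ OntoV μ α c ∧
  l = [on μ, relN μ α c]
/-- values -/
def totT : Task Nm Cond := TL 2 fun v q l => ∃ ξ η, v 1 = on ξ ∧ l = [on η] ∧ vl (v 0) ξ η q
/-- arguments -/
def ontoT : Task Nm Cond := TL 2 fun v q l => ∃ ξ η, v 1 = on η ∧ l = [on ξ] ∧ vl (v 0) ξ η q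
/-- failure of functionality -/
def nfT : Task Nm Cond := TL 1 fun v q l => ∃ ξ η η', η ≠ η' ∧ vl (v 0) ξ η q ∧ vl (v 0) ξ η' q ∧
  l = [on ξ, on η, on η']
/-- bounds -/
def bdT : Task Nm Cond := TL 3 fun v q l => ∃ μ lam γ, v 1 = on μ ∧ v 2 = on lam ∧ γ < lam ∧
  (∀ r ≤ q, ∀ ξ < μ, ∀ η < lam, vl (v 0) ξ η r → η < γ) ∧ l = [on γ]
/-- a large cardinal above `μ` -/
noncomputable def thet (μ : Ordinal.{0}) : Cardinal.{0} := Order.succ (max μ.card (2 ^ kapT))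
/-- large cardinals -/
def thT : Task Nm Cond := TL 1 fun v _ l => ∃ μ, v 0 = on μ ∧ l = [on (thet μ).ord]

/-- the graph of `n ↦ κ_n` -/
noncomputable def cofN : Nm :=
  relN Ordinal.omega0 kapW.ord (ckR fun ξ η => ∃ n : ℕ, ξ = n ∧ η = (kap n).ord)

/-- the tasks for the cardinals -/
structure Good1 (U : Set Nm) (H : Set Cond) : Prop extends Good0 U H where
  sur : Meets U H surT
  tot : Meets U H totT
  onto : Meets U H ontoT
  nf : Meets U H nfT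
  bd : Meets U H bdT
  th : Meets U H thT
  kap : ∀ n : ℕ, Meets U H (seedT (on (kap n).ord))
  kapW : Meets U H (seedT (on kapW.ord))
  cof : Meets U H (seedT cofN)

section
variable {U : Set Nm} {H : Set Cond} (h : Good1 U H)
include h

lemma Good1.at : Atomic U H := h.full.at'
lemma Good1.ne : H.Nonempty := h.full.at'.filt.ne

lemma vl_iff {τ : Nm} (hτ : τ ∈ U) {ξ η : Ordinal.{0}} (hξ : on ξ ∈ U) (hη : on η ∈ U) :
    ZFSet.pair (val U H (on ξ)) (val U H (on η)) ∈ val U H τ ↔ ∃ p ∈ H, vl τ ξ η p := by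
  rw [← val_opN h.ne h.pr hξ hη]
  exact val_mem_iff h.at (opN_U h.pr hξ hη) hτ

lemma mem_relN {μ α : Ordinal.{0}} {c : Ordinal.{0} → Ordinal.{0} → LowerSet Cond}
    {z : ZFSet.{0}} : z ∈ val U H (relN μ α c) ↔ ∃ ξ < μ, ∃ η < α, on ξ ∈ U ∧ on η ∈ U ∧
      z = ZFSet.pair (val U H (on ξ)) (val U H (on η)) ∧ ∃ q ∈ H, q ∈ c ξ η := by
  rw [mem_val]
  constructor
  · rintro ⟨k, hk, hq, rfl⟩
    have hk' : opN (on (od k.1)) (on (od k.2)) ∈ U := hk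
    obtain ⟨h1, h2⟩ := unop_U h.unpr hk'
    exact ⟨od k.1, od_lt _, od k.2, od_lt _, h1, h2, val_opN h.ne h.pr h1 h2, hq⟩
  · rintro ⟨ξ, hξ, η, hη, h1, h2, rfl, hq⟩
    obtain ⟨x, rfl⟩ := od_surj hξ
    obtain ⟨y, rfl⟩ := od_surj hη
    exact ⟨(x, y), opN_U h.pr h1 h2, hq, (val_opN h.ne h.pr h1 h2).symm⟩

lemma on_inj' {α β : Ordinal.{0}} (hα : on α ∈ U) (hβ : on β ∈ U)
    (he : val U H (on α) = val U H (on β)) : α = β := (val_on_inj h.at hα hβ).1 he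

lemma isOnto_relN {μ α : Ordinal.{0}} {c : Ordinal.{0} → Ordinal.{0} → LowerSet Cond}
    (hO : OntoV μ α c) (hτ : relN μ α c ∈ U) :
    IsOnto (val U H (on μ)) (val U H (on α)) (val U H (relN μ α c)) := by
  refine ⟨⟨?_, ?_⟩, ?_⟩
  · intro z hz
    obtain ⟨ξ, hξ, η, hη, h1, h2, rfl, _⟩ := (mem_relN h).1 hz
    rw [ZFSet.mem_prod]
    exact ⟨_, (mem_val_on h.ne).2 ⟨ξ, hξ, h1, rfl⟩, _, (mem_val_on h.ne).2 ⟨η, hη, h2, rfl⟩, rfl⟩
  · intro z hz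
    obtain ⟨ξ, hξ, h1, rfl⟩ := (mem_val_on h.ne).1 hz
    rcases meets_TL h.tot ![relN μ α c, on ξ] (forall2 hτ h1) with
      ⟨q, hq, l, hl, ξ', η, he, rfl, hv⟩ | ⟨p, hp, hn⟩
    · obtain rfl := on_name_inj he
      have h2 : on η ∈ U := hl _ (by simp)
      refine ⟨val U H (on η), (vl_iff h hτ h1 h2).2 ⟨q, hq, hv⟩, fun w hw => ?_⟩
      have hw1 := (vl_iff h hτ h1 h2).2 ⟨q, hq, hv⟩
      obtain ⟨ξ₁, h3, η₁, h4, h5, h6, h7, q₁, hq₁, hc₁⟩ := (mem_relN h).1 hw1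
      obtain ⟨ξ₂, h3', η₂, h4', h5', h6', h7', q₂, hq₂, hc₂⟩ := (mem_relN h).1 hw
      obtain ⟨e1, e2⟩ := ZFSet.pair_injective h7
      obtain ⟨e1', e2'⟩ := ZFSet.pair_injective h7'
      obtain rfl := on_inj' h h1 h5 e1
      obtain rfl := on_inj' h h1 h5' e1'
      obtain ⟨r, _, hr1, hr2⟩ := h.at.filt.dir q₁ hq₁ q₂ hq₂
      have := hO.func ξ h3 η₁ h4 η₂ h4' r ((c _ _).lower hr1 hc₁) ((c _ _).lower hr2 hc₂)
      rw [e2', e2, this]
    · exfalso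
      obtain ⟨q, hq, η, hη, hc⟩ := hO.total ξ hξ p
      exact hn q hq [on η] ⟨ξ, η, rfl, rfl, vl_relN hξ hη hc⟩
  · intro y hy
    obtain ⟨η, hη, h1, rfl⟩ := (mem_val_on h.ne).1 hy
    rcases meets_TL h.onto ![relN μ α c, on η] (forall2 hτ h1) with
      ⟨q, hq, l, hl, ξ, η', he, rfl, hv⟩ | ⟨p, hp, hn⟩
    · obtain rfl := on_name_inj he
      have h2 : on ξ ∈ U := hl _ (by simp)
      have hw := (vl_iff h hτ h2 h1).2 ⟨q, hq, hv⟩
      obtain ⟨ξ₁, h3, η₁, h4, h5, h6, h7, q₁, hq₁, hc₁⟩ := (mem_relN h).1 hw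
      refine ⟨_, (mem_val_on h.ne).2 ⟨ξ, ?_, h2, rfl⟩, hw⟩
      rw [on_inj' h h2 h5 (ZFSet.pair_injective h7).1]
      exact h3
    · exfalso
      obtain ⟨q, hq, ξ, hξ, hc⟩ := hO.onto η hη p
      exact hn q hq [on ξ] ⟨ξ, η, rfl, rfl, vl_relN hξ hη hc⟩

/-- collapsed ordinals are not cardinals of the model -/
lemma bad_not_card {α : Ordinal.{0}} (hα : on α ∈ U) (hb : Bad α) :
    ¬ IsCard (Mod U H NN) (val U H (on α)) := by
  rintro ⟨_, _, hc⟩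
  rcases meets_TL h.sur (fun _ => on α) (fun _ => hα) with
    ⟨q, hq, l, hl, α', μ, c, he, hμ, hO, rfl⟩ | ⟨p, hp, hn⟩
  · obtain rfl := on_name_inj he
    have h1 : on μ ∈ U := hl _ (by simp)
    have h2 : relN μ α c ∈ U := hl _ (by simp)
    exact hc _ ((mem_val_on h.ne).2 ⟨μ, hμ, h1, rfl⟩) _ ⟨_, hO.sym, h2, rfl⟩ (isOnto_relN h hO h2)
  · obtain ⟨μ, hμ, c, hO⟩ := hb
    exact hn p le_rfl _ ⟨α, μ, c, rfl, hμ, hO, rfl⟩

/-- bounding in the model -/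
lemma bdd_val {μ lam : Ordinal.{0}} (hB : BddV μ lam) (hμ : on μ ∈ U) (hlam : on lam ∈ U)
    {τ : Nm} (hτ : τ ∈ U) (hf : ∀ x y y', ZFSet.pair x y ∈ val U H τ →
      ZFSet.pair x y' ∈ val U H τ → y = y') :
    ∃ γ < lam, on γ ∈ U ∧ ∀ ξ < μ, ∀ η < lam, on ξ ∈ U → on η ∈ U →
      ZFSet.pair (val U H (on ξ)) (val U H (on η)) ∈ val U H τ → η < γ := by
  rcases meets_TL h.nf (fun _ => τ) (fun _ => hτ) with
    ⟨q, hq, l, hl, ξ, η, η', hne, hv, hv', rfl⟩ | ⟨p₁, hp₁, hn₁⟩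
  · exfalso
    have h1 : on ξ ∈ U := hl _ (by simp)
    have h2 : on η ∈ U := hl _ (by simp)
    have h3 : on η' ∈ U := hl _ (by simp)
    exact hne (on_inj' h h2 h3 (hf _ _ _ ((vl_iff h hτ h1 h2).2 ⟨q, hq, hv⟩)
      ((vl_iff h hτ h1 h3).2 ⟨q, hq, hv'⟩)))
  · have hvU : ∀ i, (![τ, on μ, on lam] : Fin 3 → Nm) i ∈ U := by
      intro i
      fin_cases i
      · exact hτ
      · exact hμ
      · exact hlam
    rcases meets_TL h.bd ![τ, on μ, on lam] hvU with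
      ⟨q, hq, l, hl, μ', lam', γ, e1, e2, hγ, hb, rfl⟩ | ⟨p₂, hp₂, hn₂⟩
    · obtain rfl := on_name_inj e1
      obtain rfl := on_name_inj e2
      refine ⟨γ, hγ, hl _ (by simp), fun ξ hξ η hη h1 h2 hm => ?_⟩
      obtain ⟨p, hp, hv⟩ := (vl_iff h hτ h1 h2).1 hm
      obtain ⟨r, _, hr1, hr2⟩ := h.at.filt.dir q hq p hp
      exact hb r hr1 ξ hξ η hη (vl_mono hv hr2)
    · exfalso
      obtain ⟨p, hp, h1, h2⟩ := h.at.filt.dir p₁ hp₁ p₂ hp₂
      have hfun : FunV μ lam τ p := by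
        intro q hq ξ _ η _ η' _ hv hv'
        by_contra hne
        exact hn₁ q (hq.trans h1) _ ⟨ξ, η, η', hne, hv, hv', rfl⟩
      obtain ⟨q, hq, γ, hγ, hb⟩ := hB τ p hfun
      exact hn₂ q (hq.trans h2) _ ⟨μ, lam, γ, rfl, rfl, hγ, hb, rfl⟩

omit h in
lemma func_unique {a b f : ZFSet.{0}} (hf : ZFSet.IsFunc a b f) {x y y' : ZFSet.{0}}
    (h1 : ZFSet.pair x y ∈ f) (h2 : ZFSet.pair x y' ∈ f) : y = y' := by
  have hx : x ∈ a := (ZFSet.pair_mem_prod.1 (hf.1 h1)).1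
  exact (hf.2 x hx).unique h1 h2

/-- an ordinal satisfying the bounding property is a regular cardinal of the model -/
lemma bddV_reg {lam : Ordinal.{0}} (hlam : on lam ∈ U) (hB : ∀ μ < lam, BddV μ lam) :
    ∀ β ∈ val U H (on lam), ∀ f ∈ Mod U H NN, ZFSet.IsFunc β (val U H (on lam)) f →
      ∃ γ ∈ val U H (on lam), ∀ x y, ZFSet.pair x y ∈ f → y ∈ γ := by
  rintro β hβ f ⟨τ, _, hτ, rfl⟩ hf
  obtain ⟨μ, hμ, hμU, rfl⟩ := (mem_val_on h.ne).1 hβ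
  obtain ⟨γ, hγ, hγU, hb⟩ := bdd_val h (hB μ hμ) hμU hlam hτ (fun x y y' => func_unique hf)
  refine ⟨_, (mem_val_on h.ne).2 ⟨γ, hγ, hγU, rfl⟩, fun x y hxy => ?_⟩
  obtain ⟨hx, hy⟩ := ZFSet.pair_mem_prod.1 (hf.1 hxy)
  obtain ⟨ξ, hξ, hξU, rfl⟩ := (mem_val_on h.ne).1 hx
  obtain ⟨η, hη, hηU, rfl⟩ := (mem_val_on h.ne).1 hy
  exact (mem_val_on h.ne).2 ⟨η, hb ξ hξ η hη hξU hηU hxy, hηU, rfl⟩

omit h in
lemma not_onto_of_bdd {E : Set ZFSet.{0}} {κ : ZFSet.{0}} (hb : ∀ β ∈ κ, ∀ f ∈ E,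
    ZFSet.IsFunc β κ f → ∃ γ ∈ κ, ∀ x y, ZFSet.pair x y ∈ f → y ∈ γ) :
    ∀ β ∈ κ, ∀ f ∈ E, ¬ IsOnto β κ f := by
  rintro β hβ f hf ⟨h1, h2⟩
  obtain ⟨γ, hγ, h3⟩ := hb β hβ f hf h1
  obtain ⟨x, _, hx⟩ := h2 γ hγ
  exact ZFSet.mem_irrefl γ (h3 x γ hx)

lemma card_of_bddV {lam : Ordinal.{0}} (hlam : on lam ∈ U) (hB : ∀ μ < lam, BddV μ lam) :
    IsCard (Mod U H NN) (val U H (on lam)) :=
  ⟨on_Mod hlam, isOrdinal_val_on h.ne _, not_onto_of_bdd (bddV_reg h hlam hB)⟩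

end

/-! ### `ω` -/

/-- finite ordinals -/
noncomputable def num (n : ℕ) : ZFSet.{0} := ZFSet.mk (PSet.ofNat n)

lemma num_zero : num 0 = ∅ := rfl
lemma num_succ (n : ℕ) : num (n + 1) = insert (num n) (num n) := rfl

lemma mem_omega {x : ZFSet.{0}} : x ∈ ZFSet.omega ↔ ∃ n, x = num n := by
  constructor
  · refine Quotient.inductionOn x fun y => ?_
    rintro ⟨⟨n⟩, hn⟩
    exact ⟨n, ZFSet.sound hn⟩
  · rintro ⟨n, rfl⟩
    induction n with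
    | zero => exact ZFSet.omega_zero
    | succ n ih => exact ZFSet.omega_succ ih

section
variable {U : Set Nm} {H : Set Cond} (h : Good1 U H)
include h

lemma val_nat (n : ℕ) : val U H (on n) = num n := by
  have hU : ∀ n : ℕ, on n ∈ U := fun n => seed_U (h.nat n)
  induction n with
  | zero =>
    rw [num_zero, ZFSet.eq_empty]
    intro y hy
    obtain ⟨β, hβ, _⟩ := (mem_val_on h.ne).1 hy
    simp at hβ
  | succ n ih =>
    rw [num_succ, ← ih]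
    ext x
    rw [ZFSet.mem_insert_iff, mem_val_on h.ne, mem_val_on h.ne]
    constructor
    · rintro ⟨s, hs, h1, rfl⟩
      have hs' : s < Order.succ (n : Ordinal.{0}) := by
        rw [Order.succ_eq_add_one]
        exact_mod_cast hs
      rcases (Order.lt_succ_iff.1 hs').lt_or_eq with h2 | h2
      · exact Or.inr ⟨s, h2, h1, rfl⟩
      · left
        rw [h2]
    · rintro (rfl | ⟨s, hs, h1, rfl⟩)
      · exact ⟨n, by exact_mod_cast Nat.lt_succ_self n, hU n, rfl⟩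
      · exact ⟨s, hs.trans (by exact_mod_cast Nat.lt_succ_self n), h1, rfl⟩

lemma val_omega : val U H (on Ordinal.omega0) = ZFSet.omega := by
  ext x
  rw [mem_omega, mem_val_on h.ne]
  constructor
  · rintro ⟨β, hβ, _, rfl⟩
    obtain ⟨n, rfl⟩ := Ordinal.lt_omega0.1 hβ
    exact ⟨n, val_nat h n⟩
  · rintro ⟨n, rfl⟩
    exact ⟨n, Ordinal.natCast_lt_omega0 _, seed_U (h.nat n), (val_nat h n).symm⟩

/-- `aleph_n` of the model -/
noncomputable def al (U : Set Nm) (H : Set Cond) (n : ℕ) : ZFSet.{0} := val U H (on (kap n).ord)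

omit h in
lemma al_def (n : ℕ) : al U H n = val U H (on (kap n).ord) := rfl

lemma al_zero : al U H 0 = ZFSet.omega := by
  rw [al_def, kap_zero, ord_aleph0, val_omega h]

lemma kap_U (n : ℕ) : on (kap n).ord ∈ U := seed_U (h.kap n)

lemma kapW_U : on kapW.ord ∈ U := seed_U h.kapW

/-- functions from a finite ordinal to `ω` are bounded -/
lemma omega_reg : ∀ β ∈ al U H 0, ∀ f ∈ Mod U H NN, ZFSet.IsFunc β (al U H 0) f →
    ∃ γ ∈ al U H 0, ∀ x y, ZFSet.pair x y ∈ f → y ∈ γ := by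
  intro β hβ f _ hf
  rw [al_zero h, mem_omega] at hβ
  obtain ⟨m, rfl⟩ := hβ
  have key : ∀ k : ℕ, ∃ N : ℕ, ∀ i < k, ∀ n : ℕ, ZFSet.pair (num i) (num n) ∈ f → n < N := by
    intro k
    induction k with
    | zero => exact ⟨0, fun i hi => absurd hi (Nat.not_lt_zero i)⟩
    | succ k ih =>
      obtain ⟨N, hN⟩ := ih
      by_cases hex : ∃ n : ℕ, ZFSet.pair (num k) (num n) ∈ f
      · obtain ⟨n₀, hn₀⟩ := hex
        refine ⟨max N (n₀ + 1), fun i hi n hn => ?_⟩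
        rcases Nat.lt_succ_iff_lt_or_eq.1 hi with h1 | rfl
        · exact lt_max_of_lt_left (hN i h1 n hn)
        · have h2 := func_unique hf hn hn₀
          rw [← val_nat h, ← val_nat h] at h2
          have h3 := on_inj' h (seed_U (h.nat _)) (seed_U (h.nat _)) h2
          have h4 : n = n₀ := by exact_mod_cast h3
          rw [h4]
          exact lt_max_of_lt_right (Nat.lt_succ_self _)
      · refine ⟨N, fun i hi n hn => ?_⟩
        rcases Nat.lt_succ_iff_lt_or_eq.1 hi with h1 | rfl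
        · exact hN i h1 n hn
        · exact absurd ⟨n, hn⟩ hex
  obtain ⟨N, hN⟩ := key m
  refine ⟨num N, by rw [al_zero h, mem_omega]; exact ⟨N, rfl⟩, fun x y hxy => ?_⟩
  obtain ⟨hx, hy⟩ := ZFSet.pair_mem_prod.1 (hf.1 hxy)
  rw [al_zero h, mem_omega] at hy
  obtain ⟨n, rfl⟩ := hy
  rw [← val_nat h] at hx
  obtain ⟨ξ, hξ, _, rfl⟩ := (mem_val_on h.ne).1 hx
  obtain ⟨i, rfl⟩ := Ordinal.lt_omega0.1 (hξ.trans (Ordinal.natCast_lt_omega0 m))
  rw [val_nat h] at hxy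
  have := hN i (by exact_mod_cast hξ) n hxy
  rw [← val_nat h, ← val_nat h]
  exact (val_on_mem h.at (seed_U (h.nat n))).2 (by exact_mod_cast this)

/-- `aleph_n` is regular in the model -/
lemma al_bdd (n : ℕ) : ∀ β ∈ al U H n, ∀ f ∈ Mod U H NN, ZFSet.IsFunc β (al U H n) f →
    ∃ γ ∈ al U H n, ∀ x y, ZFSet.pair x y ∈ f → y ∈ γ := by
  cases n with
  | zero => exact omega_reg h
  | succ n => exact bddV_reg h (kap_U h _) (fun μ hμ => bddV_kap hμ)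

lemma al_isCard (n : ℕ) : IsCard (Mod U H NN) (al U H n) :=
  ⟨on_Mod (kap_U h n), isOrdinal_val_on h.ne _, not_onto_of_bdd (al_bdd h n)⟩

lemma omega_sub_iff {α : Ordinal.{0}} (hα : on α ∈ U) :
    ZFSet.omega ⊆ val U H (on α) ↔ Ordinal.omega0 ≤ α := by
  rw [← val_omega h]
  have hωU : on Ordinal.omega0 ∈ U := seed_U h.om
  constructor
  · intro hs
    by_contra hcon
    have h1 := (val_on_mem h.at hα).2 (not_le.1 hcon)
    exact ZFSet.mem_irrefl _ (hs h1)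
  · intro hle x hx
    obtain ⟨β, hβ, h1, rfl⟩ := (mem_val_on h.ne).1 hx
    exact (mem_val_on h.ne).2 ⟨β, hβ.trans_le hle, h1, rfl⟩

lemma al_inf (n : ℕ) : IsInfCard (Mod U H NN) (al U H n) := by
  refine ⟨al_isCard h n, (omega_sub_iff h (kap_U h n)).2 ?_⟩
  rw [omega0_le_ord]
  exact al_kap n

/-- the cardinals of the model below `κ_ω` -/
lemma card_below {α : Ordinal.{0}} (hα : on α ∈ U) (hω : Ordinal.omega0 ≤ α)
    (hc : IsCard (Mod U H NN) (val U H (on α))) : (∃ n, α = (kap n).ord) ∨ α = kapW.ord ∨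
      α = kapT.ord ∨ (∃ c : Cardinal.{0}, α = c.ord ∧ 2 ^ kapT < c) :=
  not_bad_cases hω (fun hb => bad_not_card h hα hb hc)

lemma al_succ (n : ℕ) : IsSuccOf (Mod U H NN) (al U H n) (al U H (n + 1)) := by
  refine ⟨al_inf h n, al_isCard h _,
    (val_on_mem h.at (kap_U h n)).2 (ord_lt_ord.2 (kap_lt n)), ?_⟩
  intro ν hν hc hμ
  obtain ⟨β, hβ, hβU, rfl⟩ := (mem_val_on h.ne).1 hν
  have h1 : (kap n).ord < β := (val_on_mem h.at (kap_U h n)).1 hμ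
  exact bad_not_card h hβU (bad_of_collapse (j := some n) h1 (lt_kap_succ.1 (lt_ord.1 hβ))) hc

/-- `aleph_ω` of the model -/
noncomputable def alW (U : Set Nm) (H : Set Cond) : ZFSet.{0} := val U H (on kapW.ord)

omit h in
lemma alW_def : alW U H = val U H (on kapW.ord) := rfl

lemma mem_alW {x : ZFSet.{0}} : x ∈ alW U H ↔ ∃ n, x ∈ al U H n := by
  rw [alW_def, mem_val_on h.ne]
  constructor
  · rintro ⟨β, hβ, hβU, rfl⟩
    obtain ⟨n, hn⟩ := exists_lt_kap (lt_ord.1 hβ)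
    exact ⟨n, (mem_val_on h.ne).2 ⟨β, lt_ord.2 hn, hβU, rfl⟩⟩
  · rintro ⟨n, hn⟩
    obtain ⟨β, hβ, hβU, rfl⟩ := (mem_val_on h.ne).1 hn
    exact ⟨β, hβ.trans (ord_lt_ord.2 (kap_lt_W n)), hβU, rfl⟩

lemma alW_isCard : IsCard (Mod U H NN) (alW U H) := by
  refine ⟨on_Mod (kapW_U h), isOrdinal_val_on h.ne _, ?_⟩
  rintro β hβ f ⟨τ, _, hτ, rfl⟩ ⟨hf, hon⟩
  obtain ⟨μ, hμ, hμU, rfl⟩ := (mem_val_on h.ne).1 hβ
  obtain ⟨n, hn⟩ := exists_lt_kap (lt_ord.1 hμ)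
  have hμn : μ < (kap (n + 1)).ord := lt_ord.2 (hn.trans (kap_lt n))
  obtain ⟨γ, hγ, hγU, hb⟩ := bdd_val h (bddV_kap hμn) hμU (kap_U h (n + 1)) hτ
    (fun x y y' => func_unique hf)
  have hγW : val U H (on γ) ∈ alW U H :=
    (mem_val_on h.ne).2 ⟨γ, hγ.trans (ord_lt_ord.2 (kap_lt_W _)), hγU, rfl⟩
  obtain ⟨x, hx, hxy⟩ := hon _ hγW
  obtain ⟨ξ, hξ, hξU, rfl⟩ := (mem_val_on h.ne).1 hx
  exact lt_irrefl _ (hb ξ hξ γ hγ hξU hγU hxy)

/-- the cofinal function `n ↦ aleph_n` -/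
lemma alW_cof : ∃ f ∈ Mod U H NN, ZFSet.IsFunc (al U H 0) (alW U H) f ∧
    ∀ γ ∈ alW U H, ∃ x y, ZFSet.pair x y ∈ f ∧ y ∉ γ := by
  have hmem : ∀ z, z ∈ val U H cofN ↔ ∃ n : ℕ, z = ZFSet.pair (num n) (al U H n) := by
    intro z
    rw [show cofN = relN Ordinal.omega0 Pool.MP_598ba0_lc.kapW.ord (ckR fun ξ η => ∃ n : ℕ, ξ = n ∧
      η = (Pool.MP_598ba0_lc.kap n).ord) from rfl, mem_relN h]
    constructor
    · rintro ⟨ξ, _, η, _, _, _, rfl, q, _, hc⟩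
      obtain ⟨n, rfl, rfl⟩ := mem_ckR.1 hc
      exact ⟨n, by rw [val_nat h, al_def]⟩
    · rintro ⟨n, rfl⟩
      obtain ⟨q, hq⟩ := h.ne
      exact ⟨n, Ordinal.natCast_lt_omega0 n, _, ord_lt_ord.2 (kap_lt_W n), seed_U (h.nat n),
        kap_U h n, by rw [val_nat h, al_def], q, hq, mem_ckR.2 ⟨n, rfl, rfl⟩⟩
  have hnum : ∀ {m n : ℕ}, num m = num n → m = n := by
    intro m n he
    rw [← val_nat h, ← val_nat h] at he
    exact_mod_cast on_inj' h (seed_U (h.nat _)) (seed_U (h.nat _)) he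
  refine ⟨val U H cofN, ⟨cofN, ckR_NN _ _ _, seed_U h.cof, rfl⟩, ⟨?_, ?_⟩, ?_⟩
  · intro z hz
    obtain ⟨n, rfl⟩ := (hmem z).1 hz
    rw [ZFSet.pair_mem_prod, al_zero h, mem_omega]
    exact ⟨⟨n, rfl⟩, (val_on_mem h.at (kap_U h n)).2 (ord_lt_ord.2 (kap_lt_W n))⟩
  · intro z hz
    rw [al_zero h, mem_omega] at hz
    obtain ⟨n, rfl⟩ := hz
    refine ⟨al U H n, (hmem _).2 ⟨n, rfl⟩, fun w hw => ?_⟩
    obtain ⟨m, hm⟩ := (hmem _).1 hw
    obtain ⟨h1, h2⟩ := ZFSet.pair_injective hm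
    rw [h2, hnum h1]
  · intro γ hγ
    obtain ⟨n, hn⟩ := (mem_alW h).1 hγ
    exact ⟨num n, al U H n, (hmem _).2 ⟨n, rfl⟩, ZFSet.mem_asymm hn⟩

/-- all successor cardinals of the model are regular -/
theorem succ_reg {μ κ : ZFSet.{0}} (hs : IsSuccOf (Mod U H NN) μ κ) : IsReg (Mod U H NN) κ := by
  obtain ⟨⟨hμc, hμω⟩, hκc, hμκ, hno⟩ := hs
  obtain ⟨μ₀, hμU, rfl⟩ := ord_eq h.at h.rk hμc.1 hμc.2.1
  obtain ⟨α, hαU, rfl⟩ := ord_eq h.at h.rk hκc.1 hκc.2.1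
  have h1 : Ordinal.omega0 ≤ μ₀ := (omega_sub_iff h hμU).1 hμω
  have h2 : μ₀ < α := (val_on_mem h.at hμU).1 hμκ
  have h3 : Ordinal.omega0 ≤ α := h1.trans h2.le
  have hinf : IsInfCard (Mod U H NN) (val U H (on α)) := ⟨hκc, (omega_sub_iff h hαU).2 h3⟩
  have hreg : ∀ c : Cardinal.{0}, α = c.ord → RegC c →
      IsReg (Mod U H NN) (val U H (on α)) := by
    rintro c rfl hc
    exact ⟨hinf, bddV_reg h hαU (fun μ hμ => hc.bdd hμ)⟩
  rcases card_below h hαU h3 hκc with ⟨n, hn⟩ | hW | hT | ⟨c, hc, hlt⟩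
  · cases n with
    | zero =>
      exfalso
      rw [kap_zero, ord_aleph0] at hn
      rw [hn] at h2
      exact absurd h2 (not_lt.2 h1)
    | succ n => exact hreg _ hn (Or.inl ⟨n, rfl⟩)
  · exfalso
    rw [hW] at h2
    obtain ⟨n, hn⟩ := exists_lt_kap (lt_ord.1 h2)
    refine hno (al U H n) ?_ (al_isCard h n) ((val_on_mem h.at hμU).2 (lt_ord.2 hn))
    rw [hW]
    exact (val_on_mem h.at (kap_U h n)).2 (ord_lt_ord.2 (kap_lt_W n))
  · exact hreg _ hT (Or.inr (Or.inl rfl))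
  · by_cases hcr : c.IsRegular
    · exact hreg _ hc (Or.inr (Or.inr ⟨hcr, hlt⟩))
    · exfalso
      have hmax : max μ₀.card (2 ^ kapT) < c := by
        refine max_lt ?_ hlt
        rw [hc] at h2
        exact lt_ord.1 h2
      have hthr : (thet μ₀).IsRegular := isRegular_succ ((al_T.trans (cantor _).le).trans
        (le_max_right _ _))
      have hth2 : 2 ^ kapT < thet μ₀ := Order.lt_succ_of_le (le_max_right _ _)
      have hthc : thet μ₀ < c := by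
        rcases (Order.succ_le_of_lt hmax).lt_or_eq with h4 | h4
        · exact h4
        · exfalso
          apply hcr
          rw [← h4]
          exact hthr
      have hμth : μ₀ < (thet μ₀).ord := lt_ord.2 (Order.lt_succ_of_le (le_max_left _ _))
      have hthU : on (thet μ₀).ord ∈ U := by
        rcases meets_TL h.th (fun _ => on μ₀) (fun _ => hμU) with
          ⟨q, hq, l, hl, μ', he, rfl⟩ | ⟨p, hp, hn⟩
        · obtain rfl := on_name_inj he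
          exact hl _ (by simp)
        · exact absurd ⟨μ₀, rfl, rfl⟩ (hn p le_rfl _)
      refine hno (val U H (on (thet μ₀).ord)) ?_
        (card_of_bddV h hthU (fun μ hμ => RegC.bdd (Or.inr (Or.inr ⟨hthr, hth2⟩)) hμ))
        ((val_on_mem h.at hμU).2 hμth)
      rw [hc]
      exact (val_on_mem h.at hthU).2 (ord_lt_ord.2 hthc)

/-- infinite cardinals below `aleph_ω` -/
lemma card_lt_alW {ν : ZFSet.{0}} (hν : ν ∈ alW U H) (hc : IsInfCard (Mod U H NN) ν) :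
    ∃ n, ν = al U H n := by
  obtain ⟨β, hβ, hβU, rfl⟩ := (mem_val_on h.ne).1 hν
  rcases card_below h hβU ((omega_sub_iff h hβU).1 hc.2) hc.1 with ⟨n, hn⟩ | hW | hT | ⟨c, hc, hlt⟩
  · exact ⟨n, by rw [al_def, hn]⟩
  · rw [hW] at hβ
    exact absurd hβ (lt_irrefl _)
  · rw [hT] at hβ
    exact absurd (ord_lt_ord.1 hβ) (not_lt.2 W_lt_T.le)
  · rw [hc] at hβ
    exact absurd (ord_lt_ord.1 hβ) (not_lt.2 ((W_lt_T.trans (cantor _)).trans hlt).le)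

end

end Pool.MP_598ba0_lc
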