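import Mathlib
import Pool.Agent.Lib.MP_598ba0_lc.Coll

/-!
# MP_598ba0_lc: no name for a uniform ultrafilter on `κ_ω`
-/

namespace Pool.MP_598ba0_lc

open Set Cardinal Name Cond

/-! ### First hits -/

open Classical in
/-- replace level `j` -/
noncomputable def Cond.rpl (p : Cond) (j : Option ℕ) (g : K j → Option (Set (K j) × (ℕ → Bool)))
    (hg : #{x // g x ≠ none} < lv j) : Cond where
  f := Function.update p.f j g
  sm i := by
    by_cases h : i = j
    · subst h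
      rw [Function.update_self]
      exact hg
    · rw [Function.update_of_ne h]
      exact p.sm i

lemma Cond.rpl_self (p : Cond) (j : Option ℕ) (g : K j → Option (Set (K j) × (ℕ → Bool)))
    (hg : #{x // g x ≠ none} < lv j) : (p.rpl j g hg).f j = g := by
  simp [Cond.rpl]

lemma Cond.rpl_le (p : Cond) {j : Option ℕ} {g : K j → Option (Set (K j) × (ℕ → Bool))}
    {hg : #{x // g x ≠ none} < lv j} (h : ∀ x v, p.f j x = some v → g x = some v) :
    p.rpl j g hg ≤ p := by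
  classical
  intro i y w hw
  by_cases hi : i = j
  · subst hi
    rw [p.rpl_self]
    exact h y w hw
  · show Function.update p.f j g i y = some w
    rw [Function.update_of_ne hi]
    exact hw

lemma mk_Iio_K {j : Option ℕ} (x : K j) : #(Iio x) < lv j := by
  have h := mk_Iio_lt x (by rw [mk_K]; exact (Ordinal.type_toType _).symm)
  rwa [mk_K] at h

/-- `ξ` is the first point of level `n` at which the value `v` of `s` has the property `T`. -/
def Hit (n : ℕ) (T : Set (K (some n)) → Prop) (s : Cond) (ξ : K (some n))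
    (v : Set (K (some n)) × (ℕ → Bool)) : Prop :=
  (∀ ξ' ≤ ξ, s.f (some n) ξ' ≠ none) ∧ s.f (some n) ξ = some v ∧ T v.1 ∧
    ∀ ξ' < ξ, ∀ w, s.f (some n) ξ' = some w → ¬ T w.1

section
variable {n : ℕ} {T : Set (K (some n)) → Prop} {s s' : Cond} {ξ ξ' : K (some n)}
  {v v' : Set (K (some n)) × (ℕ → Bool)}

lemma Hit.uniq (h : Hit n T s ξ v) (h' : Hit n T s ξ' v') : ξ = ξ' ∧ v = v' := by
  have key : ξ = ξ' := by
    rcases lt_trichotomy ξ ξ' with hlt | heq | hlt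
    · exact absurd h.2.2.1 (h'.2.2.2 ξ hlt v h.2.1)
    · exact heq
    · exact absurd h'.2.2.1 (h.2.2.2 ξ' hlt v' h'.2.1)
  subst key
  have := h.2.1
  rw [h'.2.1] at this
  exact ⟨rfl, (Option.some.inj this).symm⟩

lemma Hit.mono (h : Hit n T s ξ v) (hs : s' ≤ s) : Hit n T s' ξ v := by
  refine ⟨fun ξ' hξ' => ?_, hs _ _ _ h.2.1, h.2.2.1, fun ξ' hξ' w hw => ?_⟩
  · obtain ⟨w, hw⟩ := Option.ne_none_iff_exists'.1 (h.1 ξ' hξ')
    rw [hs _ _ _ hw]
    simp
  · obtain ⟨w', hw'⟩ := Option.ne_none_iff_exists'.1 (h.1 ξ' hξ'.le)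
    have := hs _ _ _ hw'
    rw [hw] at this
    rw [Option.some.inj this]
    exact h.2.2.2 ξ' hξ' w' hw'

lemma Hit.fl (h : Hit n T s ξ v) (b : Flip) :
    Hit n T (fl b s) ξ (v.1, fun i => xor (b (some n) ξ i) (v.2 i)) := by
  refine ⟨fun ξ' hξ' => ?_, ?_, h.2.2.1, fun ξ' hξ' w hw => ?_⟩
  · obtain ⟨w, hw⟩ := Option.ne_none_iff_exists'.1 (h.1 ξ' hξ')
    rw [fl_f, hw]
    simp
  · rw [fl_f, h.2.1]
    rfl
  · rw [fl_f] at hw
    obtain ⟨w', hw', rfl⟩ := Option.map_eq_some_iff.1 hw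
    exact h.2.2.2 ξ' hξ' w' hw'

lemma exists_Hit {A₀ : Set (K (some n))} (hA : T A₀) (s : Cond) :
    ∃ s' ≤ s, ∃ ξ v, Hit n T s' ξ v := by
  classical
  obtain ⟨ξ₀, hξ₀⟩ := s.exists_fresh (some n)
  let g : K (some n) → Option (Set (K (some n)) × (ℕ → Bool)) := fun ξ =>
    if s.f (some n) ξ = none ∧ ξ ≤ ξ₀ then some (A₀, fun _ => false) else s.f (some n) ξ
  have hg : #{x // g x ≠ none} < lv (some n) := by
    have hsub : {x | g x ≠ none} ⊆ {x | s.f (some n) x ≠ none} ∪ insert ξ₀ (Iio ξ₀) := by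
      intro x hx
      by_cases h1 : s.f (some n) x = none
      · right
        by_contra hcon
        apply hx
        have : ¬ x ≤ ξ₀ := fun h => hcon (by
          rcases h.lt_or_eq with h2 | h2
          · exact Or.inr h2
          · exact Or.inl h2)
        show (if s.f (some n) x = none ∧ x ≤ ξ₀ then some (A₀, fun _ => false)
          else s.f (some n) x) = none
        rw [if_neg (fun h => this h.2), h1]
      · exact Or.inl h1
    refine lt_of_le_of_lt (mk_le_mk_of_subset hsub) ?_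
    refine lt_of_le_of_lt (mk_union_le _ _) ?_
    refine add_lt_of_lt (al_lv _) (s.sm _) ?_
    refine lt_of_le_of_lt mk_insert_le ?_
    exact add_lt_of_lt (al_lv _) (mk_Iio_K _) (one_lt_aleph0.trans_le (al_lv _))
  let s' := s.rpl (some n) g hg
  have hs' : s'.f (some n) = g := s.rpl_self _ _ _
  have hle : s' ≤ s := s.rpl_le (fun x v hv => by
    show (if s.f (some n) x = none ∧ x ≤ ξ₀ then some (A₀, fun _ => false)
      else s.f (some n) x) = some v
    rw [if_neg (fun h => by rw [hv] at h; exact absurd h.1 (by simp)), hv])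
  have hdom : ∀ ξ ≤ ξ₀, s'.f (some n) ξ ≠ none := by
    intro ξ hξ
    rw [hs']
    show (if s.f (some n) ξ = none ∧ ξ ≤ ξ₀ then some (A₀, fun _ => false)
      else s.f (some n) ξ) ≠ none
    split_ifs with h
    · simp
    · intro h'
      exact h ⟨h', hξ⟩
  have hex : ∃ ξ, ξ ≤ ξ₀ ∧ ∃ v, s'.f (some n) ξ = some v ∧ T v.1 := by
    refine ⟨ξ₀, le_rfl, (A₀, fun _ => false), ?_, hA⟩
    rw [hs']
    show (if s.f (some n) ξ₀ = none ∧ ξ₀ ≤ ξ₀ then some (A₀, fun _ => false)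
      else s.f (some n) ξ₀) = _
    rw [if_pos ⟨hξ₀, le_rfl⟩]
  let Z : Set (K (some n)) := {ξ | ξ ≤ ξ₀ ∧ ∃ v, s'.f (some n) ξ = some v ∧ T v.1}
  have hZ : Z.Nonempty := hex
  obtain ⟨ξ, ⟨h1, v, h2, h3⟩, hmin⟩ := WellFounded.has_min
    (wellFounded_lt (α := K (some n))) Z hZ
  refine ⟨s', hle, ξ, v, fun ξ' hξ' => hdom ξ' (hξ'.trans h1), h2, h3, fun ξ' hξ' w hw hT => ?_⟩
  exact hmin ξ' ⟨hξ'.le.trans h1, w, hw, hT⟩ hξ'

end

/-! ### Forcing ground model sets into `D` -/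

/-- `q` forces that the ground model set `X` is in `D` -/
def Fo (D : Nm) (X : Set KW) (q : Cond) : Prop := fmem (sbN kapW.ord (ck X)) D q

section
variable {D : Nm} {k : ℕ} {p : Cond}

lemma Fo.mono {X : Set KW} {q r : Cond} (h : Fo D X q) (hr : r ≤ q) : Fo D X r := fmem_mono h hr

lemma Fo.reg {X : Set KW} {q : Cond} (h : ∀ r ≤ q, ∃ s ≤ r, Fo D X s) : Fo D X q := fmem_reg h

lemma ck_NN' (X : Set KW) : sbN kapW.ord (ck X) ∈ NN :=
  sbN_NN (m := 0) (fun _ _ x q hq => by rw [mem_ck] at hq ⊢; exact hq)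

lemma cpl_ck (X : Set KW) : (fun x => cpl (ck X x)) = ck Xᶜ := by
  funext x
  ext q
  refine Iff.trans ?_ (mem_ck (X := Xᶜ) (x := x) (q := q)).symm
  show (∀ r ≤ q, r ∉ ck X x) ↔ x ∉ X
  constructor
  · intro h hx
    exact h q le_rfl (mem_ck.2 hx)
  · intro h r _ hr
    exact h (mem_ck.1 hr)

variable (h : UltW p D)
include h

lemma Fo.inter {X Y : Set KW} {q : Cond} (hq : q ≤ p) (hX : Fo D X q) (hY : Fo D Y q) :
    Fo D (X ∩ Y) q :=
  Fo.reg fun r hr => h.inter r (hr.trans hq) _ _ (ck_NN' X) (ck_NN' Y) (X ∩ Y) (hX.mono hr)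
    (hY.mono hr) (fun _ hx _ _ h1 h2 => hx ⟨mem_ck.1 h1, mem_ck.1 h2⟩)

lemma Fo.sup {X Y : Set KW} {q : Cond} (hq : q ≤ p) (hX : Fo D X q) (hY : X ⊆ Y) :
    Fo D Y q :=
  Fo.reg fun r hr => h.inter r (hr.trans hq) _ _ (ck_NN' X) (ck_NN' X) Y (hX.mono hr)
    (hX.mono hr) (fun _ hx _ _ h1 _ => hx (hY (mem_ck.1 h1)))

lemma Fo.large {X : Set KW} {q : Cond} (hq : q ≤ p) (hX : Fo D X q) : kapW ≤ #X :=
  not_lt.1 fun hlt => h.small q hq X hlt hX

lemma Fo.compl {X : Set KW} {q : Cond} (hq : q ≤ p) (hX : #X < kapW) : Fo D Xᶜ q := by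
  refine Fo.reg fun r hr => ?_
  obtain ⟨s, hs, h1 | h1⟩ := h.ultra (ck X) (ck_NN' X) r (hr.trans hq)
  · exact absurd h1 (h.small s (hs.trans (hr.trans hq)) X hX)
  · rw [cpl_ck] at h1
    exact ⟨s, hs, h1⟩

/-- remove a small set -/
lemma Fo.diff {X Y : Set KW} {q : Cond} (hq : q ≤ p) (hX : Fo D X q) (hY : #Y < kapW) :
    Fo D (X \ Y) q := hX.inter h hq (Fo.compl h hq hY)

lemma Fo.false_of {X : Set KW} {q : Cond} (hq : q ≤ p) (hX : Fo D X q) (hlt : #X < kapW) :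
    False := h.small q hq X hlt hX

/-- the flip lemma -/
lemma flip_lemma (hD : Sym k D) (m : KW → ℕ) (T : (x : KW) → Set (K (some (m x))) → Prop)
    {q : Cond} (hq : q ≤ p) : ∃ r ≤ q, ∃ r' ≤ r,
      Fo D {x | (k ≤ m x ∧ ∃ A, T x A) → ∃ ξ v, r.f (some (m x)) ξ = some v ∧ T x v.1} r' := by
  classical
  let b : KW → LowerSet Cond := fun x =>
    ⟨{s | ∃ ξ v, Hit (m x) (T x) s ξ v ∧ v.2 k = true}, by
      rintro s s' hs ⟨ξ, v, h1, h2⟩
      exact ⟨ξ, v, h1.mono hs, h2⟩⟩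
  have hb : ∀ x s, s ∈ b x ↔ ∃ ξ v, Hit (m x) (T x) s ξ v ∧ v.2 k = true := fun _ _ => Iff.rfl
  have hbN : sbN kapW.ord b ∈ NN := by
    refine sbN_NN (m := k + 1) (fun c hc x s hs => ?_)
    obtain ⟨ξ, v, h1, h2⟩ := (hb _ _).1 hs
    have h3 := h1.fl c
    rw [fl_self] at h3
    refine (hb _ _).2 ⟨ξ, _, h3, ?_⟩
    have h4 : c (some (m x)) ξ k = false := by
      by_contra hcon
      rw [Bool.not_eq_false] at hcon
      have := (hc _ _ _ hcon).1
      omega
    simp [h4, h2]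
  obtain ⟨r, hr, hcase⟩ := h.ultra b hbN q hq
  refine ⟨r, hr, ?_⟩
  let e : Flip := fun j x i => decide (i = k ∧ (∃ n, j = some n ∧ k ≤ n) ∧ r.f j x = none)
  have he : ∀ j x i, e j x i = true ↔ (i = k ∧ (∃ n, j = some n ∧ k ≤ n) ∧ r.f j x = none) :=
    fun j x i => decide_eq_true_iff
  have heG : Gm k e := by
    intro j x i hi
    obtain ⟨rfl, ⟨n, hn, hkn⟩, _⟩ := (he _ _ _).1 hi
    exact ⟨le_rfl, n, hn, hkn⟩
  have her : fl e r = r := fl_fix (fun j x hx i => by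
    by_contra hcon
    rw [Bool.not_eq_false] at hcon
    exact hx ((he _ _ _).1 hcon).2.2)
  set X : Set KW := {x | (k ≤ m x ∧ ∃ A, T x A) → ∃ ξ v, r.f (some (m x)) ξ = some v ∧ T x v.1}
    with hX
  -- transport of membership
  have trans : ∀ b' : KW → LowerSet Cond, fmem (sbN kapW.ord b') D r →
      fmem (sbN kapW.ord (fun x => pre (fl e) (b' x))) D r := by
    intro b' hb'
    have h1 : fmem (act (fl e) (sbN kapW.ord b')) (act (fl e) D) r := by
      rw [fmem_act_iff (fl_self e), her]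
      exact hb'
    rw [act_sbN] at h1
    exact fmem_congr (feq_refl _ _) ((hD e heG).feq r) h1
  have hNN : ∀ b' : KW → LowerSet Cond, sbN kapW.ord b' ∈ NN →
      sbN kapW.ord (fun x => pre (fl e) (b' x)) ∈ NN := by
    intro b' hb'
    rw [← act_sbN]
    exact NN_fl e hb'
  -- outside `X`, hits are flipped
  have hit : ∀ x ∉ X, ∀ s ≤ r, ∀ ξ v, Hit (m x) (T x) s ξ v → e (some (m x)) ξ k = true := by
    intro x hx s hs ξ v hv
    rw [hX, mem_ofPred_eq] at hx
    push Not at hx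
    obtain ⟨⟨h1, _⟩, h2⟩ := hx
    refine (he _ _ _).2 ⟨rfl, ⟨_, rfl, h1⟩, ?_⟩
    by_contra hcon
    obtain ⟨w, hw⟩ := Option.ne_none_iff_exists'.1 hcon
    have h3 := hs _ _ _ hw
    rw [hv.2.1] at h3
    have h4 := h2 ξ w hw
    rw [← Option.some.inj h3] at h4
    exact h4 hv.2.2.1
  have hitex : ∀ x ∉ X, ∀ s : Cond, ∃ s' ≤ s, ∃ ξ v, Hit (m x) (T x) s' ξ v := by
    intro x hx s
    rw [hX, mem_ofPred_eq] at hx
    push Not at hx
    obtain ⟨⟨_, A, hA⟩, _⟩ := hx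
    exact exists_Hit hA s
  have hcplN : sbN kapW.ord (fun x => cpl (b x)) ∈ NN := by
    refine sbN_NN (m := k + 1) (fun c hc x s hs => ?_)
    have hbc : ∀ x s, fl c s ∈ b x → s ∈ b x := by
      intro x s hs
      obtain ⟨ξ, v, h1, h2⟩ := (hb _ _).1 hs
      have h3 := h1.fl c
      rw [fl_self] at h3
      refine (hb _ _).2 ⟨ξ, _, h3, ?_⟩
      have h4 : c (some (m x)) ξ k = false := by
        by_contra hcon
        rw [Bool.not_eq_false] at hcon
        have := (hc _ _ _ hcon).1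
        omega
      simp [h4, h2]
    intro t ht htb
    refine mem_cpl.1 hs (fl c t) ((fl c).monotone ht) (hbc x _ ?_)
    rwa [fl_self]
  rcases hcase with hm | hm
  · refine h.inter r (hr.trans hq) b (fun x => pre (fl e) (b x)) hbN (hNN _ hbN) X hm
      (trans b hm) (fun x hx s hs h1 h2 => ?_)
    obtain ⟨ξ, v, h3, h4⟩ := (hb _ _).1 h1
    obtain ⟨ξ', v', h5, h6⟩ := (hb _ _).1 (mem_pre.1 h2)
    obtain ⟨rfl, rfl⟩ := (h3.fl e).uniq h5
    have h7 := hit x hx s hs ξ v h3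
    simp [h7, h4] at h6
  · refine h.inter r (hr.trans hq) (fun x => cpl (b x)) (fun x => pre (fl e) (cpl (b x))) hcplN
      (hNN _ hcplN) X hm (trans _ hm) (fun x hx s hs h1 h2 => ?_)
    obtain ⟨s', hs', ξ, v, h3⟩ := hitex x hx s
    have h7 := hit x hx s' (hs'.trans hs) ξ v h3
    cases h4 : v.2 k with
    | true => exact mem_cpl.1 h1 s' hs' ((hb _ _).2 ⟨ξ, v, h3, h4⟩)
    | false =>
      refine mem_cpl.1 (mem_pre.1 h2) (fl e s') ((fl e).monotone hs') ((hb _ _).2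
        ⟨ξ, _, h3.fl e, ?_⟩)
      simp [h7, h4]

/-- Claim A: `D` concentrates on few fibres of a function -/
lemma claimA (hD : Sym k D) {β : Type} (F : KW → β) {j : ℕ} (hj : k ≤ j) (S : Set β)
    (hS : #S ≤ 2 ^ kap j) {q : Cond} (hq : q ≤ p) (hF : Fo D (F ⁻¹' S) q) :
    ∃ r ≤ q, ∃ S' ⊆ S, #S' < kap j ∧ Fo D (F ⁻¹' S') r := by
  classical
  by_cases hne : S.Nonempty
  swap
  · rw [not_nonempty_iff_eq_empty] at hne
    refine ⟨q, le_rfl, S, le_rfl, ?_, hF⟩
    rw [hne, mk_eq_zero]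
    exact aleph0_pos.trans_le (al_kap j)
  have hc : #S ≤ #(Set (K (some j))) := by rwa [mk_set, mk_K]
  obtain ⟨g⟩ := (Cardinal.le_def _ _).1 hc
  have : Nonempty S := hne.to_subtype
  let c : Set (K (some j)) → S := Function.invFun g
  have hcg : ∀ y, c (g y) = y := Function.leftInverse_invFun g.injective
  obtain ⟨r, hr, r', hr', hX⟩ := flip_lemma h hD (fun _ => j)
    (fun x A => (c A : β) = F x) hq
  let S' : Set β := {y | ∃ ξ v, r.f (some j) ξ = some v ∧ (c v.1 : β) = y}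
  refine ⟨r', hr'.trans hr, S', ?_, ?_, ?_⟩
  · rintro _ ⟨ξ, v, _, rfl⟩
    exact (c v.1).2
  · have hsub : S' ⊆ range (fun ξ : {ξ // r.f (some j) ξ ≠ none} =>
        (c ((r.f (some j) ξ.1).get (Option.isSome_iff_ne_none.2 ξ.2)).1 : β)) := by
      rintro _ ⟨ξ, v, hv, rfl⟩
      refine ⟨⟨ξ, by rw [hv]; simp⟩, ?_⟩
      simp [hv]
    exact lt_of_le_of_lt (mk_le_mk_of_subset hsub) (lt_of_le_of_lt mk_range_le (r.sm (some j)))
  · have hle := hr'.trans (hr.trans hq)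
    refine ((hX.inter h hle ((hF.mono hr).mono hr')).sup h hle) ?_
    rintro x ⟨h1, h2⟩
    obtain ⟨ξ, v, h3, h4⟩ := h1 ⟨hj, g ⟨F x, h2⟩, by rw [hcg]⟩
    exact ⟨ξ, v, h3, h4⟩

/-- Claim A, iterated -/
lemma claimA' (hD : Sym k D) {β : Type} (F : KW → β) {j : ℕ} (hj : k ≤ j) (S : Set β)
    (hS : #S ≤ 2 ^ kap j) {q : Cond} (hq : q ≤ p) (hF : Fo D (F ⁻¹' S) q) :
    ∃ r ≤ q, ∃ S' ⊆ S, #S' < kap k ∧ Fo D (F ⁻¹' S') r := by
  induction j, hj using Nat.le_induction generalizing S q with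
  | base => exact claimA h hD F le_rfl S hS hq hF
  | succ j hj ih =>
    obtain ⟨r, hr, S', hS', hc, hF'⟩ := claimA h hD F (hj.trans (Nat.le_succ j)) S hS hq hF
    obtain ⟨r', hr', S'', hS'', hc', hF''⟩ := ih S' (lt_kap_succ.1 hc) (hr.trans hq) hF'
    exact ⟨r', hr'.trans hr, S'', hS''.trans hS', hc', hF''⟩

end

/-! ### The functions `KW → ℕ` with small fibres -/

/-- the fibre over `s` has at most `2^{κ_s}` elements -/
def Phi (φ : KW → ℕ) : Prop := ∀ s, #{x // φ x = s} ≤ 2 ^ kap s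

lemma Phi.le_card {φ : KW → ℕ} (h : Phi φ) (s : ℕ) : #{x | φ x ≤ s} ≤ 2 ^ kap s := by
  induction s with
  | zero =>
    refine (mk_le_mk_of_subset (t := {x | φ x = 0}) (fun x hx => ?_)).trans (h 0)
    exact Nat.le_zero.1 hx
  | succ s ih =>
    have hsub : {x | φ x ≤ s + 1} ⊆ {x | φ x ≤ s} ∪ {x | φ x = s + 1} := by
      intro x hx
      rcases Nat.le_succ_iff.1 (show φ x ≤ s + 1 from hx) with h1 | h1
      · exact Or.inl h1
      · exact Or.inr h1
    refine (mk_le_mk_of_subset hsub).trans ((mk_union_le _ _).trans ?_)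
    refine add_le_of_le (al_two _) (ih.trans ?_) (h (s + 1))
    exact power_le_power_left two_ne_zero (kap_lt s).le

lemma Phi.small {φ : KW → ℕ} (h : Phi φ) (s : ℕ) : #{x | φ x ≤ s} < kapW :=
  (h.le_card s).trans_lt (two_kap_lt_W s)

lemma exists_Phi : ∃ φ, Phi φ := by
  classical
  have hex : ∀ x : KW, ∃ n, od x < (kap n).ord := fun x => by
    obtain ⟨n, hn⟩ := exists_lt_kap (lt_ord.1 (od_lt x))
    exact ⟨n, lt_ord.2 hn⟩
  refine ⟨fun x => Nat.find (hex x), fun s => ?_⟩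
  have hlt : ∀ x : {x : KW // Nat.find (hex x) = s}, od x.1 < (kap s).ord := fun x => by
    have := Nat.find_spec (hex x.1)
    rwa [x.2] at this
  choose g hg using fun x : {x : KW // Nat.find (hex x) = s} =>
    od_surj (α := (kap s).ord) (hlt x)
  have hinj : Function.Injective g := by
    intro x y hxy
    have h1 := hg x
    rw [hxy, hg y] at h1
    exact Subtype.ext (od_inj.1 h1.symm)
  refine (mk_le_of_injective hinj).trans ?_
  rw [mk_toType, card_ord]
  exact (cantor _).le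

lemma exists_lower {I : Type} [Nonempty I] {m : ℕ} (hI : #I ≤ 2 ^ kap m) (φ : I → KW → ℕ)
    (hφ : ∀ i, Phi (φ i)) : ∃ ψ, Phi ψ ∧ ∀ i x, ψ x ≤ max m (φ i x) := by
  refine ⟨fun x => max m (⨅ i, φ i x), fun s => ?_, fun i x => max_le_max le_rfl
    (ciInf_le ⟨0, fun _ _ => Nat.zero_le _⟩ i)⟩
  by_cases hs : s < m
  · have : IsEmpty {x // max m (⨅ i, φ i x) = s} := ⟨fun x => by
      have := x.2
      omega⟩
    rw [mk_eq_zero]
    exact zero_le
  · rw [not_lt] at hs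
    have hsub : {x | max m (⨅ i, φ i x) = s} ⊆ ⋃ i, {x | φ i x ≤ s} := by
      intro x hx
      rw [mem_iUnion]
      obtain ⟨i, hi⟩ := ciInf_mem (fun i => φ i x)
      refine ⟨i, ?_⟩
      show φ i x ≤ s
      have hx' : max m (⨅ i, φ i x) = s := hx
      rw [show φ i x = ⨅ i, φ i x from hi]
      omega
    refine (mk_le_mk_of_subset hsub).trans ((mk_iUnion_le _).trans ?_)
    refine (mul_le_mul' (hI.trans (power_le_power_left two_ne_zero (kap_mono hs)))
      (ciSup_le' fun i => (hφ i).le_card s)).trans ?_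
    exact (mul_eq_self (al_two s)).le

/-- transfinite recursion -/
lemma exists_rec {I : Type} [LinearOrder I] [WellFoundedLT I] {A : Type} [Nonempty A]
    (G : A → Prop) (R : A → A → Prop)
    (step : ∀ i : I, ∀ f : I → A, (∀ j < i, G (f j)) → (∀ j < i, ∀ j' < j, R (f j') (f j)) →
      ∃ a, G a ∧ ∀ j < i, R (f j) a) :
    ∃ f : I → A, (∀ i, G (f i)) ∧ ∀ i, ∀ j < i, R (f j) (f i) := by
  classical
  let F : (i : I) → ((j : I) → j < i → A) → A := fun i f =>
    if h : ∃ a, G a ∧ ∀ j (hj : j < i), R (f j hj) a then h.choose else Classical.arbitrary A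
  let f : I → A := (wellFounded_lt (α := I)).fix F
  have hf : ∀ i, f i = F i (fun j _ => f j) := fun i => (wellFounded_lt (α := I)).fix_eq F i
  have key : ∀ i, G (f i) ∧ ∀ j < i, R (f j) (f i) := by
    intro i
    induction i using WellFoundedLT.induction with
    | _ i ih =>
      obtain ⟨a, ha⟩ := step i f (fun j hj => (ih j hj).1) (fun j hj => (ih j hj).2)
      have h : ∃ a, G a ∧ ∀ j (hj : j < i), R (f j) a := ⟨a, ha⟩
      have : f i = h.choose := by
        rw [hf i]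
        exact dif_pos h
      rw [this]
      exact h.choose_spec
  exact ⟨f, fun i => (key i).1, fun i => (key i).2⟩

section
variable {D : Nm} {k : ℕ} {p : Cond} (h : UltW p D)
include h

/-- going strictly below a small family, deciding only a tail -/
lemma step_lemma (hno : ∀ q ≤ p, ∀ φ, Phi φ → ∃ r ≤ q, ∃ ψ, Phi ψ ∧ Fo D {x | ψ x < φ x} r)
    {m : ℕ} {I : Type} [Nonempty I] (hI : #I ≤ 2 ^ kap m) (φ : I → KW → ℕ)
    (hφ : ∀ i, Phi (φ i)) (t : Tl m) (ht : (⟨p⟩ : Tl m) ≤ t) :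
    ∃ t', t ≤ t' ∧ ∃ ψ, Phi ψ ∧ ∀ i, Fo D {x | ψ x < φ i x} (mrg p t') := by
  obtain ⟨ψ₀, hψ₀, hle₀⟩ := exists_lower hI φ hφ
  obtain ⟨t', htt, hdec⟩ := tail_dec (m := m) (J := Lo m) (mk_Lo_le m)
    (fun a t => ∃ ψ, Phi ψ ∧ Fo D {x | ψ x < ψ₀ x} (mrg a.1 t))
    (fun a t t' ⟨ψ, h1, h2⟩ hle => ⟨ψ, h1, h2.mono (mrg_mono' le_rfl hle)⟩) t
  have hq : mrg p t' ≤ p := by
    have := mrg_mono' (m := m) (le_refl p) (ht.trans htt)
    rwa [mrg_self] at this
  have hdense : ∀ r ≤ mrg p t', ∃ r' ≤ r, ∃ a : Lo m,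
      (∃ ψ, Phi ψ ∧ Fo D {x | ψ x < ψ₀ x} (mrg a.1 t')) ∧ r' ≤ mrg a.1 t' := by
    intro r hr
    obtain ⟨r', hr', ψ, h1, h2⟩ := hno r (hr.trans hq) ψ₀ hψ₀
    have htr : t' ≤ (⟨r'⟩ : Tl m) := le_trans tl_mrg (tl_mono (hr'.trans hr))
    have hmr : mrg (toLo m r').1 (⟨r'⟩ : Tl m) = r' := by
      show mrg (low m r') _ = r'
      rw [mrg_low, mrg_self]
    exact ⟨r', hr', toLo m r', hdec _ _ htr ⟨ψ, h1, by rw [hmr]; exact h2⟩,
      le_mrg (le_low r') htr⟩
  let A := {a : Lo m // ∃ ψ, Phi ψ ∧ Fo D {x | ψ x < ψ₀ x} (mrg a.1 t')}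
  have hAne : Nonempty A := by
    obtain ⟨_, _, a, ha, _⟩ := hdense _ le_rfl
    exact ⟨⟨a, ha⟩⟩
  have hAc : #A ≤ 2 ^ kap m := (mk_subtype_le _).trans (mk_Lo_le m)
  choose ψ' h1 h2 using fun a : A => a.2
  obtain ⟨ψ₁, hψ₁, hle₁⟩ := exists_lower hAc ψ' h1
  refine ⟨t', htt, ψ₁, hψ₁, fun i => Fo.reg fun r hr => ?_⟩
  obtain ⟨r', hr', a, ha, hra⟩ := hdense r hr
  have hrp := hr'.trans (hr.trans hq)
  refine ⟨r', hr', Fo.sup h hrp ((((h2 ⟨a, ha⟩).mono hra).diff h hrp (hψ₀.small m)).diff h hrp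
    ((hφ i).small m)) ?_⟩
  rintro x ⟨⟨h3, h4⟩, h5⟩
  have h3' : ψ' ⟨a, ha⟩ x < ψ₀ x := h3
  have h4' : ¬ ψ₀ x ≤ m := h4
  have h5' : ¬ φ i x ≤ m := h5
  have h6 := hle₁ ⟨a, ha⟩ x
  have h7 := hle₀ i x
  show ψ₁ x < φ i x
  omega

/-- there is a `D`-minimal function in `Phi` -/
lemma exists_min (hD : Sym k D) : ∃ q ≤ p, ∃ φ, Phi φ ∧ ∀ r ≤ q, ∀ ψ, Phi ψ →
    ¬ Fo D {x | ψ x < φ x} r := by
  classical
  by_contra hcon
  have hno : ∀ q ≤ p, ∀ φ, Phi φ → ∃ r ≤ q, ∃ ψ, Phi ψ ∧ Fo D {x | ψ x < φ x} r := by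
    intro q hq φ hφ
    by_contra hc
    push Not at hc
    exact hcon ⟨q, hq, φ, hφ, hc⟩
  obtain ⟨φ₀, hφ₀⟩ := exists_Phi
  set m := k + 1 with hm
  let A := Tl m × (KW → ℕ)
  have : Nonempty A := ⟨(⟨p⟩, φ₀)⟩
  obtain ⟨f, hG, hR⟩ := exists_rec (I := K (some m)) (A := A)
    (fun a => (⟨p⟩ : Tl m) ≤ a.1 ∧ Phi a.2)
    (fun a a' => a.1 ≤ a'.1 ∧ Fo D {x | a'.2 x < a.2 x} (mrg p a'.1)) (by
      intro i f hG hR
      let J := Option {j // j < i}
      have hJ : #J ≤ 2 ^ kap m := by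
        rw [mk_option]
        refine add_le_of_le (al_two m) ?_ (one_le_aleph0.trans (al_two m))
        exact (mk_Iio_K i).le.trans (cantor _).le
      let F : J → A := fun j => j.elim (⟨p⟩, φ₀) (fun j => f j.1)
      have hFG : ∀ j : J, (⟨p⟩ : Tl m) ≤ (F j).1 ∧ Phi (F j).2 := by
        intro j
        cases j with
        | none => exact ⟨le_rfl, hφ₀⟩
        | some j => exact hG j.1 j.2
      obtain ⟨u, hu⟩ := Tl.chain hJ (fun j => (F j).1) (fun j j' => by
        cases j with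
        | none => exact Or.inl (hFG j').1
        | some j =>
          cases j' with
          | none => exact Or.inr (hFG (some j)).1
          | some j' =>
            rcases lt_trichotomy j.1 j'.1 with h1 | h1 | h1
            · exact Or.inl (hR j'.1 j'.2 j.1 h1).1
            · left
              show (f j.1).1 ≤ (f j'.1).1
              rw [h1]
            · exact Or.inr (hR j.1 j.2 j'.1 h1).1)
      obtain ⟨t', ht', ψ, hψ, hlt⟩ := step_lemma h hno hJ (fun j => (F j).2)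
        (fun j => (hFG j).2) u (hu none)
      exact ⟨(t', ψ), ⟨(hu none).trans ht', hψ⟩, fun j hj =>
        ⟨(hu (some ⟨j, hj⟩)).trans ht', hlt (some ⟨j, hj⟩)⟩⟩)
  have hI : #(K (some m)) = kap m := mk_K _
  obtain ⟨u, hu⟩ := Tl.chain (m := m) (J := K (some m)) (hI.le.trans (cantor _).le)
    (fun i => (f i).1) (fun i j => by
      rcases lt_trichotomy i j with h1 | h1 | h1
      · exact Or.inl (hR j i h1).1
      · left
        rw [h1]
      · exact Or.inr (hR i j h1).1)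
  have hne : Nonempty (K (some m)) := by
    rw [← mk_ne_zero_iff, hI]
    exact (aleph0_pos.trans_le (al_kap m)).ne'
  obtain ⟨i₀⟩ := hne
  have hq : mrg p u ≤ p := by
    have := mrg_mono' (m := m) (le_refl p) ((hG i₀).1.trans (hu i₀))
    rwa [mrg_self] at this
  have hlt : ∀ i, ∀ j < i, Fo D {x | (f i).2 x < (f j).2 x} (mrg p u) := fun i j hj =>
    (hR i j hj).2.mono (mrg_mono' le_rfl (hu i))
  let F : KW → (K (some m) → ℕ) := fun x i => (f i).2 x
  have hc1 : #(univ : Set (K (some m) → ℕ)) ≤ 2 ^ kap m := by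
    rw [mk_univ, ← power_def, hI, mk_nat]
    refine (power_le_power_right (al_two m)).trans ?_
    rw [two_pow_self]
  obtain ⟨r, hr, S, _, hS, hF⟩ := claimA' h hD F (j := m) (by omega) univ hc1 hq (by
    have h0 : #(∅ : Set KW) < kapW := by
      rw [mk_eq_zero]
      exact aleph0_pos.trans_le al_W
    have := Fo.compl h hq h0
    rwa [compl_empty] at this)
  have hnotinj : ¬ Function.Injective (fun (i : K (some m)) (y : S) => y.1 i) := by
    intro hinj
    have h1 := mk_le_of_injective hinj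
    rw [hI, ← power_def, mk_nat] at h1
    have h2 : (ℵ₀ : Cardinal.{0}) ^ #S ≤ 2 ^ kap k := by
      refine (power_le_power_right (al_two k)).trans ?_
      refine (power_le_power_left (power_ne_zero _ two_ne_zero) hS.le).trans ?_
      rw [two_pow_self]
    exact absurd (h1.trans h2) (not_le.2 (two_lt k))
  have hfin : ∀ i j, j < i → (fun y : S => y.1 i) = (fun y : S => y.1 j) → False := by
    intro i j hij he
    have h1 := ((hlt i j hij).mono hr).inter h (hr.trans hq) hF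
    refine Fo.false_of h (hr.trans hq) h1 ?_
    have h2 : {x | (f i).2 x < (f j).2 x} ∩ F ⁻¹' S = ∅ := by
      rw [eq_empty_iff_forall_notMem]
      rintro x ⟨h3, h4⟩
      have h5 := congrFun he ⟨F x, h4⟩
      have h6 : (f i).2 x = (f j).2 x := h5
      have h7 : (f i).2 x < (f j).2 x := h3
      omega
    rw [h2, mk_eq_zero]
    exact aleph0_pos.trans_le al_W
  apply hnotinj
  intro i j he
  rcases lt_trichotomy i j with h1 | h1 | h1
  · exact (hfin j i h1 he.symm).elim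
  · exact h1
  · exact (hfin i j h1 he).elim

/-- there is no name for a uniform ultrafilter on `κ_ω` -/
theorem no_UltW (hD : Sym k D) : False := by
  classical
  obtain ⟨q, hq, φ, hφ, hmin⟩ := exists_min h hD
  have hg : ∀ s : ℕ, Nonempty ({x : KW // φ x = s} ↪ Set (K (some s))) := fun s =>
    (Cardinal.le_def {x : KW // φ x = s} (Set (K (some s)))).1
      (by rw [mk_set, mk_K]; exact hφ s)
  let g : (s : ℕ) → ({x : KW // φ x = s} ↪ Set (K (some s))) := fun s => (hg s).some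
  obtain ⟨r, hr, r', hr', hX⟩ := flip_lemma h hD φ (fun x A => A = g (φ x) ⟨x, rfl⟩) hq
  have hrp : r' ≤ p := hr'.trans (hr.trans hq)
  let X₁ : Set KW := {x | k < φ x ∧ ∃ ξ v, r.f (some (φ x)) ξ = some v ∧
    v.1 = g (φ x) ⟨x, rfl⟩}
  have hX₁ : Fo D X₁ r' := by
    refine (hX.diff h hrp (hφ.small k)).sup h hrp ?_
    rintro x ⟨h1, h2⟩
    have h2' : ¬ φ x ≤ k := h2
    exact ⟨by omega, h1 ⟨by omega, _, rfl⟩⟩
  let ψ : KW → ℕ := fun x => if x ∈ X₁ then φ x - 1 else φ x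
  have hψ : Phi ψ := by
    intro s
    let Y : Set KW := {x | φ x = s + 1 ∧ ∃ ξ v, r.f (some (φ x)) ξ = some v ∧
      v.1 = g (φ x) ⟨x, rfl⟩}
    have hsub : {x | ψ x = s} ⊆ {x | φ x = s} ∪ Y := by
      intro x hx
      have hx' : (if x ∈ X₁ then φ x - 1 else φ x) = s := hx
      by_cases h1 : x ∈ X₁
      · rw [if_pos h1] at hx'
        right
        refine ⟨?_, h1.2⟩
        have := h1.1
        omega
      · rw [if_neg h1] at hx'
        exact Or.inl hx'
    refine (mk_le_mk_of_subset hsub).trans ((mk_union_le _ _).trans ?_)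
    refine add_le_of_le (al_two s) (hφ s) ?_
    have hY : ∀ x : Y, ∃ ξ, ∃ v, r.f (some (s + 1)) ξ = some v ∧ v.1 = g (s + 1) ⟨x.1, x.2.1⟩ := by
      have aux : ∀ (s' : ℕ) (x : KW) (hx : φ x = s'), (∃ ξ v, r.f (some (φ x)) ξ = some v ∧
          v.1 = g (φ x) ⟨x, rfl⟩) → ∃ ξ v, r.f (some s') ξ = some v ∧ v.1 = g s' ⟨x, hx⟩ := by
        rintro s' x rfl hx
        exact hx
      intro x
      exact aux _ _ x.2.1 x.2.2
    choose ξ v h1 h2 using hY
    have hinj : Function.Injective (fun x : Y =>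
        (⟨ξ x, by rw [h1 x]; simp⟩ : {y // r.f (some (s + 1)) y ≠ none})) := by
      intro x y hxy
      have h3 : ξ x = ξ y := congrArg Subtype.val hxy
      have h4 := h1 x
      rw [h3, h1 y] at h4
      have h5 := Option.some.inj h4
      have h6 : g (s + 1) ⟨x.1, x.2.1⟩ = g (s + 1) ⟨y.1, y.2.1⟩ := by
        rw [← h2 x, ← h2 y, h5]
      have h7 := (g (s + 1)).injective h6
      have h8 : (x : KW) = y := (Subtype.mk.injEq _ _ _ _).mp h7
      exact Subtype.ext h8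
    exact lt_kap_succ.1 (lt_of_le_of_lt (mk_le_of_injective hinj) (r.sm (some (s + 1))))
  refine hmin r' (hr'.trans hr) ψ hψ (hX₁.sup h hrp ?_)
  intro x hx
  show (if x ∈ X₁ then φ x - 1 else φ x) < φ x
  rw [if_pos hx]
  have := hx.1
  omega

end

end Pool.MP_598ba0_lc
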