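import Mathlib
import Pool.Agent.Lib.MP_598ba0_lc.SubN

/-!
# MP_598ba0_lc: interface: forcing-valued uniform ultrafilters on `κ_n`
-/

namespace Pool.MP_598ba0_lc

open Set Cardinal Name Cond

/-- `UU b q` is read: `q` forces that (the set named by) `b` belongs to the ultrafilter. -/
structure UltN (n : ℕ) (UU : (K (some n) → LowerSet Cond) → Cond → Prop) : Prop where
  isLow : ∀ b q, UU b q → ∀ x, IsLow n (b x)
  mono : ∀ b q r, UU b q → r ≤ q → UU b r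
  lowq : ∀ b q, UU b q → UU b (low n q)
  up : ∀ b b' q, UU b q → (∀ x, IsLow n (b' x)) →
    (∀ x, ∀ r ≤ q, r ∈ b x → ∃ s ≤ r, s ∈ b' x) → UU b' q
  inter : ∀ b b' q, UU b q → UU b' q → UU (fun x => b x ⊓ b' x) q
  top : ∀ q, UU (fun _ => ⊤) q
  unbdd : ∀ b q, UU b q → ∀ y : K (some n), ¬ ∀ x, y ≤ x → ∀ r ≤ q, r ∉ b x
  ultra : ∀ b, (∀ x, IsLow n (b x)) → ∀ q, ∃ r ≤ q, UU b r ∨ UU (fun x => cpl (b x)) r

end Pool.MP_598ba0_lc
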