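import Mathlib
import Pool.Agent.Lib.MP_598ba0_lc.CardM
import Pool.Agent.Lib.MP_598ba0_lc.UltI

/-!
# MP_598ba0_lc: `aleph_n` carries a uniform ultrafilter in the model
-/

namespace Pool.MP_598ba0_lc

open Set Cardinal Name Cond

lemma IsLow.cpl {n : ℕ} {c : LowerSet Cond} (h : IsLow n c) : IsLow n (cpl c) := by
  intro q
  constructor
  · intro hq r hr hrc
    have h1 : mrg r (⟨q⟩ : Tl n) ≤ q := by
      have := mrg_mono (m := n) (a := q) (a' := r) (t := (⟨q⟩ : Tl n)) (t' := ⟨q⟩)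
        (fun j hj x v hv => hr j x v (by rw [low_lo hj]; exact hv)) le_rfl
      rwa [mrg_self] at this
    refine hq _ h1 ?_
    rw [h, low_mrg, ← h]
    exact hrc
  · intro hq
    exact (Pool.MP_598ba0_lc.cpl c).lower (le_low q) hq

lemma sbN_inj {α : Ordinal.{0}} {b b' : α.ToType → LowerSet Cond} (h : sbN α b = sbN α b') :
    b = b' := by
  unfold sbN at h
  injection h

lemma on_eq_sbN (α : Ordinal.{0}) : on α = sbN α (fun _ => ⊤) := on_eq α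

lemma sbN_low_NN {n : ℕ} {b : K (some n) → LowerSet Cond} (hb : ∀ x, IsLow n (b x)) :
    sbN _ b ∈ NN := by
  refine sbN_NN (m := n + 1) (fun c hc x q hq => ?_)
  rw [hb x, low_fl hc, ← hb x] at hq
  exact hq

/-- representation of subsets of `κ_n` -/
lemma repr_low {n : ℕ} (σ : Nm) (p : Cond) : ∃ q ≤ p, ∃ b : K (some n) → LowerSet Cond,
    (∀ x, IsLow n (b x)) ∧ ∀ x, ∀ r ≤ q, (fmem (on (od x)) σ r ↔ r ∈ b x) := by
  have hJ : #(Lo n × K (some n)) ≤ 2 ^ kap n := by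
    rw [mk_prod, lift_id, lift_id, mk_K]
    exact (mul_le_mul' (mk_Lo_le n) (cantor _).le).trans (mul_eq_self (al_two n)).le
  obtain ⟨t, ht0, ht⟩ := tail_dec hJ (fun z t => fmem (on (od z.2)) σ (mrg z.1.1 t))
    (fun z t t' h htt => fmem_mono h (mrg_mono' le_rfl htt)) ⟨p⟩
  have hq : mrg p t ≤ p := by
    have := mrg_mono' (m := n) (le_refl p) ht0
    rwa [mrg_self] at this
  let b : K (some n) → LowerSet Cond := fun x =>
    ⟨{r | fmem (on (od x)) σ (mrg r t)}, fun r s hsr h => fmem_mono h (mrg_mono' hsr le_rfl)⟩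
  have hb : ∀ x r, r ∈ b x ↔ fmem (on (od x)) σ (mrg r t) := fun _ _ => Iff.rfl
  refine ⟨mrg p t, hq, b, fun x q => by rw [hb, hb, mrg_low], fun x r hr => ?_⟩
  have htr : t ≤ (⟨r⟩ : Tl n) := le_trans tl_mrg (tl_mono hr)
  rw [hb]
  constructor
  · intro h
    have hmr : mrg (toLo n r).1 (⟨r⟩ : Tl n) = r := by
      show mrg (low n r) _ = r
      rw [mrg_low, mrg_self]
    have := ht (toLo n r, x) ⟨r⟩ htr (by rw [hmr]; exact h)
    have h2 : fmem (on (od x)) σ (mrg (low n r) t) := this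
    rwa [mrg_low] at h2
  · intro h
    exact fmem_mono h (le_mrg le_rfl htr)

/-- the name of the ultrafilter -/
noncomputable def UN (n : ℕ) (UU : (K (some n) → LowerSet Cond) → Cond → Prop) : Nm :=
  mk {b : K (some n) → LowerSet Cond // ∀ x, IsLow n (b x)} (fun b => sbN _ b.1)
    (fun b => lo (UU b.1))

lemma UN_NN {n : ℕ} {UU : (K (some n) → LowerSet Cond) → Cond → Prop} (hU : UltN n UU) :
    UN n UU ∈ NN := by
  refine NN_of (m := n + 1) (fun k => sbN_low_NN k.2) (fun c hc => Eqv.of_eq ?_)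
  have hmono : ∀ b : K (some n) → LowerSet Cond, ∀ p q, UU b p → q ≤ p → UU b q :=
    fun b p q h hq => hU.mono b p q h hq
  refine act_mk_of (fun b => ?_) (fun b => ?_)
  · rw [act_sbN]
    congr 1
    funext x
    ext q
    show fl c q ∈ b.1 x ↔ q ∈ b.1 x
    rw [b.2 x, low_fl hc, ← b.2 x]
  · ext q
    show fl c q ∈ lo (UU b.1) ↔ q ∈ lo (UU b.1)
    rw [mem_lo (hmono b.1), mem_lo (hmono b.1)]
    have key : ∀ r, UU b.1 r ↔ UU b.1 (low n r) :=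
      fun r => ⟨hU.lowq b.1 r, fun h => hU.mono _ _ _ h (le_low r)⟩
    rw [key, low_fl hc, ← key]

/-! ### Tasks -/

section tasks
variable (n : ℕ) (UU : (K (some n) → LowerSet Cond) → Cond → Prop)

/-- representation -/
def repT : Task Nm Cond := TL 1 fun v q l => ∃ b : K (some n) → LowerSet Cond,
  (∀ x, IsLow n (b x)) ∧ (∀ x, ∀ r ≤ q, (fmem (on (od x)) (v 0) r ↔ r ∈ b x)) ∧ l = [sbN _ b]
/-- intersections -/
def infT : Task Nm Cond := TL 2 fun v _ l => ∃ b b' : K (some n) → LowerSet Cond,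
  v 0 = sbN _ b ∧ v 1 = sbN _ b' ∧ l = [sbN (kap n).ord (fun x => b x ⊓ b' x)]
/-- complements -/
def cplT : Task Nm Cond := TL 1 fun v _ l => ∃ b : K (some n) → LowerSet Cond,
  v 0 = sbN _ b ∧ l = [sbN (kap n).ord (fun x => cpl (b x))]
/-- deciding membership in the ultrafilter -/
def ultT : Task Nm Cond := TL 1 fun v q l => ∃ b : K (some n) → LowerSet Cond,
  v 0 = sbN _ b ∧ (UU b q ∨ UU (fun x => cpl (b x)) q) ∧ l = []
/-- failure of inclusion -/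
def nsubT : Task Nm Cond := TL 2 fun v q l => ∃ b b' : K (some n) → LowerSet Cond, ∃ x,
  v 0 = sbN _ b ∧ v 1 = sbN _ b' ∧ q ∈ b x ∧ q ∈ cpl (b' x) ∧ l = [on (od x)]
/-- deciding membership in a subset -/
def mdT : Task Nm Cond := TL 2 fun v q l => ∃ b : K (some n) → LowerSet Cond, ∃ x,
  v 0 = sbN _ b ∧ v 1 = on (od x) ∧ (q ∈ b x ∨ q ∈ cpl (b x)) ∧ l = []
/-- large elements -/
def lgT : Task Nm Cond := TL 2 fun v q l => ∃ b : K (some n) → LowerSet Cond, ∃ x y,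
  v 0 = sbN _ b ∧ v 1 = on (od y) ∧ y ≤ x ∧ q ∈ b x ∧ l = [on (od x)]

/-- the tasks for the ultrafilter on `κ_n` -/
structure Good2 (U : Set Nm) (H : Set Cond) : Prop where
  rep : Meets U H (repT n)
  inf : Meets U H (infT n)
  cpl : Meets U H (cplT n)
  ult : Meets U H (ultT n UU)
  nsub : Meets U H (nsubT n)
  md : Meets U H (mdT n)
  lg : Meets U H (lgT n)
  un : Meets U H (seedT (UN n UU))

end tasks

section
variable {U : Set Nm} {H : Set Cond} (h : Good1 U H)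

lemma mem_sbN {α : Ordinal.{0}} {b : α.ToType → LowerSet Cond} {z : ZFSet.{0}} :
    z ∈ val U H (sbN α b) ↔ ∃ x : α.ToType, on (od x) ∈ U ∧ z = val U H (on (od x)) ∧
      ∃ q ∈ H, q ∈ b x := by
  rw [mem_val]
  constructor
  · rintro ⟨k, hk, hq, rfl⟩
    exact ⟨k, hk, rfl, hq⟩
  · rintro ⟨x, hx, rfl, hq⟩
    exact ⟨x, hx, hq, rfl⟩

include h in
lemma mem_sbN' {α : Ordinal.{0}} {b : α.ToType → LowerSet Cond} {x : α.ToType}
    (hx : on (od x) ∈ U) : val U H (on (od x)) ∈ val U H (sbN α b) ↔ ∃ q ∈ H, q ∈ b x := by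
  rw [mem_sbN]
  constructor
  · rintro ⟨y, hy, he, hq⟩
    have := on_inj' h hx hy he
    rw [od_inj.1 this]
    exact hq
  · intro hq
    exact ⟨x, hx, rfl, hq⟩

include h in
lemma sbN_sub {α : Ordinal.{0}} (b : α.ToType → LowerSet Cond) :
    val U H (sbN α b) ⊆ val U H (on α) := by
  intro z hz
  obtain ⟨x, hx, rfl, _⟩ := mem_sbN.1 hz
  exact (mem_val_on h.ne).2 ⟨_, od_lt x, hx, rfl⟩

variable {n : ℕ} {UU : (K (some n) → LowerSet Cond) → Cond → Prop} (hU : UltN n UU)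
  (h2 : Good2 n UU U H)

include hU in
lemma mem_UN {A : ZFSet.{0}} : A ∈ val U H (UN n UU) ↔ ∃ b : K (some n) → LowerSet Cond,
    (∀ x, IsLow n (b x)) ∧ sbN _ b ∈ U ∧ (∃ q ∈ H, UU b q) ∧ A = val U H (sbN _ b) := by
  have hmono : ∀ b : K (some n) → LowerSet Cond, ∀ p q, UU b p → q ≤ p → UU b q :=
    fun b p q h hq => hU.mono b p q h hq
  rw [mem_val]
  constructor
  · rintro ⟨b, hb, ⟨q, hq, hqb⟩, rfl⟩
    exact ⟨b.1, b.2, hb, ⟨q, hq, (mem_lo (hmono b.1)).1 hqb⟩, rfl⟩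
  · rintro ⟨b, hb1, hb2, ⟨q, hq, hqb⟩, rfl⟩
    exact ⟨⟨b, hb1⟩, hb2, ⟨q, hq, (mem_lo (hmono b)).2 hqb⟩, rfl⟩

include h h2 in
lemma repr_mem {B : ZFSet.{0}} (hB : B ∈ Mod U H NN) (hs : B ⊆ al U H n) :
    ∃ b : K (some n) → LowerSet Cond, (∀ x, IsLow n (b x)) ∧ sbN _ b ∈ U ∧
      B = val U H (sbN _ b) := by
  obtain ⟨σ, _, hσ, rfl⟩ := hB
  rcases meets_TL h2.rep (fun _ => σ) (fun _ => hσ) with
    ⟨q, hq, l, hl, b, hb, hbq, rfl⟩ | ⟨p, hp, hn⟩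
  · refine ⟨b, hb, hl _ (by simp), ?_⟩
    ext z
    constructor
    · intro hz
      obtain ⟨β, hβ, hβU, rfl⟩ := (mem_val_on h.ne).1 (hs hz)
      obtain ⟨x, rfl⟩ := od_surj hβ
      obtain ⟨p, hp, hf⟩ := (val_mem_iff h.at hβU hσ).1 hz
      obtain ⟨r, hr, hr1, hr2⟩ := h.at.filt.dir p hp q hq
      exact (mem_sbN' h hβU).2 ⟨r, hr, (hbq x r hr2).1 (fmem_mono hf hr1)⟩
    · intro hz
      obtain ⟨x, hx, rfl, q', hq', hb'⟩ := mem_sbN.1 hz
      obtain ⟨r, hr, hr1, hr2⟩ := h.at.filt.dir q' hq' q hq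
      exact (val_mem_iff h.at hx hσ).2 ⟨r, hr, (hbq x r hr2).2 ((b x).lower hr1 hb')⟩
  · exfalso
    obtain ⟨q, hq, b, hb, hbq⟩ := repr_low (n := n) σ p
    exact hn q hq _ ⟨b, hb, hbq, rfl⟩

include h hU h2 in
/-- elements of the ultrafilter are unbounded -/
lemma UN_unbdd {b : K (some n) → LowerSet Cond} (hbU : sbN _ b ∈ U) {q : Cond} (hq : q ∈ H)
    (hb : UU b q) {y : K (some n)} (hy : on (od y) ∈ U) :
    ∃ x, y ≤ x ∧ on (od x) ∈ U ∧ val U H (on (od x)) ∈ val U H (sbN _ b) := by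
  rcases meets_TL h2.lg ![sbN _ b, on (od y)] (forall2 hbU hy) with
    ⟨q', hq', l, hl, b', x, y', e1, e2, hyx, hx, rfl⟩ | ⟨p, hp, hn⟩
  · obtain rfl := sbN_inj e1
    obtain rfl := od_inj.1 (on_name_inj e2)
    have hxU : on (od x) ∈ U := hl _ (by simp)
    exact ⟨x, hyx, hxU, (mem_sbN' h hxU).2 ⟨q', hq', hx⟩⟩
  · exfalso
    obtain ⟨r, _, hr1, hr2⟩ := h.at.filt.dir q hq p hp
    exact hU.unbdd b r (hU.mono _ _ _ hb hr1) y
      (fun x hyx s hs hsx => hn s (hs.trans hr2) _ ⟨b, x, y, rfl, rfl, hyx, hsx, rfl⟩)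

include h h2 in
lemma val_inf {b b' : K (some n) → LowerSet Cond} (hb : sbN _ b ∈ U) (hb' : sbN _ b' ∈ U) :
    sbN (kap n).ord (fun x => b x ⊓ b' x) ∈ U ∧
      val U H (sbN (kap n).ord (fun x => b x ⊓ b' x)) =
        val U H (sbN _ b) ∩ val U H (sbN _ b') := by
  constructor
  · rcases meets_TL h2.inf ![sbN _ b, sbN _ b'] (forall2 hb hb') with
      ⟨q, _, l, hl, c, c', e1, e2, rfl⟩ | ⟨p, _, hn⟩
    · obtain rfl := sbN_inj e1
      obtain rfl := sbN_inj e2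
      exact hl _ (by simp)
    · exact absurd ⟨b, b', rfl, rfl, rfl⟩ (hn p le_rfl _)
  · ext z
    rw [ZFSet.mem_inter]
    constructor
    · intro hz
      obtain ⟨x, hx, rfl, q, hq, hqb⟩ := mem_sbN.1 hz
      exact ⟨(mem_sbN' h hx).2 ⟨q, hq, hqb.1⟩, (mem_sbN' h hx).2 ⟨q, hq, hqb.2⟩⟩
    · rintro ⟨hz, hz'⟩
      obtain ⟨x, hx, rfl, q, hq, hqb⟩ := mem_sbN.1 hz
      obtain ⟨q', hq', hqb'⟩ := (mem_sbN' h hx).1 hz'
      obtain ⟨r, hr, hr1, hr2⟩ := h.at.filt.dir q hq q' hq'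
      exact (mem_sbN' h hx).2 ⟨r, hr, (b x).lower hr1 hqb, (b' x).lower hr2 hqb'⟩

include h h2 in
lemma val_cpl {b : K (some n) → LowerSet Cond} (hb : sbN _ b ∈ U) :
    sbN (kap n).ord (fun x => cpl (b x)) ∈ U ∧
      val U H (sbN (kap n).ord (fun x => cpl (b x))) = al U H n \ val U H (sbN _ b) := by
  constructor
  · rcases meets_TL h2.cpl (fun _ => sbN _ b) (fun _ => hb) with
      ⟨q, _, l, hl, c, e1, rfl⟩ | ⟨p, _, hn⟩
    · obtain rfl := sbN_inj e1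
      exact hl _ (by simp)
    · exact absurd ⟨b, rfl, rfl⟩ (hn p le_rfl _)
  · ext z
    rw [ZFSet.mem_sdiff]
    constructor
    · intro hz
      refine ⟨sbN_sub h _ hz, fun hz' => ?_⟩
      obtain ⟨x, hx, rfl, q, hq, hqb⟩ := mem_sbN.1 hz
      obtain ⟨q', hq', hqb'⟩ := (mem_sbN' h hx).1 hz'
      obtain ⟨r, hr, hr1, hr2⟩ := h.at.filt.dir q hq q' hq'
      exact mem_cpl.1 hqb r hr1 ((b x).lower hr2 hqb')
    · rintro ⟨hz, hz'⟩
      obtain ⟨β, hβ, hβU, rfl⟩ := (mem_val_on h.ne).1 hz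
      obtain ⟨x, rfl⟩ := od_surj hβ
      rcases meets_TL h2.md ![sbN _ b, on (od x)] (forall2 hb hβU) with
        ⟨q, hq, l, _, c, x', e1, e2, hd, _⟩ | ⟨p, hp, hn⟩
      · obtain rfl := sbN_inj e1
        obtain rfl := od_inj.1 (on_name_inj e2)
        rcases hd with hd | hd
        · exact absurd ((mem_sbN' h hβU).2 ⟨q, hq, hd⟩) hz'
        · exact (mem_sbN' h hβU).2 ⟨q, hq, hd⟩
      · exfalso
        by_cases hd : p ∈ cpl (b x)
        · exact hn p le_rfl _ ⟨b, x, rfl, rfl, Or.inr hd, rfl⟩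
        · rw [mem_cpl] at hd
          push Not at hd
          obtain ⟨r, hr, hrb⟩ := hd
          exact hn r hr _ ⟨b, x, rfl, rfl, Or.inl hrb, rfl⟩

include h hU h2 in
theorem isUniform_UN : IsUniformUltrafilter (Mod U H NN) (al U H n) (val U H (UN n UU)) where
  mem := ⟨_, UN_NN hU, seed_U h2.un, rfl⟩
  sub := by
    intro A hA
    obtain ⟨b, _, _, _, rfl⟩ := (mem_UN hU).1 hA
    exact sbN_sub h b
  whole := by
    obtain ⟨q, hq⟩ := h.ne
    refine (mem_UN hU).2 ⟨fun _ => ⊤, fun _ _ => Iff.rfl, ?_, ⟨q, hq, hU.top q⟩, ?_⟩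
    · rw [← on_eq_sbN]
      exact kap_U h n
    · rw [← on_eq_sbN]
      rfl
  empty := by
    intro hA
    obtain ⟨b, _, hbU, ⟨q, hq, hb⟩, he⟩ := (mem_UN hU).1 hA
    have h0 : (0 : Ordinal.{0}) < (kap n).ord := by
      rw [ord_pos]
      exact aleph0_pos.trans_le (al_kap n)
    obtain ⟨y, hy⟩ := od_surj h0
    have hyU : on (od y) ∈ U := by
      rw [hy]
      have := seed_U (h.nat 0)
      simpa using this
    obtain ⟨x, _, _, hx⟩ := UN_unbdd h hU h2 hbU hq hb hyU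
    rw [← he] at hx
    exact ZFSet.notMem_empty _ hx
  up := by
    intro A hA B hB hAB hBs
    obtain ⟨b, hbl, hbU, ⟨q, hq, hb⟩, rfl⟩ := (mem_UN hU).1 hA
    obtain ⟨b', hbl', hbU', rfl⟩ := repr_mem h h2 hB hBs
    refine (mem_UN hU).2 ⟨b', hbl', hbU', ?_, rfl⟩
    rcases meets_TL h2.nsub ![sbN _ b, sbN _ b'] (forall2 hbU hbU') with
      ⟨q', hq', l, hl, c, c', x, e1, e2, hc, hc', rfl⟩ | ⟨p, hp, hn⟩
    · exfalso
      obtain rfl := sbN_inj e1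
      obtain rfl := sbN_inj e2
      have hxU : on (od x) ∈ U := hl _ (by simp)
      obtain ⟨q₁, hq₁, hqb'⟩ := (mem_sbN' h hxU).1 (hAB ((mem_sbN' h hxU).2 ⟨q', hq', hc⟩))
      obtain ⟨r, hr, hr1, hr2⟩ := h.at.filt.dir q' hq' q₁ hq₁
      exact mem_cpl.1 hc' r hr1 ((b' x).lower hr2 hqb')
    · obtain ⟨r, hr, hr1, hr2⟩ := h.at.filt.dir q hq p hp
      refine ⟨r, hr, hU.up b b' r (hU.mono _ _ _ hb hr1) hbl' (fun x s hs hsb => ?_)⟩
      by_contra hcon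
      push Not at hcon
      exact hn s (hs.trans hr2) _ ⟨b, b', x, rfl, rfl, hsb, hcon, rfl⟩
  inter := by
    intro A hA B hB
    obtain ⟨b, hbl, hbU, ⟨q, hq, hb⟩, rfl⟩ := (mem_UN hU).1 hA
    obtain ⟨b', hbl', hbU', ⟨q', hq', hb'⟩, rfl⟩ := (mem_UN hU).1 hB
    obtain ⟨h3, h4⟩ := val_inf h h2 hbU hbU'
    obtain ⟨r, hr, hr1, hr2⟩ := h.at.filt.dir q hq q' hq'
    have h5 := hU.inter b b' r (hU.mono _ _ _ hb hr1) (hU.mono _ _ _ hb' hr2)
    exact (mem_UN hU).2 ⟨_, hU.isLow _ _ h5, h3, ⟨r, hr, h5⟩, h4.symm⟩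
  ultra := by
    intro A hA hAs
    obtain ⟨b, hbl, hbU, rfl⟩ := repr_mem h h2 hA hAs
    rcases meets_TL h2.ult (fun _ => sbN _ b) (fun _ => hbU) with
      ⟨q, hq, l, _, c, e1, hd, _⟩ | ⟨p, hp, hn⟩
    · obtain rfl := sbN_inj e1
      rcases hd with hd | hd
      · exact Or.inl ((mem_UN hU).2 ⟨b, hbl, hbU, ⟨q, hq, hd⟩, rfl⟩)
      · obtain ⟨h3, h4⟩ := val_cpl h h2 hbU
        exact Or.inr ((mem_UN hU).2 ⟨_, hU.isLow _ _ hd, h3, ⟨q, hq, hd⟩, h4.symm⟩)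
    · exfalso
      obtain ⟨r, hr, hd⟩ := hU.ultra b hbl p
      exact hn r hr _ ⟨b, rfl, hd, rfl⟩
  uniform := by
    intro A hA β hβ f hf hon
    obtain ⟨b, _, hbU, ⟨q, hq, hb⟩, rfl⟩ := (mem_UN hU).1 hA
    have hfun : ZFSet.IsFunc β (al U H n) f := by
      refine ⟨fun z hz => ?_, hon.1.2⟩
      obtain ⟨x, hx, y, hy, rfl⟩ := ZFSet.mem_prod.1 (hon.1.1 hz)
      exact ZFSet.pair_mem_prod.2 ⟨hx, sbN_sub h b hy⟩
    obtain ⟨γ, hγ, hb'⟩ := al_bdd h n β hβ f hf hfun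
    obtain ⟨ξ, hξ, hξU, rfl⟩ := (mem_val_on h.ne).1 hγ
    obtain ⟨y, rfl⟩ := od_surj hξ
    obtain ⟨x, hyx, hxU, hx⟩ := UN_unbdd h hU h2 hbU hq hb hξU
    obtain ⟨w, _, hw⟩ := hon.2 _ hx
    have h3 := (val_on_mem h.at hxU).1 (hb' _ _ hw)
    have h4 : od y ≤ od x := by
      have := Ordinal.ToType.mk.symm.monotone hyx
      exact this
    exact absurd h3 (not_lt.2 h4)

end

end Pool.MP_598ba0_lc
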