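import Mathlib
import Pool.Agent.Lib.MP_598ba0_lc.UltM

/-!
# MP_598ba0_lc: from a uniform ultrafilter on `aleph_ω` of the model to the forcing statement
-/

namespace Pool.MP_598ba0_lc

open Set Cardinal Name Cond

/-- the graph of `e` -/
def grR {n : ℕ} (e : K (some n) → KW) : Ordinal.{0} → Ordinal.{0} → Prop :=
  fun ξ η => ∃ x, od x = ξ ∧ od (e x) = η

/-- the name of the function `e` -/
noncomputable def funN {n : ℕ} (e : K (some n) → KW) : Nm :=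
  relN (kap n).ord kapW.ord (ckR (grR e))

/-- small sets in `δ` -/
def smT : Task Nm Cond := TL 1 fun v q l => ∃ n, ∃ e : K (some n) → KW,
  fmem (sbN kapW.ord (ck (range e))) (v 0) q ∧ l = [sbN kapW.ord (ck (range e)), funN e]
/-- the empty set in `δ` -/
def emT : Task Nm Cond := TL 1 fun v q l =>
  fmem (sbN kapW.ord (ck ∅)) (v 0) q ∧ l = [sbN kapW.ord (ck ∅)]
/-- failure of closure under intersections -/
def inT : Task Nm Cond := TL 1 fun v q l => ∃ b₁ b₂ : KW → LowerSet Cond, ∃ X : Set KW,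
  sbN kapW.ord b₁ ∈ NN ∧ sbN kapW.ord b₂ ∈ NN ∧
  fmem (sbN kapW.ord b₁) (v 0) q ∧ fmem (sbN kapW.ord b₂) (v 0) q ∧
  (∀ x ∉ X, ∀ r ≤ q, r ∈ b₁ x → r ∉ b₂ x) ∧ (∀ r ≤ q, ¬ fmem (sbN kapW.ord (ck X)) (v 0) r) ∧
  l = [sbN kapW.ord b₁, sbN kapW.ord b₂, sbN kapW.ord (ck X)]
/-- failure of the ultrafilter property -/
def ulT : Task Nm Cond := TL 1 fun v q l => ∃ b : KW → LowerSet Cond,
  sbN kapW.ord b ∈ NN ∧ (∀ r ≤ q, ¬ fmem (sbN kapW.ord b) (v 0) r) ∧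
  (∀ r ≤ q, ¬ fmem (sbN kapW.ord (fun x => cpl (b x))) (v 0) r) ∧
  l = [sbN kapW.ord b, sbN kapW.ord (fun x => cpl (b x))]
/-- deciding membership in a subset of `κ_ω` -/
def mdWT : Task Nm Cond := TL 2 fun v q l => ∃ b : KW → LowerSet Cond, ∃ x,
  v 0 = sbN _ b ∧ v 1 = on (od x) ∧ (q ∈ b x ∨ q ∈ cpl (b x)) ∧ l = []

/-- the tasks for `κ_ω` -/
structure Good3 (U : Set Nm) (H : Set Cond) : Prop where
  sm : Meets U H smT
  em : Meets U H emT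
  int : Meets U H inT
  ul : Meets U H ulT
  md : Meets U H mdWT

lemma ck_NN (X : Set KW) : sbN kapW.ord (ck X) ∈ NN :=
  sbN_NN (m := 0) (fun _ _ x q hq => by rw [mem_ck] at hq ⊢; exact hq)

section
variable {U : Set Nm} {H : Set Cond} (h : Good1 U H) (h3 : Good3 U H)

include h in
lemma funN_onto {n : ℕ} (e : K (some n) → KW) (hf : funN e ∈ U) :
    IsOnto (al U H n) (val U H (sbN kapW.ord (ck (range e)))) (val U H (funN e)) := by
  have hf' : relN (kap n).ord kapW.ord (ckR (grR e)) ∈ U := hf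
  have hmem : ∀ z, z ∈ val U H (funN e) ↔ ∃ x : K (some n), on (od x) ∈ U ∧ on (od (e x)) ∈ U ∧
      z = ZFSet.pair (val U H (on (od x))) (val U H (on (od (e x)))) := by
    intro z
    rw [funN, mem_relN h]
    constructor
    · rintro ⟨ξ, _, η, _, h1, h2, rfl, q, _, hc⟩
      obtain ⟨x, rfl, rfl⟩ := mem_ckR.1 hc
      exact ⟨x, h1, h2, rfl⟩
    · rintro ⟨x, h1, h2, rfl⟩
      obtain ⟨q, hq⟩ := h.ne
      exact ⟨od x, od_lt x, od (e x), od_lt _, h1, h2, rfl, q, hq, mem_ckR.2 ⟨x, rfl, rfl⟩⟩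
  have hX : ∀ y : KW, on (od y) ∈ U → (val U H (on (od y)) ∈
      val U H (sbN kapW.ord (ck (range e))) ↔ y ∈ range e) := by
    intro y hy
    rw [mem_sbN' h hy]
    constructor
    · rintro ⟨q, _, hq⟩
      exact mem_ck.1 hq
    · intro hy'
      obtain ⟨q, hq⟩ := h.ne
      exact ⟨q, hq, mem_ck.2 hy'⟩
  refine ⟨⟨?_, ?_⟩, ?_⟩
  · intro z hz
    obtain ⟨x, h1, h2, rfl⟩ := (hmem z).1 hz
    exact ZFSet.pair_mem_prod.2 ⟨(mem_val_on h.ne).2 ⟨_, od_lt x, h1, rfl⟩,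
      (hX _ h2).2 (mem_range_self x)⟩
  · intro z hz
    obtain ⟨ξ, hξ, hξU, rfl⟩ := (mem_val_on h.ne).1 hz
    obtain ⟨x, rfl⟩ := od_surj hξ
    have hvl : ∀ q, vl (funN e) (od x) (od (e x)) q := fun q =>
      vl_relN (od_lt x) (od_lt (e x)) (mem_ckR.2 ⟨x, rfl, rfl⟩)
    rcases meets_TL h.tot ![funN e, on (od x)] (forall2 hf hξU) with
      ⟨q, hq, l, hl, ξ', η, he, rfl, hv⟩ | ⟨p, hp, hn⟩
    · obtain rfl := on_name_inj he
      have hηU : on η ∈ U := hl _ (by simp)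
      have h4 := (vl_iff h hf hξU hηU).2 ⟨q, hq, hv⟩
      refine ⟨_, h4, fun w hw => ?_⟩
      obtain ⟨x₁, h5, h6, h7⟩ := (hmem _).1 h4
      obtain ⟨x₂, h5', h6', h7'⟩ := (hmem _).1 hw
      obtain ⟨e1, e2⟩ := ZFSet.pair_injective h7
      obtain ⟨e1', e2'⟩ := ZFSet.pair_injective h7'
      have e3 := od_inj.1 (on_inj' h hξU h5 e1)
      have e3' := od_inj.1 (on_inj' h hξU h5' e1')
      rw [e2, e2', ← e3, ← e3']
    · exact absurd ⟨od x, od (e x), rfl, rfl, hvl p⟩ (hn p le_rfl _)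
  · intro y hy
    obtain ⟨z, hzU, rfl, q, _, hz⟩ := mem_sbN.1 hy
    obtain ⟨x, rfl⟩ := mem_ck.1 hz
    have hvl : ∀ q, vl (funN e) (od x) (od (e x)) q := fun q =>
      vl_relN (od_lt x) (od_lt (e x)) (mem_ckR.2 ⟨x, rfl, rfl⟩)
    rcases meets_TL h.onto ![funN e, on (od (e x))] (forall2 hf hzU) with
      ⟨q, hq, l, hl, ξ, η, he, rfl, hv⟩ | ⟨p, hp, hn⟩
    · obtain rfl := on_name_inj he
      have hξU : on ξ ∈ U := hl _ (by simp)
      have h4 := (vl_iff h hf hξU hzU).2 ⟨q, hq, hv⟩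
      obtain ⟨x₁, h5, h6, h7⟩ := (hmem _).1 h4
      refine ⟨_, ?_, h4⟩
      rw [(ZFSet.pair_injective h7).1]
      exact (mem_val_on h.ne).2 ⟨_, od_lt x₁, h5, rfl⟩
    · exact absurd ⟨od x, od (e x), rfl, rfl, hvl p⟩ (hn p le_rfl _)

include h h3 in
lemma val_cplW {b : KW → LowerSet Cond} (hb : sbN kapW.ord b ∈ U) :
    val U H (sbN kapW.ord (fun x => cpl (b x))) = alW U H \ val U H (sbN _ b) := by
  ext z
  rw [ZFSet.mem_sdiff]
  constructor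
  · intro hz
    refine ⟨sbN_sub h _ hz, fun hz' => ?_⟩
    obtain ⟨x, hx, rfl, q, hq, hqb⟩ := mem_sbN.1 hz
    obtain ⟨q', hq', hqb'⟩ := (mem_sbN' h hx).1 hz'
    obtain ⟨r, hr, hr1, hr2⟩ := h.at.filt.dir q hq q' hq'
    exact mem_cpl.1 hqb r hr1 ((b x).lower hr2 hqb')
  · rintro ⟨hz, hz'⟩
    obtain ⟨β, hβ, hβU, rfl⟩ := (mem_val_on h.ne).1 hz
    obtain ⟨x, rfl⟩ := od_surj hβ
    rcases meets_TL h3.md ![sbN _ b, on (od x)] (forall2 hb hβU) with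
      ⟨q, hq, l, _, c, x', e1, e2, hd, _⟩ | ⟨p, hp, hn⟩
    · obtain rfl := sbN_inj e1
      obtain rfl := od_inj.1 (on_name_inj e2)
      rcases hd with hd | hd
      · exact absurd ((mem_sbN' h hβU).2 ⟨q, hq, hd⟩) hz'
      · exact (mem_sbN' h hβU).2 ⟨q, hq, hd⟩
    · exfalso
      by_cases hd : p ∈ cpl (b x)
      · exact hn p le_rfl _ ⟨b, x, rfl, rfl, Or.inr hd, rfl⟩
      · rw [mem_cpl] at hd
        push Not at hd
        obtain ⟨r, hr, hrb⟩ := hd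
        exact hn r hr _ ⟨b, x, rfl, rfl, Or.inl hrb, rfl⟩

lemma exists_enum {X : Set KW} (hX : #X < kapW) (hne : X.Nonempty) :
    ∃ n, ∃ e : K (some n) → KW, range e = X := by
  obtain ⟨n, hn⟩ := exists_lt_kap hX
  have hc : #X ≤ #(K (some n)) := by
    rw [mk_K]
    exact hn.le
  obtain ⟨g⟩ := (Cardinal.le_def _ _).1 hc
  have : Nonempty X := hne.to_subtype
  refine ⟨n, fun y => (Function.invFun g y).1, ?_⟩
  ext x
  constructor
  · rintro ⟨y, rfl⟩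
    exact (Function.invFun g y).2
  · intro hx
    refine ⟨g ⟨x, hx⟩, ?_⟩
    show (Function.invFun g (g ⟨x, hx⟩)).1 = x
    rw [Function.leftInverse_invFun g.injective ⟨x, hx⟩]

include h h3 in
theorem exists_UltW {δ : Nm} (hδ : δ ∈ U)
    (hD : IsUniformUltrafilter (Mod U H NN) (alW U H) (val U H δ)) : ∃ p, UltW p δ := by
  have hv : ∀ i : Fin 1, (fun _ => δ : Fin 1 → Nm) i ∈ U := fun _ => hδ
  rcases meets_TL h3.sm (fun _ => δ) hv with ⟨q, hq, l, hl, n, e, hm, rfl⟩ | ⟨p₁, hp₁, hn₁⟩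
  · exfalso
    have h4 : sbN kapW.ord (ck (range e)) ∈ U := hl _ (by simp)
    have h5 : funN e ∈ U := hl _ (by simp)
    exact hD.uniform _ ((val_mem_iff h.at h4 hδ).2 ⟨q, hq, hm⟩) (al U H n)
      ((val_on_mem h.at (kap_U h n)).2 (ord_lt_ord.2 (kap_lt_W n))) _
      ⟨_, ckR_NN _ _ _, h5, rfl⟩ (funN_onto h e h5)
  rcases meets_TL h3.em (fun _ => δ) hv with ⟨q, hq, l, hl, hm, rfl⟩ | ⟨p₂, hp₂, hn₂⟩
  · exfalso
    have h4 : sbN kapW.ord (ck ∅) ∈ U := hl _ (by simp)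
    refine hD.empty ?_
    have h5 := (val_mem_iff h.at h4 hδ).2 ⟨q, hq, hm⟩
    have h6 : val U H (sbN kapW.ord (ck ∅)) = ∅ := by
      rw [ZFSet.eq_empty]
      intro z hz
      obtain ⟨x, _, rfl, q', _, hx⟩ := mem_sbN.1 hz
      exact mem_ck.1 hx
    rwa [h6] at h5
  rcases meets_TL h3.int (fun _ => δ) hv with
    ⟨q, hq, l, hl, b₁, b₂, X, hN₁, hN₂, hm₁, hm₂, hX, hno, rfl⟩ | ⟨p₃, hp₃, hn₃⟩
  · exfalso
    have h4 : sbN kapW.ord b₁ ∈ U := hl _ (by simp)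
    have h5 : sbN kapW.ord b₂ ∈ U := hl _ (by simp)
    have h6 : sbN kapW.ord (ck X) ∈ U := hl _ (by simp)
    have h7 := hD.inter _ ((val_mem_iff h.at h4 hδ).2 ⟨q, hq, hm₁⟩) _
      ((val_mem_iff h.at h5 hδ).2 ⟨q, hq, hm₂⟩)
    have h8 : val U H (sbN kapW.ord b₁) ∩ val U H (sbN kapW.ord b₂) ⊆
        val U H (sbN kapW.ord (ck X)) := by
      intro z hz
      rw [ZFSet.mem_inter] at hz
      obtain ⟨x, hx, rfl, q₁, hq₁, hx₁⟩ := mem_sbN.1 hz.1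
      obtain ⟨q₂, hq₂, hx₂⟩ := (mem_sbN' h hx).1 hz.2
      obtain ⟨r, hr, hr1, hr2, hr3⟩ := h.at.filt.dir3 hq hq₁ hq₂
      refine (mem_sbN' h hx).2 ⟨q, hq, mem_ck.2 ?_⟩
      by_contra hxX
      exact hX x hxX r hr1 ((b₁ x).lower hr2 hx₁) ((b₂ x).lower hr3 hx₂)
    have h9 := hD.up _ h7 _ ⟨_, ck_NN X, h6, rfl⟩ h8 (sbN_sub h _)
    obtain ⟨p', hp', hf⟩ := (val_mem_iff h.at h6 hδ).1 h9
    obtain ⟨r, _, hr1, hr2⟩ := h.at.filt.dir q hq p' hp'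
    exact hno r hr1 (fmem_mono hf hr2)
  rcases meets_TL h3.ul (fun _ => δ) hv with
    ⟨q, hq, l, hl, b, hN, hno, hno', rfl⟩ | ⟨p₄, hp₄, hn₄⟩
  · exfalso
    have h4 : sbN kapW.ord b ∈ U := hl _ (by simp)
    have h5 : sbN kapW.ord (fun x => cpl (b x)) ∈ U := hl _ (by simp)
    rcases hD.ultra _ ⟨_, hN, h4, rfl⟩ (sbN_sub h _) with h6 | h6
    · obtain ⟨p', hp', hf⟩ := (val_mem_iff h.at h4 hδ).1 h6
      obtain ⟨r, _, hr1, hr2⟩ := h.at.filt.dir q hq p' hp'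
      exact hno r hr1 (fmem_mono hf hr2)
    · rw [← val_cplW h h3 h4] at h6
      obtain ⟨p', hp', hf⟩ := (val_mem_iff h.at h5 hδ).1 h6
      obtain ⟨r, _, hr1, hr2⟩ := h.at.filt.dir q hq p' hp'
      exact hno' r hr1 (fmem_mono hf hr2)
  obtain ⟨s, hs, hs1, hs2⟩ := h.at.filt.dir p₁ hp₁ p₂ hp₂
  obtain ⟨p, hp, hps, hp3, hp4⟩ := h.at.filt.dir3 hs hp₃ hp₄
  refine ⟨p, ⟨?_, ?_, ?_⟩⟩
  · intro q hq X hX hm
    by_cases hne : X.Nonempty
    · obtain ⟨n, e, rfl⟩ := exists_enum hX hne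
      exact hn₁ q (hq.trans (hps.trans hs1)) _ ⟨n, e, hm, rfl⟩
    · rw [not_nonempty_iff_eq_empty] at hne
      subst hne
      exact hn₂ q (hq.trans (hps.trans hs2)) _ ⟨hm, rfl⟩
  · intro q hq b₁ b₂ hN₁ hN₂ X hm₁ hm₂ hX
    by_contra hcon
    push Not at hcon
    exact hn₃ q (hq.trans hp3) _ ⟨b₁, b₂, X, hN₁, hN₂, hm₁, hm₂, hX, hcon, rfl⟩
  · intro b hN q hq
    by_contra hcon
    push Not at hcon
    exact hn₄ q (hq.trans hp4) _ ⟨b, hN, fun r hr => (hcon r hr).1, fun r hr => (hcon r hr).2, rfl⟩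

end

end Pool.MP_598ba0_lc
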