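import Mathlib
import Pool.Agent.Lib.MP_598ba0_lc.NoUltM
import Pool.Agent.Lib.MP_598ba0_lc.NoUlt
import Pool.Agent.Lib.MP_598ba0_lc_h88.Ult

/-!
# MP_598ba0_lc: assembly
-/

namespace Pool.MP_598ba0_lc

open Set Cardinal Name Cond

/-- the forcing-valued ultrafilters -/
def ultF (n : ℕ) : (K (some n) → LowerSet Cond) → Cond → Prop := (exists_UltN n).choose

lemma ultF_spec (n : ℕ) : UltN n (ultF n) := (exists_UltN n).choose_spec

/-- the single tasks -/
noncomputable def tasksA : Set (Task Nm Cond) :=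
  {memT, neqT, uniT, prT, powT, capT, rkT, unprT, seedT (on Ordinal.omega0), surT, totT, ontoT,
    nfT, bdT, thT, seedT (on kapW.ord), seedT cofN, smT, emT, inT, ulT, mdWT}

/-- the tasks indexed by natural numbers -/
noncomputable def tasksN (n : ℕ) : Set (Task Nm Cond) :=
  {seedT (on (n : Ordinal.{0})), seedT (on (kap n).ord), repT n, infT n, cplT n, ultT n (ultF n),
    nsubT n, mdT n, lgT n, seedT (UN n (ultF n))}

/-- the tasks indexed by formulas -/
def tasksF : Set (Task Nm Cond) :=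
  range (fun x : Σ n, Fml n => decT NN x.2)
  ∪ range (fun x : Σ n, Fml (n + 1) => allT NN x.2)
  ∪ range (fun x : Σ n, Fml (n + 1) => sepT x.2)
  ∪ range (fun x : Σ n, Fml (n + 2) => colT x.2)
  ∪ range (fun x : Σ n, Fml (n + 2) => cwT x.2)

/-- all tasks -/
noncomputable def allTasks : Set (Task Nm Cond) := tasksA ∪ (⋃ n, tasksN n) ∪ tasksF

lemma allTasks_countable : allTasks.Countable := by
  unfold allTasks
  rw [countable_union, countable_union]
  refine ⟨⟨?_, countable_iUnion fun n => ?_⟩, ?_⟩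
  · unfold tasksA
    exact (Set.toFinite _).countable
  · unfold tasksN
    exact (Set.toFinite _).countable
  · unfold tasksF
    simp only [countable_union]
    exact ⟨⟨⟨⟨countable_range _, countable_range _⟩, countable_range _⟩, countable_range _⟩,
      countable_range _⟩

/-- the main theorem -/
theorem main :
    ∃ (E : Set ZFSet.{0}) (a : ℕ → ZFSet.{0}) (κ : ZFSet.{0}),
      E.Countable ∧ (∀ x ∈ E, ∀ y ∈ x, y ∈ E) ∧ ZFModel E ∧
      (∀ μ ν, IsSuccOf E μ ν → IsReg E ν) ∧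
      a 0 = ZFSet.omega ∧ (∀ n, IsSuccOf E (a n) (a (n + 1))) ∧
      (∀ x, x ∈ κ ↔ ∃ n, x ∈ a n) ∧
      IsInfCard E κ ∧ ¬ IsReg E κ ∧
      (∀ n, ∃ D, IsUniformUltrafilter E (a n) D) ∧
      (¬ ∃ D, IsUniformUltrafilter E κ D) ∧
      (∀ ν ∈ κ, IsInfCard E ν → ∃ n, ν = a n) := by
  obtain ⟨U, H, hcount, hfilt, _, hR⟩ := exists_generic allTasks allTasks_countable triv
  have hA : ∀ R ∈ tasksA, Meets U H R := fun R hR' => hR R (Or.inl (Or.inl hR'))
  have hN : ∀ n, ∀ R ∈ tasksN n, Meets U H R := fun n R hR' =>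
    hR R (Or.inl (Or.inr (mem_iUnion.2 ⟨n, hR'⟩)))
  have hF : ∀ R ∈ tasksF, Meets U H R := fun R hR' => hR R (Or.inr hR')
  have hat : Atomic U H := ⟨hfilt, hA _ (by simp [tasksA]), hA _ (by simp [tasksA])⟩
  have hfull : Full U H NN := ⟨hat, fun {n} φ => hF _ (Or.inl (Or.inl (Or.inl (Or.inl
    ⟨⟨n, φ⟩, rfl⟩)))), fun {n} φ => hF _ (Or.inl (Or.inl (Or.inl (Or.inr ⟨⟨n, φ⟩, rfl⟩))))⟩
  have h0 : Good0 U H :=
    { full := hfull
      sep := fun {n} φ => hF _ (Or.inl (Or.inl (Or.inr ⟨⟨n, φ⟩, rfl⟩)))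
      col := fun {n} φ => hF _ (Or.inl (Or.inr ⟨⟨n, φ⟩, rfl⟩))
      cw := fun {n} φ => hF _ (Or.inr ⟨⟨n, φ⟩, rfl⟩)
      uni := hA _ (by simp [tasksA])
      pr := hA _ (by simp [tasksA])
      pow := hA _ (by simp [tasksA])
      cap := hA _ (by simp [tasksA])
      rk := hA _ (by simp [tasksA])
      unpr := hA _ (by simp [tasksA])
      om := hA _ (by simp [tasksA])
      nat := fun n => hN n _ (by simp [tasksN]) }
  have h1 : Good1 U H :=
    { h0 with
      sur := hA _ (by simp [tasksA])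
      tot := hA _ (by simp [tasksA])
      onto := hA _ (by simp [tasksA])
      nf := hA _ (by simp [tasksA])
      bd := hA _ (by simp [tasksA])
      th := hA _ (by simp [tasksA])
      kap := fun n => hN n _ (by simp [tasksN])
      kapW := hA _ (by simp [tasksA])
      cof := hA _ (by simp [tasksA]) }
  have h2 : ∀ n, Good2 n (ultF n) U H := fun n =>
    { rep := hN n _ (by simp [tasksN])
      inf := hN n _ (by simp [tasksN])
      cpl := hN n _ (by simp [tasksN])
      ult := hN n _ (by simp [tasksN])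
      nsub := hN n _ (by simp [tasksN])
      md := hN n _ (by simp [tasksN])
      lg := hN n _ (by simp [tasksN])
      un := hN n _ (by simp [tasksN]) }
  have h3 : Good3 U H :=
    { sm := hA _ (by simp [tasksA])
      em := hA _ (by simp [tasksA])
      int := hA _ (by simp [tasksA])
      ul := hA _ (by simp [tasksA])
      md := hA _ (by simp [tasksA]) }
  have hκω : IsInfCard (Mod U H NN) (alW U H) :=
    ⟨alW_isCard h1, fun x hx => (mem_alW h1).2 ⟨0, by rwa [al_zero h1]⟩⟩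
  have halW : ∀ n, al U H n ∈ alW U H := fun n =>
    (val_on_mem h1.at (kap_U h1 n)).2 (ord_lt_ord.2 (kap_lt_W n))
  refine ⟨Mod U H NN, al U H, alW U H, ?_, fun x hx y hy => Mod_trans hx hy, ZF_Mod h0,
    fun μ ν hs => succ_reg h1 hs, al_zero h1, al_succ h1, fun x => mem_alW h1, hκω,
    ?_, fun n => ⟨_, isUniform_UN h1 (ultF_spec n) (h2 n)⟩, ?_, ?_⟩
  · refine (hcount.image (val U H)).mono ?_
    rintro _ ⟨σ, _, h2, rfl⟩
    exact ⟨σ, h2, rfl⟩
  · rintro ⟨_, hreg⟩
    obtain ⟨f, hf, hfun, hcof⟩ := alW_cof h1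
    obtain ⟨γ, hγ, hb⟩ := hreg _ (halW 0) f hf hfun
    obtain ⟨x, y, hxy, hy⟩ := hcof γ hγ
    exact hy (hb x y hxy)
  · rintro ⟨D, hD⟩
    obtain ⟨δ, hδ, hδU, rfl⟩ := hD.mem
    obtain ⟨k, hk⟩ := NN_sym hδ
    obtain ⟨p, hp⟩ := exists_UltW h1 h3 hδU hD
    exact no_UltW hp hk
  · intro ν hν hc
    obtain ⟨α, hα, hαU, rfl⟩ := (mem_val_on h1.ne).1 hν
    have hω : Ordinal.omega0 ≤ α := (omega_sub_iff h1 hαU).1 hc.2
    rcases card_below h1 hαU hω hc.1 with ⟨n, rfl⟩ | hW | hT | ⟨c, hc', hlt⟩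
    · exact ⟨n, rfl⟩
    · exact absurd hα (by rw [hW]; exact lt_irrefl _)
    · exfalso
      rw [hT, ord_lt_ord] at hα
      exact absurd hα (not_lt.2 W_lt_T.le)
    · exfalso
      rw [hc', ord_lt_ord] at hα
      exact absurd (hlt.trans hα) (not_lt.2 (W_lt_T.le.trans (cantor _).le))

end Pool.MP_598ba0_lc
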